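import Pool.Agent.Helper56.CI.Lip

/-! # Codes for Borel sets and functions -/

set_option autoImplicit false

open MeasureTheory

namespace Pool.Agent.Helper56.CI

/-- good codes: labelled well-founded trees -/
def GoodC (c : ℕ → ℕ) : Prop := ∀ (w : ℕ → ℕ) (N : ℕ), ∃ l, N ≤ l ∧ c (Encodable.encode (pre w l)) ≠ 0

/-- `e` is the evaluation of the code `c` at the point `p` -/
def vld {Z : Type} (U : ℕ → Set Z) (c : ℕ → ℕ) (p : Z) (e : List ℕ → Bool) : Prop :=
  ∀ ρ : List ℕ, (∀ q, c (Encodable.encode ρ) = q + 1 → (e ρ = true ↔ p ∈ U q)) ∧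
    (c (Encodable.encode ρ) = 0 → (e ρ = true ↔ ∀ a, e (ρ ++ [a]) = false))

/-- the child relation -/
def chi (c : ℕ → ℕ) (ρ' ρ : List ℕ) : Prop := c (Encodable.encode ρ) = 0 ∧ ∃ a, ρ' = ρ ++ [a]

/-- no infinite descending sequence in a tree of lists -/
theorem wf_of_chain {r : List ℕ → List ℕ → Prop} (h1 : ∀ ρ' ρ, r ρ' ρ → ∃ a, ρ' = ρ ++ [a])
    (h2 : ∀ (w : ℕ → ℕ) (N : ℕ), ∃ l, N ≤ l ∧ ¬ r (pre w (l + 1)) (pre w l)) : WellFounded r := by
  rw [wellFounded_iff_isEmpty_descending_chain]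
  refine ⟨fun ⟨f, hf⟩ => ?_⟩
  have hlen : ∀ i, (f i).length = (f 0).length + i := by
    intro i
    induction i with
    | zero => rfl
    | succ i ih =>
      obtain ⟨a, ha⟩ := h1 _ _ (hf i)
      rw [ha, List.length_append, ih, List.length_singleton]
      rfl
  have hpre : ∀ i j, i ≤ j → f i = (f j).take (f i).length := by
    intro i j hij
    induction j, hij using Nat.le_induction with
    | base => rw [List.take_length]
    | succ j hj ih =>
      obtain ⟨a, ha⟩ := h1 _ _ (hf j)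
      rw [ha, List.take_append_of_le_length (by have := hlen i; have := hlen j; omega)]
      exact ih
  let w : ℕ → ℕ := fun k => (f (k + 1)).getD k 0
  have hw : ∀ i, pre w (f i).length = f i := by
    intro i
    conv_rhs => rw [eq_pre (f i)]
    apply pre_congr
    intro k hk
    show (f (k + 1)).getD k 0 = (f i).getD k 0
    have e : ∀ j j', j ≤ j' → k < (f j).length → (f j').getD k 0 = (f j).getD k 0 := by
      intro j j' hjj' hkj
      rw [hpre j j' hjj', List.getD_eq_getElem?_getD, List.getD_eq_getElem?_getD, List.getElem?_take_of_lt hkj]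
    rcases Nat.le_total (k + 1) i with h | h
    · rw [e (k + 1) i h (by rw [hlen]; omega)]
    · rw [e i (k + 1) h hk]
  obtain ⟨l, hl1, hl2⟩ := h2 w (f 0).length
  apply hl2
  have e1 : (f (l - (f 0).length)).length = l := by rw [hlen]; omega
  have e2 : (f (l - (f 0).length + 1)).length = l + 1 := by rw [hlen]; omega
  have e3 := hw (l - (f 0).length)
  have e4 := hw (l - (f 0).length + 1)
  rw [e1] at e3
  rw [e2] at e4
  rw [e3, e4]
  exact hf _

theorem GoodC.wf {c : ℕ → ℕ} (h : GoodC c) : WellFounded (chi c) := by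
  apply wf_of_chain (fun _ _ h => h.2)
  intro w N
  obtain ⟨l, h1, h2⟩ := h w N
  exact ⟨l, h1, fun h3 => h2 h3.1⟩

variable {Z : Type} {U : ℕ → Set Z}

theorem GoodC.exists_vld {c : ℕ → ℕ} (h : GoodC c) (U : ℕ → Set Z) (p : Z) : ∃ e, vld U c p e := by
  classical
  let F : (ρ : List ℕ) → ((ρ' : List ℕ) → chi c ρ' ρ → Bool) → Bool := fun ρ f =>
    if h0 : c (Encodable.encode ρ) = 0 then decide (∀ a, f (ρ ++ [a]) ⟨h0, a, rfl⟩ = false)
    else decide (p ∈ U (c (Encodable.encode ρ) - 1))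
  let e : List ℕ → Bool := h.wf.fix F
  have he : ∀ ρ, e ρ = F ρ (fun ρ' _ => e ρ') := fun ρ => h.wf.fix_eq F ρ
  refine ⟨e, fun ρ => ⟨?_, ?_⟩⟩
  · intro q hq
    have h0 : ¬ c (Encodable.encode ρ) = 0 := by omega
    rw [he ρ]
    simp only [F, dif_neg h0, decide_eq_true_eq]
    rw [hq]
    rfl
  · intro h0
    rw [he ρ]
    simp only [F, dif_pos h0, decide_eq_true_eq]

theorem GoodC.unique {c : ℕ → ℕ} (h : GoodC c) {p : Z} {e e' : List ℕ → Bool} (he : vld U c p e)
    (he' : vld U c p e') : e = e' := by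
  funext ρ
  induction ρ using h.wf.induction with
  | _ ρ ih =>
    rw [Bool.eq_iff_iff]
    rcases Nat.eq_zero_or_pos (c (Encodable.encode ρ)) with h0 | h0
    · rw [(he ρ).2 h0, (he' ρ).2 h0]
      refine forall_congr' fun a => ?_
      rw [ih (ρ ++ [a]) ⟨h0, a, rfl⟩]
    · obtain ⟨q, hq⟩ : ∃ q, c (Encodable.encode ρ) = q + 1 := ⟨_, (Nat.succ_pred_eq_of_pos h0).symm⟩
      rw [(he ρ).1 q hq, (he' ρ).1 q hq]

/-- `c` codes `A` -/
def Cd (U : ℕ → Set Z) (c : ℕ → ℕ) (A : Set Z) : Prop :=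
  GoodC c ∧ ∀ p e, vld U c p e → (e [] = true ↔ p ∈ A)

/-- the code with an internal node as root and the trees `c a` above it -/
def node (c : ℕ → ℕ → ℕ) : ℕ → ℕ := fun k =>
  match Denumerable.ofNat (List ℕ) k with
  | [] => 0
  | a :: ρ => c a (Encodable.encode ρ)

theorem node_nil (c : ℕ → ℕ → ℕ) : node c (Encodable.encode ([] : List ℕ)) = 0 := by
  unfold node
  rw [Denumerable.ofNat_encode]

theorem node_cons (c : ℕ → ℕ → ℕ) (a : ℕ) (ρ : List ℕ) :
    node c (Encodable.encode (a :: ρ)) = c a (Encodable.encode ρ) := by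
  unfold node
  rw [Denumerable.ofNat_encode]

theorem pre_succ' (z : ℕ → ℕ) (l : ℕ) : pre z (l + 1) = z 0 :: pre (fun i => z (i + 1)) l := by
  unfold pre
  rw [List.range_succ_eq_map, List.map_cons, List.map_map]
  rfl

theorem Cd_node {c : ℕ → ℕ → ℕ} {A : ℕ → Set Z} (h : ∀ a, Cd U (c a) (A a)) : Cd U (node c) (⋃ a, A a)ᶜ := by
  refine ⟨?_, ?_⟩
  · intro w N
    obtain ⟨l, h1, h2⟩ := (h (w 0)).1 (fun i => w (i + 1)) N
    refine ⟨l + 1, by omega, ?_⟩
    rw [pre_succ', node_cons]
    exact h2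
  · intro p e he
    have he' : ∀ a, vld U (c a) p (fun ρ => e (a :: ρ)) := by
      intro a ρ
      have := he (a :: ρ)
      rw [node_cons] at this
      exact this
    rw [(he []).2 (node_nil c)]
    simp only [Set.mem_compl_iff, Set.mem_iUnion, not_exists, List.nil_append]
    refine forall_congr' fun a => ?_
    have := (h a).2 p _ (he' a)
    rw [← this, Bool.not_eq_true]

theorem Cd_basic (q : ℕ) : Cd U (fun _ => q + 1) (U q) := by
  refine ⟨fun w N => ⟨N, le_rfl, by simp⟩, fun p e he => (he []).1 q rfl⟩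

theorem exists_Cd [m : MeasurableSpace Z] (hU : m = MeasurableSpace.generateFrom (Set.range U)) {A : Set Z}
    (hA : MeasurableSet A) : ∃ c, Cd U c A := by
  have hcompl : ∀ A : Set Z, (∃ c, Cd U c A) → ∃ c, Cd U c Aᶜ := by
    rintro A ⟨c, hc⟩
    refine ⟨node (fun _ => c), ?_⟩
    have := Cd_node (fun _ : ℕ => hc)
    rwa [Set.iUnion_const] at this
  have hunion : ∀ A : ℕ → Set Z, (∀ a, ∃ c, Cd U c (A a)) → ∃ c, Cd U c (⋃ a, A a) := by
    intro A h
    choose c hc using h
    have := hcompl _ ⟨_, Cd_node hc⟩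
    rwa [compl_compl] at this
  subst hU
  induction A, hA using MeasurableSpace.generateFrom_induction with
  | hC t ht _ =>
    obtain ⟨q, rfl⟩ := ht
    exact ⟨_, Cd_basic q⟩
  | empty =>
    have h1 := hcompl _ ⟨_, Cd_basic (U := U) 0⟩
    have h2 := hunion (fun a => if a = 0 then U 0 else (U 0)ᶜ) (fun a => by
      by_cases ha : a = 0
      · simp only [if_pos ha]; exact ⟨_, Cd_basic 0⟩
      · simp only [if_neg ha]; exact h1)
    have h3 := hcompl _ h2
    have e : (⋃ a : ℕ, (if a = 0 then U 0 else (U 0)ᶜ))ᶜ = ∅ := by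
      rw [Set.compl_empty_iff, Set.eq_univ_iff_forall]
      intro x
      rw [Set.mem_iUnion]
      by_cases hx : x ∈ U 0
      · exact ⟨0, by simpa using hx⟩
      · exact ⟨1, by simpa using hx⟩
    rwa [e] at h3
  | compl t _ ih => exact hcompl _ ih
  | iUnion s _ ih => exact hunion _ ih

theorem Cd.measurableSet [MeasurableSpace Z] (hU : ∀ q, MeasurableSet (U q)) {c : ℕ → ℕ} {A : Set Z}
    (h : Cd U c A) : MeasurableSet A := by
  classical
  choose e he using fun p => h.1.exists_vld U p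
  have h1 : ∀ ρ, MeasurableSet {p | e p ρ = true} := by
    intro ρ
    induction ρ using h.1.wf.induction with
    | _ ρ ih =>
      rcases Nat.eq_zero_or_pos (c (Encodable.encode ρ)) with h0 | h0
      · have e1 : {p | e p ρ = true} = ⋂ a, {p | e p (ρ ++ [a]) = true}ᶜ := by
          ext p
          simp only [Set.mem_ofPred_eq, Set.mem_iInter, Set.mem_compl_iff, Bool.not_eq_true]
          exact (he p ρ).2 h0
        rw [e1]
        exact MeasurableSet.iInter fun a => (ih _ ⟨h0, a, rfl⟩).compl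
      · obtain ⟨q, hq⟩ : ∃ q, c (Encodable.encode ρ) = q + 1 := ⟨_, (Nat.succ_pred_eq_of_pos h0).symm⟩
        have e1 : {p | e p ρ = true} = U q := by
          ext p
          exact (he p ρ).1 q hq
        rw [e1]
        exact hU q
  have e1 : A = {p | e p [] = true} := by
    ext p
    exact (h.2 p _ (he p)).symm
  rw [e1]
  exact h1 []

end Pool.Agent.Helper56.CI
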