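import Pool.Agent.Helper56.CI.Stmt

/-! # Borel codes -/

set_option autoImplicit false

open MeasureTheory

namespace Pool.Agent.Helper56.CI

theorem measurableSet_box (m a b : ℕ) : MeasurableSet (box m a b) := by
  have e : box m a b = ⋂ i : ℕ, ⋂ (_ : i < m), {p | p.1 i = a.testBit i ∧ p.2 i = b.testBit i} := by
    ext p
    simp only [box, Set.mem_ofPred_eq, Set.mem_iInter]
  rw [e]
  refine MeasurableSet.iInter fun i => MeasurableSet.iInter fun _ => ?_
  have h : Measurable fun p : (ℕ → Bool) × (ℕ → Bool) => (p.1 i, p.2 i) := by fun_prop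
  exact h (MeasurableSet.of_discrete (s := {t : Bool × Bool | t.1 = a.testBit i ∧ t.2 = b.testBit i}))

/-- coded sets are Borel -/
theorem Codes.measurableSet {c : ℕ → ℕ} {A : Set ((ℕ → Bool) × (ℕ → Bool))} (h : Codes c A) : MeasurableSet A := by
  induction h with
  | basic c h => exact measurableSet_box _ _ _
  | compl c A h hA ih => exact ih.compl
  | union c A h hA ih => exact MeasurableSet.iUnion ih

/-- a sequence codes at most one set -/
theorem Codes.unique {c : ℕ → ℕ} {A A' : Set ((ℕ → Bool) × (ℕ → Bool))} (h : Codes c A) (h' : Codes c A') :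
    A = A' := by
  induction h generalizing A' with
  | basic c h =>
    cases h' with
    | basic _ h2 => rfl
    | compl _ _ h2 _ => omega
    | union _ _ h2 _ => omega
  | compl c A h hA ih =>
    cases h' with
    | basic _ h2 => omega
    | compl _ A2 h2 hA2 => rw [ih hA2]
    | union _ _ h2 _ => omega
  | union c A h hA ih =>
    cases h' with
    | basic _ h2 => omega
    | compl _ _ h2 _ => omega
    | union _ A2 h2 hA2 =>
      congr 1
      funext k
      exact ih k (hA2 k)

/-- the code of a basic set -/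
def cbox (m a b : ℕ) : ℕ → ℕ
  | 0 => 0
  | 1 => m
  | 2 => a
  | _ => b

theorem codes_cbox (m a b : ℕ) : Codes (cbox m a b) (box m a b) := Codes.basic (cbox m a b) rfl

theorem exists_testBit (z : ℕ → Bool) (m : ℕ) : ∃ a : ℕ, ∀ i < m, z i = a.testBit i := by
  induction m generalizing z with
  | zero => exact ⟨0, fun i hi => absurd hi (by omega)⟩
  | succ m ih =>
    obtain ⟨a, ha⟩ := ih fun i => z (i + 1)
    refine ⟨Nat.bit (z 0) a, fun i hi => ?_⟩
    cases i with
    | zero => rw [Nat.testBit_bit_zero]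
    | succ i => rw [Nat.testBit_bit_succ]; exact ha i (by omega)

/-- adding a first entry -/
def ccons (a : ℕ) (c : ℕ → ℕ) : ℕ → ℕ
  | 0 => a
  | i + 1 => c i

/-- joining rows -/
def cjoin (c : ℕ → ℕ → ℕ) : ℕ → ℕ := fun i => c (Nat.unpair i).1 (Nat.unpair i).2

theorem codes_compl {c : ℕ → ℕ} {A : Set ((ℕ → Bool) × (ℕ → Bool))} (h : Codes c A) : Codes (ccons 1 c) Aᶜ :=
  Codes.compl _ _ rfl h

theorem codes_union {c : ℕ → ℕ → ℕ} {A : ℕ → Set ((ℕ → Bool) × (ℕ → Bool))} (h : ∀ k, Codes (c k) (A k)) :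
    Codes (ccons 2 (cjoin c)) (⋃ k, A k) := by
  refine Codes.union _ _ rfl fun k => ?_
  have e : (fun i => ccons 2 (cjoin c) (Nat.pair k i + 1)) = c k := by
    funext i
    show cjoin c (Nat.pair k i) = c k i
    unfold cjoin
    rw [Nat.unpair_pair]
  rw [e]
  exact h k

theorem measurable_ccons {X : Type} [MeasurableSpace X] (a : ℕ) {f : X → ℕ → ℕ} (hf : Measurable f) :
    Measurable fun x => ccons a (f x) := by
  refine measurable_pi_lambda _ fun i => ?_
  cases i with
  | zero => exact measurable_const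
  | succ i => exact (measurable_pi_apply i).comp hf

theorem measurable_cjoin {X : Type} [MeasurableSpace X] {f : ℕ → X → ℕ → ℕ} (hf : ∀ k, Measurable (f k)) :
    Measurable fun x => cjoin fun k => f k x :=
  measurable_pi_lambda _ fun i => (measurable_pi_apply (Nat.unpair i).2).comp (hf (Nat.unpair i).1)

section

variable {X : Type} [MeasurableSpace X]

/-- the sections are coded in a Borel way -/
def HasCode (E : Set (X × ((ℕ → Bool) × (ℕ → Bool)))) : Prop :=
  ∃ f : X → ℕ → ℕ, Measurable f ∧ ∀ x, Codes (f x) {p | (x, p) ∈ E}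

theorem hasCode_box (m a b : ℕ) : HasCode {r : X × ((ℕ → Bool) × (ℕ → Bool)) | r.2 ∈ box m a b} :=
  ⟨fun _ => cbox m a b, measurable_const, fun _ => codes_cbox m a b⟩

theorem hasCode_compl {E : Set (X × ((ℕ → Bool) × (ℕ → Bool)))} (h : HasCode E) : HasCode Eᶜ := by
  obtain ⟨f, h1, h2⟩ := h
  exact ⟨fun x => ccons 1 (f x), measurable_ccons 1 h1, fun x => codes_compl (h2 x)⟩

theorem hasCode_iUnion {E : ℕ → Set (X × ((ℕ → Bool) × (ℕ → Bool)))} (h : ∀ k, HasCode (E k)) :
    HasCode (⋃ k, E k) := by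
  choose f h1 h2 using h
  refine ⟨fun x => ccons 2 (cjoin fun k => f k x), measurable_ccons 2 (measurable_cjoin h1), fun x => ?_⟩
  have e : {p | (x, p) ∈ ⋃ k, E k} = ⋃ k, {p | (x, p) ∈ E k} := by
    ext p
    simp
  rw [e]
  exact codes_union fun k => h2 k x

theorem hasCode_univ : HasCode (Set.univ : Set (X × ((ℕ → Bool) × (ℕ → Bool)))) := by
  have h := hasCode_box (X := X) 0 0 0
  have e : {r : X × ((ℕ → Bool) × (ℕ → Bool)) | r.2 ∈ box 0 0 0} = Set.univ := by
    ext r
    simp [box]
  rwa [e] at h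

theorem hasCode_empty : HasCode (∅ : Set (X × ((ℕ → Bool) × (ℕ → Bool)))) := by
  rw [← Set.compl_univ]
  exact hasCode_compl hasCode_univ

theorem hasCode_fst {A : Set X} (hA : MeasurableSet A) :
    HasCode {r : X × ((ℕ → Bool) × (ℕ → Bool)) | r.1 ∈ A} := by
  classical
  obtain ⟨f, hf1, hf2⟩ := hasCode_univ (X := X)
  obtain ⟨g, hg1, hg2⟩ := hasCode_empty (X := X)
  refine ⟨fun x => if x ∈ A then f x else g x, Measurable.ite hA hf1 hg1, fun x => ?_⟩
  dsimp only
  by_cases h : x ∈ A
  · have e : {p : (ℕ → Bool) × (ℕ → Bool) | (x, p) ∈ {r : X × ((ℕ → Bool) × (ℕ → Bool)) | r.1 ∈ A}} =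
        {p | (x, p) ∈ (Set.univ : Set (X × ((ℕ → Bool) × (ℕ → Bool))))} := by
      ext p
      simp [h]
    rw [if_pos h, e]
    exact hf2 x
  · have e : {p : (ℕ → Bool) × (ℕ → Bool) | (x, p) ∈ {r : X × ((ℕ → Bool) × (ℕ → Bool)) | r.1 ∈ A}} =
        {p | (x, p) ∈ (∅ : Set (X × ((ℕ → Bool) × (ℕ → Bool))))} := by
      ext p
      simp [h]
    rw [if_neg h, e]
    exact hg2 x

theorem hasCode_coord (i : ℕ) (s : Set (Bool × Bool)) :
    HasCode {r : X × ((ℕ → Bool) × (ℕ → Bool)) | (r.2.1 i, r.2.2 i) ∈ s} := by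
  classical
  have e : {r : X × ((ℕ → Bool) × (ℕ → Bool)) | (r.2.1 i, r.2.2 i) ∈ s} = ⋃ k : ℕ,
      (if ((Nat.unpair k).1.testBit i, (Nat.unpair k).2.testBit i) ∈ s
        then {r : X × ((ℕ → Bool) × (ℕ → Bool)) | r.2 ∈ box (i + 1) (Nat.unpair k).1 (Nat.unpair k).2} else ∅) := by
    ext r
    simp only [Set.mem_ofPred_eq, Set.mem_iUnion]
    constructor
    · intro h
      obtain ⟨a, ha⟩ := exists_testBit r.2.1 (i + 1)
      obtain ⟨b, hb⟩ := exists_testBit r.2.2 (i + 1)
      refine ⟨Nat.pair a b, ?_⟩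
      rw [Nat.unpair_pair]
      dsimp only
      rw [if_pos (by rw [← ha i (by omega), ← hb i (by omega)]; exact h)]
      exact fun j hj => ⟨ha j hj, hb j hj⟩
    · rintro ⟨k, hk⟩
      split at hk
      · rename_i h1
        have h2 := hk i (by omega)
        rw [h2.1, h2.2]
        exact h1
      · exact hk.elim
  rw [e]
  apply hasCode_iUnion
  intro k
  split
  · exact hasCode_box _ _ _
  · exact hasCode_empty

/-- the class of sets with coded sections, as a measurable space -/
@[instance_reducible] def mcode (X : Type) [MeasurableSpace X] : MeasurableSpace (X × ((ℕ → Bool) × (ℕ → Bool))) where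
  MeasurableSet' := HasCode
  measurableSet_empty := hasCode_empty
  measurableSet_compl := fun _ h => hasCode_compl h
  measurableSet_iUnion := fun _ h => hasCode_iUnion h

/-- Borel sets have codes for their sections, in a Borel way -/
theorem hasCode_of_measurable {E : Set (X × ((ℕ → Bool) × (ℕ → Bool)))} (hE : MeasurableSet E) : HasCode E := by
  have h : (inferInstance : MeasurableSpace (X × ((ℕ → Bool) × (ℕ → Bool)))) ≤ mcode X := by
    refine sup_le ?_ ?_
    · rintro _ ⟨A, hA, rfl⟩
      exact hasCode_fst hA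
    · rw [MeasurableSpace.comap_le_iff_le_map]
      refine sup_le ?_ ?_
      · rw [MeasurableSpace.comap_le_iff_le_map]
        refine iSup_le fun i => ?_
        rw [MeasurableSpace.comap_le_iff_le_map]
        intro s _
        exact hasCode_coord i (Prod.fst ⁻¹' s)
      · rw [MeasurableSpace.comap_le_iff_le_map]
        refine iSup_le fun i => ?_
        rw [MeasurableSpace.comap_le_iff_le_map]
        intro s _
        exact hasCode_coord i (Prod.snd ⁻¹' s)
  exact h _ hE

end

end Pool.Agent.Helper56.CI
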