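import Mathlib

/-! # Completion of a Borel graph of bounded degree to a regular one -/

set_option autoImplicit false

open MeasureTheory

namespace Pool.Agent.Helper56.CI

/-! ## Heights and acyclicity -/

/-- every vertex lies in an invariant set with a height function such that adjacent vertices have different heights and
every vertex has at most one lower neighbour -/
def Htd {V : Type} (A : V → V → Prop) : Prop :=
  ∀ v, ∃ S : Set V, v ∈ S ∧ (∀ u ∈ S, ∀ w, A u w → w ∈ S) ∧ ∃ h : V → ℕ,
    (∀ u ∈ S, ∀ w, A u w → h w ≠ h u) ∧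
    ∀ u ∈ S, ∀ w w', A u w → A u w' → h w < h u → h w' < h u → w = w'

theorem Htd.isAcyclic {V : Type} {G : SimpleGraph V} (hG : Htd G.Adj) : G.IsAcyclic := by
  classical
  intro v c hc
  obtain ⟨S, hv, hcl, h, h1, h2⟩ := hG v
  have hS : ∀ {u w : V} (p : G.Walk u w), u ∈ S → ∀ x ∈ p.support, x ∈ S := by
    intro u w p
    induction p with
    | nil =>
      intro hu x hx
      rw [SimpleGraph.Walk.support_nil, List.mem_singleton] at hx
      rw [hx]; exact hu
    | cons e p ih =>
      intro hu x hx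
      rw [SimpleGraph.Walk.support_cons, List.mem_cons] at hx
      rcases hx with rfl | hx
      · exact hu
      · exact ih (hcl _ hu _ e) x hx
  obtain ⟨u, hu, hmax⟩ := c.support.toFinset.exists_max_image h ⟨v, List.mem_toFinset.2 c.start_mem_support⟩
  rw [List.mem_toFinset] at hu
  have hc' : (c.rotate u hu).IsCycle := hc.rotate hu
  have a1 : G.Adj u (c.rotate u hu).snd := (c.rotate u hu).adj_snd hc'.not_nil
  have a2 : G.Adj (c.rotate u hu).penultimate u := (c.rotate u hu).adj_penultimate hc'.not_nil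
  have m1 : (c.rotate u hu).snd ∈ c.support :=
    (c.mem_support_rotate_iff u hu).1 ((c.rotate u hu).getVert_mem_support 1)
  have m2 : (c.rotate u hu).penultimate ∈ c.support :=
    (c.mem_support_rotate_iff u hu).1 ((c.rotate u hu).getVert_mem_support _)
  have huS : u ∈ S := hS c hv u hu
  have k1 := hmax _ (List.mem_toFinset.2 m1)
  have k2 := hmax _ (List.mem_toFinset.2 m2)
  have l1 := h1 u huS _ a1
  have l2 := h1 u huS _ a2.symm
  exact hc'.snd_ne_penultimate (h2 u huS _ _ a1 a2.symm (by omega) (by omega))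

/-! ## Cores -/

variable {Q : Type}

/-- the adjacency of a core -/
def CAdj (dg : Q → ℕ) (ν : ℕ → Q → Q) (K : Set Q) (p q : Q) : Prop := p ∈ K ∧ ∃ j < dg p, ν j p = q

/-- a graph with vertex set `K` in which `p` has exactly the neighbours `ν j p`, `j < dg p` -/
structure IsCore (n : ℕ) (dg : Q → ℕ) (ν : ℕ → Q → Q) (K : Set Q) : Prop where
  dg_le : ∀ p ∈ K, dg p ≤ n
  mem : ∀ p ∈ K, ∀ j < dg p, ν j p ∈ K
  inj : ∀ p ∈ K, ∀ i < dg p, ∀ j < dg p, ν i p = ν j p → i = j
  symm : ∀ p ∈ K, ∀ j < dg p, ∃ i < dg (ν j p), ν i (ν j p) = p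
  irr : ∀ p ∈ K, ∀ j < dg p, ν j p ≠ p
  htd : Htd (CAdj dg ν K)

theorem IsCore.adj_symm {n : ℕ} {dg : Q → ℕ} {ν : ℕ → Q → Q} {K : Set Q} (h : IsCore n dg ν K) {p q : Q}
    (hp : CAdj dg ν K p q) : CAdj dg ν K q p := by
  obtain ⟨h1, j, h2, rfl⟩ := hp
  exact ⟨h.mem p h1 j h2, h.symm p h1 j h2⟩

open Classical in
/-- the number of children -/
noncomputable def cnt (n : ℕ) (dg : Q → ℕ) (K : Set Q) (p : Q) : List ℕ → ℕ
  | [] => if p ∈ K then n - dg p else n
  | a :: w => if a < cnt n dg K p w then n - 1 else n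

/-- `v'` is a child of `v` -/
def ChR (n : ℕ) (dg : Q → ℕ) (K : Set Q) (v v' : Q × List ℕ) : Prop :=
  v'.1 = v.1 ∧ ∃ a < cnt n dg K v.1 v.2, v'.2 = a :: v.2

/-- adjacency of the completion -/
def KAdj (n : ℕ) (dg : Q → ℕ) (ν : ℕ → Q → Q) (K : Set Q) (v v' : Q × List ℕ) : Prop :=
  (v.2 = [] ∧ v'.2 = [] ∧ CAdj dg ν K v.1 v'.1) ∨ ChR n dg K v v' ∨ ChR n dg K v' v

section

variable {n : ℕ} {dg : Q → ℕ} {ν : ℕ → Q → Q} {K : Set Q}

theorem IsCore.kadj_symm (h : IsCore n dg ν K) {v w : Q × List ℕ} (hv : KAdj n dg ν K v w) :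
    KAdj n dg ν K w v := by
  rcases hv with ⟨h1, h2, h3⟩ | h1 | h1
  · exact Or.inl ⟨h2, h1, h.adj_symm h3⟩
  · exact Or.inr (Or.inr h1)
  · exact Or.inr (Or.inl h1)

theorem IsCore.kadj_irrefl (h : IsCore n dg ν K) (v : Q × List ℕ) : ¬ KAdj n dg ν K v v := by
  rintro (⟨_, _, h1, j, h2, h3⟩ | ⟨_, a, _, h2⟩ | ⟨_, a, _, h2⟩)
  · exact h.irr _ h1 j h2 h3
  · exact absurd (congrArg List.length h2) (by simp)
  · exact absurd (congrArg List.length h2) (by simp)

/-- the completion -/
def KG (h : IsCore n dg ν K) : SimpleGraph (Q × List ℕ) where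
  Adj := KAdj n dg ν K
  symm := ⟨fun _ _ hv => h.kadj_symm hv⟩
  loopless := ⟨h.kadj_irrefl⟩

theorem IsCore.htd_compl (h : IsCore n dg ν K) : Htd (KAdj n dg ν K) := by
  rintro ⟨p0, w0⟩
  obtain ⟨S, hp, hcl, ht, h1, h2⟩ := h.htd p0
  refine ⟨{v | v.1 ∈ S}, hp, ?_, fun v => ht v.1 + v.2.length, ?_, ?_⟩
  · rintro ⟨p, w⟩ hv ⟨q, w'⟩ (⟨_, _, h5⟩ | ⟨h4, _⟩ | ⟨h4, _⟩)
    · exact hcl _ hv _ h5
    · change q = p at h4
      subst h4; exact hv
    · change p = q at h4
      subst h4; exact hv
  · rintro ⟨p, w⟩ hv ⟨q, w'⟩ (⟨h3, h4, h5⟩ | ⟨h4, a, _, h5⟩ | ⟨h4, a, _, h5⟩)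
    · change w = [] at h3
      change w' = [] at h4
      subst h3; subst h4
      exact h1 _ hv _ h5
    · change q = p at h4
      change w' = a :: w at h5
      subst h4; subst h5
      show ht q + (a :: w).length ≠ ht q + w.length
      rw [List.length_cons]; omega
    · change p = q at h4
      change w = a :: w' at h5
      subst h4; subst h5
      show ht p + w'.length ≠ ht p + (a :: w').length
      rw [List.length_cons]; omega
  · rintro ⟨p, w⟩ hv ⟨q, w'⟩ ⟨q', w''⟩ h3 h4 h5 h6
    change ht q + w'.length < ht p + w.length at h5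
    change ht q' + w''.length < ht p + w.length at h6
    rcases h3 with ⟨a1, a2, a3⟩ | ⟨a1, a, _, a2⟩ | ⟨a1, a, _, a2⟩
    · change w = [] at a1
      change w' = [] at a2
      subst a1; subst a2
      rcases h4 with ⟨_, b2, b3⟩ | ⟨b1, b, _, b2⟩ | ⟨b1, b, _, b2⟩
      · change w'' = [] at b2
        subst b2
        rw [h2 p hv q q' a3 b3 (by simpa using h5) (by simpa using h6)]
      · change q' = p at b1
        change w'' = b :: [] at b2
        subst b1; subst b2
        simp only [List.length_cons, List.length_nil] at h6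
        omega
      · exact absurd b2 (by simp)
    · change q = p at a1
      change w' = a :: w at a2
      subst a1; subst a2
      rw [List.length_cons] at h5
      omega
    · change p = q at a1
      change w = a :: w' at a2
      subst a1; subst a2
      rcases h4 with ⟨b1, b2, b3⟩ | ⟨b1, b, _, b2⟩ | ⟨b1, b, _, b2⟩
      · exact absurd b1 (by simp)
      · change q' = p at b1
        change w'' = b :: a :: w' at b2
        subst b1; subst b2
        simp only [List.length_cons] at h6
        omega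
      · change p = q' at b1
        change a :: w' = b :: w'' at b2
        subst b1
        rw [(List.cons.inj b2).2]

theorem encard_lt (m : ℕ) : {a : ℕ | a < m}.encard = m := by
  have : {a : ℕ | a < m} = (Finset.range m : Set ℕ) := by
    ext a; simp
  rw [this, Set.encard_coe_eq_coe_finsetCard, Finset.card_range]

theorem IsCore.encard_nbrs (h : IsCore n dg ν K) (hn : 1 ≤ n) (v : Q × List ℕ) :
    {w | KAdj n dg ν K v w}.encard = n := by
  obtain ⟨p, w⟩ := v
  have hch : ({v | ChR n dg K (p, w) v} : Set (Q × List ℕ)).encard = cnt n dg K p w := by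
    have : ({v | ChR n dg K (p, w) v} : Set (Q × List ℕ)) =
        (fun a : ℕ => (p, a :: w)) '' {a : ℕ | a < cnt n dg K p w} := by
      ext ⟨q, w'⟩
      constructor
      · rintro ⟨h1, a, h2, h3⟩
        change q = p at h1
        change w' = a :: w at h3
        exact ⟨a, h2, by rw [h1, h3]⟩
      · rintro ⟨a, h2, h3⟩
        obtain ⟨h4, h5⟩ := Prod.mk.inj h3
        exact ⟨h4.symm, a, h2, h5.symm⟩
    rw [this, Function.Injective.encard_image, encard_lt]
    intro a b hab
    exact (List.cons.inj (Prod.mk.inj hab).2).1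
  cases w with
  | nil =>
    have e : ({w | KAdj n dg ν K (p, []) w} : Set (Q × List ℕ)) =
        {v | v.2 = [] ∧ CAdj dg ν K p v.1} ∪ {v | ChR n dg K (p, []) v} := by
      ext ⟨q, w'⟩
      constructor
      · rintro (⟨_, h1, h2⟩ | h1 | ⟨_, a, _, h1⟩)
        · exact Or.inl ⟨h1, h2⟩
        · exact Or.inr h1
        · exact absurd h1 (by simp)
      · rintro (⟨h1, h2⟩ | h1)
        · exact Or.inl ⟨rfl, h1, h2⟩
        · exact Or.inr (Or.inl h1)
    rw [e, Set.encard_union_eq, hch]
    · by_cases hp : p ∈ K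
      · have e2 : ({v | v.2 = [] ∧ CAdj dg ν K p v.1} : Set (Q × List ℕ)) =
            (fun j : ℕ => (ν j p, ([] : List ℕ))) '' {j : ℕ | j < dg p} := by
          ext ⟨q, w'⟩
          constructor
          · rintro ⟨h1, _, j, h2, h3⟩
            exact ⟨j, h2, Prod.ext h3 h1.symm⟩
          · rintro ⟨j, h2, h3⟩
            obtain ⟨h4, h5⟩ := Prod.mk.inj h3
            exact ⟨h5.symm, hp, j, h2, h4⟩
        rw [e2, Set.InjOn.encard_image, encard_lt]
        · have h5 := h.dg_le p hp
          unfold cnt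
          rw [if_pos hp]
          norm_cast
          omega
        · intro i hi j hj hij
          exact h.inj p hp i hi j hj (Prod.mk.inj hij).1
      · have e2 : ({v | v.2 = [] ∧ CAdj dg ν K p v.1} : Set (Q × List ℕ)) = ∅ := by
          ext v
          constructor
          · rintro ⟨_, h2, _⟩
            exact (hp h2).elim
          · exact fun h => h.elim
        rw [e2, Set.encard_empty, zero_add]
        unfold cnt
        rw [if_neg hp]
    · rw [Set.disjoint_left]
      rintro ⟨q, w'⟩ ⟨h1, _⟩ ⟨_, a, _, h2⟩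
      change w' = [] at h1
      change w' = a :: [] at h2
      rw [h1] at h2
      exact absurd h2 (by simp)
  | cons a0 w =>
    by_cases ha : a0 < cnt n dg K p w
    · have e : ({w' | KAdj n dg ν K (p, a0 :: w) w'} : Set (Q × List ℕ)) =
          {(p, w)} ∪ {v | ChR n dg K (p, a0 :: w) v} := by
        ext ⟨q, w'⟩
        constructor
        · rintro (⟨h1, _⟩ | h1 | ⟨h1, a, h2, h3⟩)
          · exact absurd h1 (by simp)
          · exact Or.inr h1
          · change p = q at h1
            change a0 :: w = a :: w' at h3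
            subst h1
            rw [(List.cons.inj h3).2]
            exact Or.inl rfl
        · rintro (h1 | h1)
          · obtain ⟨h2, h3⟩ := Prod.mk.inj h1
            subst h2; subst h3
            exact Or.inr (Or.inr ⟨rfl, a0, ha, rfl⟩)
          · exact Or.inr (Or.inl h1)
      rw [e, Set.encard_union_eq, hch, Set.encard_singleton]
      · have : cnt n dg K p (a0 :: w) = n - 1 := by
          rw [cnt, if_pos ha]
        rw [this]
        norm_cast
        omega
      · rw [Set.disjoint_left]
        rintro ⟨q, w'⟩ h1 ⟨_, a, _, h2⟩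
        obtain ⟨_, h3⟩ := Prod.mk.inj h1
        change w' = a :: a0 :: w at h2
        rw [h3] at h2
        exact absurd (congrArg List.length h2) (by simp only [List.length_cons]; omega)
    · have e : ({w' | KAdj n dg ν K (p, a0 :: w) w'} : Set (Q × List ℕ)) =
          {v | ChR n dg K (p, a0 :: w) v} := by
        ext ⟨q, w'⟩
        constructor
        · rintro (⟨h1, _⟩ | h1 | ⟨h1, a, h2, h3⟩)
          · exact absurd h1 (by simp)
          · exact h1
          · change p = q at h1
            change a0 :: w = a :: w' at h3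
            subst h1
            obtain ⟨h4, h5⟩ := List.cons.inj h3
            subst h4; subst h5
            exact (ha h2).elim
        · intro h1
          exact Or.inr (Or.inl h1)
      rw [e, hch]
      have : cnt n dg K p (a0 :: w) = n := by
        rw [cnt, if_neg ha]
      rw [this]

end

/-! ## Measurability -/

instance instMeasurableSpaceListNat : MeasurableSpace (List ℕ) := ⊤

instance instDiscreteListNat : DiscreteMeasurableSpace (List ℕ) := ⟨fun _ => trivial⟩

section

variable [MeasurableSpace Q] {X : Type} [MeasurableSpace X] {n : ℕ} {dg : Q → ℕ} {ν : ℕ → Q → Q} {K : X → Set Q}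

theorem measurable_cnt (hdg : Measurable dg) (hK : MeasurableSet {q : X × Q | q.2 ∈ K q.1}) :
    Measurable (fun q : (X × Q) × List ℕ => cnt n dg (K q.1.1) q.1.2 q.2) := by
  classical
  apply measurable_from_prod_countable_left
  intro w
  induction w with
  | nil =>
    have e : (fun q : X × Q => cnt n dg (K q.1) q.2 []) = fun q => if q.2 ∈ K q.1 then n - dg q.2 else n := by
      funext q
      rw [cnt]
    rw [e]
    exact Measurable.ite hK ((Measurable.of_discrete (f := fun m : ℕ => n - m)).comp (hdg.comp measurable_snd))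
      measurable_const
  | cons a w ih =>
    show Measurable fun q : X × Q => if a < cnt n dg (K q.1) q.2 w then n - 1 else n
    exact Measurable.ite (ih (measurableSet_Ioi (a := a))) measurable_const measurable_const

theorem measurableSet_KAdj [StandardBorelSpace Q] (hdg : Measurable dg) (hν : ∀ j, Measurable (ν j))
    (hK : MeasurableSet {q : X × Q | q.2 ∈ K q.1}) :
    MeasurableSet {r : X × ((Q × List ℕ) × (Q × List ℕ)) | KAdj n dg ν (K r.1) r.2.1 r.2.2} := by
  have hch : MeasurableSet {r : X × ((Q × List ℕ) × (Q × List ℕ)) | ChR n dg (K r.1) r.2.1 r.2.2} := by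
    have e : {r : X × ((Q × List ℕ) × (Q × List ℕ)) | ChR n dg (K r.1) r.2.1 r.2.2} =
        {r | r.2.2.1 = r.2.1.1} ∩ ⋃ a : ℕ, ({r | a < cnt n dg (K r.1) r.2.1.1 r.2.1.2} ∩
          {r | r.2.2.2 = a :: r.2.1.2}) := by
      ext r
      simp [ChR]
    rw [e]
    refine MeasurableSet.inter ?_ (MeasurableSet.iUnion fun a => MeasurableSet.inter ?_ ?_)
    · exact measurableSet_eq_fun (by fun_prop) (by fun_prop)
    · have hm : Measurable fun r : X × ((Q × List ℕ) × (Q × List ℕ)) => ((r.1, r.2.1.1), r.2.1.2) := by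
        fun_prop
      exact ((measurable_cnt (n := n) hdg hK).comp hm) (measurableSet_Ioi (a := a))
    · have hm : Measurable fun r : X × ((Q × List ℕ) × (Q × List ℕ)) => (r.2.2.2, r.2.1.2) := by
        fun_prop
      exact hm (MeasurableSet.of_discrete (s := {t : List ℕ × List ℕ | t.1 = a :: t.2}))
  have hch' : MeasurableSet {r : X × ((Q × List ℕ) × (Q × List ℕ)) | ChR n dg (K r.1) r.2.2 r.2.1} := by
    have hm : Measurable fun r : X × ((Q × List ℕ) × (Q × List ℕ)) => (r.1, (r.2.2, r.2.1)) := by
      fun_prop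
    exact hm hch
  have e : {r : X × ((Q × List ℕ) × (Q × List ℕ)) | KAdj n dg ν (K r.1) r.2.1 r.2.2} =
      (({r | r.2.1.2 = []} ∩ {r | r.2.2.2 = []}) ∩ ({r | r.2.1.1 ∈ K r.1} ∩
        ⋃ j : ℕ, ({r | j < dg r.2.1.1} ∩ {r | ν j r.2.1.1 = r.2.2.1}))) ∪
      ({r | ChR n dg (K r.1) r.2.1 r.2.2} ∪ {r | ChR n dg (K r.1) r.2.2 r.2.1}) := by
    ext r
    simp [KAdj, CAdj, and_assoc]
  rw [e]
  refine MeasurableSet.union (MeasurableSet.inter (MeasurableSet.inter ?_ ?_)
    (MeasurableSet.inter ?_ (MeasurableSet.iUnion fun j => MeasurableSet.inter ?_ ?_)))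
    (MeasurableSet.union hch hch')
  · have hm : Measurable fun r : X × ((Q × List ℕ) × (Q × List ℕ)) => r.2.1.2 := by fun_prop
    exact hm (MeasurableSet.of_discrete (s := {([] : List ℕ)}))
  · have hm : Measurable fun r : X × ((Q × List ℕ) × (Q × List ℕ)) => r.2.2.2 := by fun_prop
    exact hm (MeasurableSet.of_discrete (s := {([] : List ℕ)}))
  · have hm : Measurable fun r : X × ((Q × List ℕ) × (Q × List ℕ)) => (r.1, r.2.1.1) := by fun_prop
    exact hm hK
  · have hm : Measurable fun r : X × ((Q × List ℕ) × (Q × List ℕ)) => dg r.2.1.1 := by fun_prop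
    exact hm (measurableSet_Ioi (a := j))
  · have := hν j
    exact measurableSet_eq_fun (by fun_prop) (by fun_prop)

end

end Pool.Agent.Helper56.CI
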