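import Pool.Agent.Helper56.CI.Compl

/-! # Extending an edge colouring of the core to the completion -/

set_option autoImplicit false

open MeasureTheory

namespace Pool.Agent.Helper56.CI

/-- there is a Borel proper edge colouring with `k` colours -/
def HasCol {V : Type} [MeasurableSpace V] (A : V → V → Prop) (k : ℕ) : Prop :=
  ∃ c : V × V → ℕ, Measurable c ∧ ∀ u v, A u v → c (u, v) < k ∧ c (u, v) = c (v, u) ∧
    ∀ w, A u w → v ≠ w → c (u, v) ≠ c (u, w)

instance instMeasurableSpaceFinsetNat : MeasurableSpace (Finset ℕ) := ⊤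

instance instDiscreteFinsetNat : DiscreteMeasurableSpace (Finset ℕ) := ⟨fun _ => trivial⟩

/-- the `a`-th element of a finite set -/
def av (s : Finset ℕ) (a : ℕ) : ℕ := (s.sort (· ≤ ·)).getD a 0

theorem av_mem {s : Finset ℕ} {a : ℕ} (h : a < s.card) : av s a ∈ s := by
  unfold av
  have h' : a < (s.sort (· ≤ ·)).length := by rwa [Finset.length_sort]
  rw [List.getD_eq_getElem _ _ h']
  exact (Finset.mem_sort _).1 (List.getElem_mem h')

theorem av_inj {s : Finset ℕ} {a b : ℕ} (h : a < s.card) (h2 : b < s.card) (e : av s a = av s b) : a = b := by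
  unfold av at e
  have h' : a < (s.sort (· ≤ ·)).length := by rwa [Finset.length_sort]
  have h2' : b < (s.sort (· ≤ ·)).length := by rwa [Finset.length_sort]
  rw [List.getD_eq_getElem _ _ h', List.getD_eq_getElem _ _ h2'] at e
  exact (List.Nodup.getElem_inj_iff (Finset.sort_nodup _ _)).1 e

variable {Q : Type} {n k : ℕ} {dg : Q → ℕ} {ν : ℕ → Q → Q} {K : Set Q}

/-- the colours which are not used at a core vertex -/
def F0 (n k : ℕ) (d : ℕ) (v : Fin n → ℕ) : Finset ℕ :=
  Finset.range k \ ((Finset.univ.filter fun i : Fin n => i.val < d).image v)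

theorem F0_sub (n k d : ℕ) (v : Fin n → ℕ) : F0 n k d v ⊆ Finset.range k := Finset.sdiff_subset

theorem card_F0 (n k d : ℕ) (v : Fin n → ℕ) : k - d ≤ (F0 n k d v).card := by
  have h1 : ((Finset.univ.filter fun i : Fin n => i.val < d).image v).card ≤ d := by
    refine Finset.card_image_le.trans ?_
    have : ((Finset.univ.filter fun i : Fin n => i.val < d).image Fin.val) ⊆ Finset.range d := by
      intro x hx
      obtain ⟨i, hi, rfl⟩ := Finset.mem_image.1 hx
      exact Finset.mem_range.2 (Finset.mem_filter.1 hi).2
    have h2 := Finset.card_le_card this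
    rw [Finset.card_image_of_injective _ Fin.val_injective, Finset.card_range] at h2
    exact h2
  have h2 := Finset.le_card_sdiff ((Finset.univ.filter fun i : Fin n => i.val < d).image v) (Finset.range k)
  rw [Finset.card_range] at h2
  unfold F0
  omega


theorem measurable_F0 (n k : ℕ) {α : Type} [MeasurableSpace α] {f : α → ℕ × (Fin n → ℕ)} (hf : Measurable f) :
    Measurable fun x => F0 n k (f x).1 (f x).2 := by
  have h2 : Measurable fun t : ℕ × (Fin n → ℕ) => F0 n k t.1 t.2 := measurable_of_countable _
  exact h2.comp hf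

open Classical in
/-- the free colours -/
noncomputable def fr (n k : ℕ) (dg : Q → ℕ) (ν : ℕ → Q → Q) (K : Set Q) (c : Q × Q → ℕ) (p : Q) :
    List ℕ → Finset ℕ
  | [] => if p ∈ K then F0 n k (dg p) (fun i => c (p, ν i p)) else Finset.range k
  | a :: w => if a < cnt n dg K p w then (Finset.range k).erase (av (fr n k dg ν K c p w) a) else Finset.range k

theorem fr_sub (c : Q × Q → ℕ) (p : Q) (w : List ℕ) : fr n k dg ν K c p w ⊆ Finset.range k := by
  cases w with
  | nil =>
    rw [fr]
    split
    · exact F0_sub _ _ _ _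
    · exact Finset.Subset.refl _
  | cons a w =>
    rw [fr]
    split
    · exact Finset.erase_subset _ _
    · exact Finset.Subset.refl _

theorem card_fr (hcore : IsCore n dg ν K) (hnk : n ≤ k) (c : Q × Q → ℕ) (p : Q) (w : List ℕ) :
    cnt n dg K p w ≤ (fr n k dg ν K c p w).card := by
  cases w with
  | nil =>
    rw [fr, cnt]
    split
    · have := card_F0 n k (dg p) (fun i => c (p, ν i p))
      omega
    · rw [Finset.card_range]; exact hnk
  | cons a w =>
    rw [fr, cnt]
    split
    · have := Finset.pred_card_le_card_erase (a := av (fr n k dg ν K c p w) a) (s := Finset.range k)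
      rw [Finset.card_range] at this
      omega
    · rw [Finset.card_range]; exact hnk

/-- the extended colouring -/
noncomputable def ext (n k : ℕ) (dg : Q → ℕ) (ν : ℕ → Q → Q) (K : Set Q) (c : Q × Q → ℕ)
    (v : (Q × List ℕ) × (Q × List ℕ)) : ℕ :=
  if v.1.2 = [] ∧ v.2.2 = [] then c (v.1.1, v.2.1)
  else if v.2.2.length = v.1.2.length + 1 then av (fr n k dg ν K c v.1.1 v.1.2) v.2.2.headI
  else av (fr n k dg ν K c v.2.1 v.2.2) v.1.2.headI

theorem ext_core (c : Q × Q → ℕ) (p q : Q) : ext n k dg ν K c ((p, []), (q, [])) = c (p, q) := by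
  simp [ext]

theorem ext_child (c : Q × Q → ℕ) (p : Q) (a : ℕ) (w : List ℕ) :
    ext n k dg ν K c ((p, w), (p, a :: w)) = av (fr n k dg ν K c p w) a := by
  simp [ext]

theorem ext_parent (c : Q × Q → ℕ) (p : Q) (a : ℕ) (w : List ℕ) :
    ext n k dg ν K c ((p, a :: w), (p, w)) = av (fr n k dg ν K c p w) a := by
  have : ¬ w.length = w.length + 1 + 1 := by omega
  simp [ext, this]

theorem measurable_fr [MeasurableSpace Q] (hdg : Measurable dg) (hν : ∀ j, Measurable (ν j)) (hK : MeasurableSet K)
    {c : Q × Q → ℕ} (hc : Measurable c) (w : List ℕ) : Measurable fun p => fr n k dg ν K c p w := by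
  classical
  induction w with
  | nil =>
    have e : (fun p => fr n k dg ν K c p []) =
        fun p => if p ∈ K then F0 n k (dg p) (fun i => c (p, ν i p)) else Finset.range k := by
      funext p
      rw [fr]
    rw [e]
    have h1 : Measurable fun p => (dg p, fun i : Fin n => c (p, ν i p)) := by
      refine hdg.prodMk (measurable_pi_lambda _ fun i => ?_)
      exact hc.comp (measurable_id.prodMk (hν i))
    have h2 := measurable_F0 n k h1
    dsimp only at h2
    refine Measurable.ite hK h2 measurable_const
  | cons a w ih =>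
    have e : (fun p => fr n k dg ν K c p (a :: w)) = fun p => if a < cnt n dg K p w then
        (Finset.range k).erase (av (fr n k dg ν K c p w) a) else Finset.range k := by
      funext p
      rw [fr]
    rw [e]
    have h1 : Measurable fun p => cnt n dg K p w := by
      have hK' : MeasurableSet {q : Unit × Q | q.2 ∈ (fun _ : Unit => K) q.1} := measurable_snd hK
      have h2 := measurable_cnt (n := n) (X := Unit) (K := fun _ => K) hdg hK'
      have h3 : Measurable fun p : Q => (((), p), w) := by fun_prop
      exact h2.comp h3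
    refine Measurable.ite (h1 (measurableSet_Ioi (a := a))) ?_ measurable_const
    exact (Measurable.of_discrete (f := fun s : Finset ℕ => (Finset.range k).erase (av s a))).comp ih

theorem measurable_ext [MeasurableSpace Q] (hdg : Measurable dg) (hν : ∀ j, Measurable (ν j)) (hK : MeasurableSet K)
    {c : Q × Q → ℕ} (hc : Measurable c) : Measurable (ext n k dg ν K c) := by
  have h1 : Measurable fun t : (Q × Q) × (List ℕ × List ℕ) =>
      ext n k dg ν K c ((t.1.1, t.2.1), (t.1.2, t.2.2)) := by
    apply measurable_from_prod_countable_left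
    rintro ⟨w, w'⟩
    show Measurable fun x : Q × Q => ext n k dg ν K c ((x.1, w), (x.2, w'))
    by_cases h1 : w = [] ∧ w' = []
    · have e : (fun x : Q × Q => ext n k dg ν K c ((x.1, w), (x.2, w'))) = c := by
        funext x
        rw [ext, if_pos h1]
      rw [e]; exact hc
    · by_cases h2 : w'.length = w.length + 1
      · have e : (fun x : Q × Q => ext n k dg ν K c ((x.1, w), (x.2, w'))) =
            fun x => av (fr n k dg ν K c x.1 w) w'.headI := by
          funext x
          rw [ext, if_neg h1, if_pos h2]
        rw [e]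
        exact (Measurable.of_discrete (f := fun s : Finset ℕ => av s w'.headI)).comp
          ((measurable_fr hdg hν hK hc w).comp measurable_fst)
      · have e : (fun x : Q × Q => ext n k dg ν K c ((x.1, w), (x.2, w'))) =
            fun x => av (fr n k dg ν K c x.2 w') w.headI := by
          funext x
          rw [ext, if_neg h1, if_neg h2]
        rw [e]
        exact (Measurable.of_discrete (f := fun s : Finset ℕ => av s w.headI)).comp
          ((measurable_fr hdg hν hK hc w').comp measurable_snd)
  have h2 : Measurable fun v : (Q × List ℕ) × (Q × List ℕ) => ((v.1.1, v.2.1), (v.1.2, v.2.2)) := by fun_prop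
  exact h1.comp h2

/-- extension of colourings -/
theorem hasCol_compl [MeasurableSpace Q] (hcore : IsCore n dg ν K) (hdg : Measurable dg)
    (hν : ∀ j, Measurable (ν j)) (hK : MeasurableSet K) (hnk : n ≤ k) (h : HasCol (CAdj dg ν K) k) :
    HasCol (KAdj n dg ν K) k := by
  obtain ⟨c, hc, hcol⟩ := h
  refine ⟨ext n k dg ν K c, measurable_ext hdg hν hK hc, ?_⟩
  have key1 : ∀ (p : Q) (w : List ℕ) (a : ℕ), a < cnt n dg K p w →
      av (fr n k dg ν K c p w) a ∈ fr n k dg ν K c p w := fun p w a ha =>
    av_mem (lt_of_lt_of_le ha (card_fr hcore hnk c p w))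
  have key2 : ∀ (p : Q) (w : List ℕ) (a : ℕ), a < cnt n dg K p w → av (fr n k dg ν K c p w) a < k :=
    fun p w a ha => Finset.mem_range.1 (fr_sub c p w (key1 p w a ha))
  have key3 : ∀ (p q : Q), CAdj dg ν K p q → c (p, q) ∉ fr n k dg ν K c p [] := by
    rintro p q ⟨hp, j, hj, rfl⟩ hmem
    rw [fr, if_pos hp, F0, Finset.mem_sdiff] at hmem
    apply hmem.2
    have hjn : j < n := lt_of_lt_of_le hj (hcore.dg_le p hp)
    exact Finset.mem_image.2 ⟨⟨j, hjn⟩, Finset.mem_filter.2 ⟨Finset.mem_univ _, hj⟩, rfl⟩
  have key4 : ∀ (p : Q) (w : List ℕ) (a : ℕ), a < cnt n dg K p w →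
      av (fr n k dg ν K c p w) a ∉ fr n k dg ν K c p (a :: w) := by
    intro p w a ha hmem
    rw [fr, if_pos ha] at hmem
    exact Finset.notMem_erase _ _ hmem
  rintro ⟨p, w⟩ ⟨q, w'⟩ h1
  rcases h1 with ⟨a1, a2, a3⟩ | ⟨a1, a, a2, a3⟩ | ⟨a1, a, a2, a3⟩
  · change w = [] at a1
    change w' = [] at a2
    change CAdj dg ν K p q at a3
    subst a1; subst a2
    obtain ⟨c1, c2, c3⟩ := hcol p q a3
    rw [ext_core, ext_core]
    refine ⟨c1, c2, ?_⟩
    rintro ⟨q', w''⟩ (⟨b1, b2, b3⟩ | ⟨b1, b, b2, b3⟩ | ⟨b1, b, b2, b3⟩) hne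
    · change w'' = [] at b2
      subst b2
      rw [ext_core]
      exact c3 q' b3 fun e => hne (by rw [e])
    · change q' = p at b1
      change w'' = b :: [] at b3
      change b < cnt n dg K p [] at b2
      subst b1; subst b3
      rw [ext_child]
      intro e
      have := key1 q' [] b b2
      rw [← e] at this
      exact key3 q' q a3 this
    · exact absurd b3 (by simp)
  · change q = p at a1
    change w' = a :: w at a3
    change a < cnt n dg K p w at a2
    subst a1; subst a3
    rw [ext_child, ext_parent]
    refine ⟨key2 q w a a2, rfl, ?_⟩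
    rintro ⟨q', w''⟩ (⟨b1, b2, b3⟩ | ⟨b1, b, b2, b3⟩ | ⟨b1, b, b2, b3⟩) hne
    · change w = [] at b1
      change w'' = [] at b2
      change CAdj dg ν K q q' at b3
      subst b1; subst b2
      rw [ext_core]
      intro e
      have := key1 q [] a a2
      rw [e] at this
      exact key3 q q' b3 this
    · change q' = q at b1
      change w'' = b :: w at b3
      change b < cnt n dg K q w at b2
      subst b1; subst b3
      rw [ext_child]
      intro e
      apply hne
      have hc := card_fr hcore hnk c q' w
      rw [av_inj (by omega) (by omega) e]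
    · change q = q' at b1
      change w = b :: w'' at b3
      change b < cnt n dg K q' w'' at b2
      subst b1; subst b3
      rw [ext_parent]
      intro e
      have := key1 q (b :: w'') a a2
      rw [e] at this
      exact key4 q w'' b b2 this
  · change p = q at a1
    change w = a :: w' at a3
    change a < cnt n dg K q w' at a2
    subst a1; subst a3
    rw [ext_child, ext_parent]
    refine ⟨key2 p w' a a2, rfl, ?_⟩
    rintro ⟨q', w''⟩ (⟨b1, b2, b3⟩ | ⟨b1, b, b2, b3⟩ | ⟨b1, b, b2, b3⟩) hne
    · exact absurd b1 (by simp)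
    · change q' = p at b1
      change w'' = b :: a :: w' at b3
      change b < cnt n dg K p (a :: w') at b2
      subst b1; subst b3
      rw [ext_child]
      intro e
      have := key1 q' (a :: w') b b2
      rw [← e] at this
      exact key4 q' w' a a2 this
    · change p = q' at b1
      change a :: w' = b :: w'' at b3
      obtain ⟨e1, e2⟩ := List.cons.inj b3
      subst b1; subst e2
      exact (hne rfl).elim

theorem hasCol_core [MeasurableSpace Q] (h : HasCol (KAdj n dg ν K) k) : HasCol (CAdj dg ν K) k := by
  obtain ⟨c, hc, hcol⟩ := h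
  refine ⟨fun x => c ((x.1, []), (x.2, [])), ?_, ?_⟩
  · have : Measurable fun x : Q × Q => ((x.1, ([] : List ℕ)), (x.2, ([] : List ℕ))) := by fun_prop
    exact hc.comp this
  · intro u v huv
    obtain ⟨h1, h2, h3⟩ := hcol (u, []) (v, []) (Or.inl ⟨rfl, rfl, huv⟩)
    refine ⟨h1, h2, fun w hw hne => h3 (w, []) (Or.inl ⟨rfl, rfl, hw⟩) fun e => hne (Prod.mk.inj e).1⟩

end Pool.Agent.Helper56.CI
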