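import Pool.Agent.Helper56.CI.Coset
import Pool.Agent.Helper56.CI.Ext

/-! # The core graphs -/

set_option autoImplicit false

open MeasureTheory

namespace Pool.Agent.Helper56.CI

variable {n b : ℕ}

/-! ## The graph -/

/-- the points -/
abbrev VV (n b : ℕ) : Type := (ℕ → ℕ) × (Gam n b → Lab)

/-- the vertices -/
abbrev QQ (n b : ℕ) : Type := VV n b × ℕ

/-- the vertices of the core over `S` -/
def Kx (S : Set (VV n b)) : Set (QQ n b) :=
  {p | p.1 ∈ S ∧ (p.2 = 0 ∨ ∃ i : Fin n, p.2 = i.val + 1 ∧ p.1.2 ∈ D i)}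

/-- the degrees -/
def dgx (n b : ℕ) (p : QQ n b) : ℕ := if p.2 = 0 then n else b

/-- the neighbours -/
noncomputable def νx (n b : ℕ) (j : ℕ) (p : QQ n b) : QQ n b :=
  if p.2 = 0 then (if h : j < n then ((p.1.1, bs ⟨j, h⟩ p.1.2), j + 1) else p)
  else (if h : p.2 - 1 < n then ((p.1.1, act (pw ⟨p.2 - 1, h⟩ (j : ZMod b)) p.1.2), 0) else p)

theorem dgx_zero (v : VV n b) : dgx n b (v, 0) = n := rfl

theorem dgx_succ (v : VV n b) (i : ℕ) : dgx n b (v, i + 1) = b := rfl

theorem νx_zero (c : ℕ → ℕ) (y : Gam n b → Lab) (i : Fin n) : νx n b i ((c, y), 0) = ((c, bs i y), i.val + 1) := by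
  unfold νx
  simp

theorem νx_succ (c : ℕ → ℕ) (y : Gam n b → Lab) (i : Fin n) (j : ℕ) :
    νx n b j ((c, y), i.val + 1) = ((c, act (pw i (j : ZMod b)) y), 0) := by
  unfold νx
  simp

/-- the length of the shortest element of the coset -/
noncomputable def mn (i : Fin n) (d : Gam n b) : ℕ := by
  classical exact if d ∈ R i then len d - 1 else len d

theorem mn_of_notMem {i : Fin n} {d : Gam n b} (h : d ∉ R i) : mn i d = len d := by
  unfold mn
  rw [if_neg h]

theorem mn_of_mem {i : Fin n} {d : Gam n b} (h : d ∈ R i) : mn i d + 1 = len d := by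
  unfold mn
  rw [if_pos h]
  obtain ⟨l, g, hl, hg, rfl⟩ := exists_of_mem h
  rw [len_pw_mul i hl g hg]
  omega

theorem mn_pw (i : Fin n) (l : ZMod b) (d : Gam n b) : mn i (pw i l * d) = mn i d := by
  have key : ∀ (g : Gam n b), g ∉ R i → ∀ m : ZMod b, mn i (pw i m * g) = len g := by
    intro g hg m
    by_cases hm : m = 0
    · rw [hm, pw_zero, one_mul, mn_of_notMem hg]
    · have h1 := mn_of_mem (pw_mul_mem hm hg)
      rw [len_pw_mul i hm g hg] at h1
      omega
  obtain ⟨m, hm⟩ := exists_pw_mul_notMem i d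
  have e1 : d = pw i (-m) * (pw i m * d) := by rw [pw_neg, pw_inv_mul]
  have e2 : pw i l * d = pw i (l - m) * (pw i m * d) := by
    rw [← mul_assoc, ← pw_add, sub_add_cancel]
  rw [e2, key _ hm]
  conv_rhs => rw [e1, key _ hm]

open Classical in
/-- the group element -/
noncomputable def dd (y y' : Gam n b → Lab) : Gam n b := if h : ∃ d, y' = act d y then h.choose else 1

theorem dd_act {y : Gam n b → Lab} (hy : y ∈ XS n b) (d : Gam n b) : dd y (act d y) = d := by
  have h : ∃ e, act d y = act e y := ⟨d, rfl⟩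
  unfold dd
  rw [dif_pos h]
  exact xs_free hy h.choose_spec.symm

/-- the height -/
noncomputable def hgt (y : Gam n b → Lab) (p : QQ n b) : ℕ :=
  if p.2 = 0 then 2 * len (dd y p.1.2)
  else if h : p.2 - 1 < n then 2 * mn ⟨p.2 - 1, h⟩ (dd y p.1.2) + 1 else 0

theorem hgt_zero {y : Gam n b → Lab} (hy : y ∈ XS n b) (c : ℕ → ℕ) (d : Gam n b) :
    hgt y ((c, act d y), 0) = 2 * len d := by
  unfold hgt
  rw [if_pos rfl]
  show 2 * len (dd y (act d y)) = _
  rw [dd_act hy]

theorem hgt_succ {y : Gam n b → Lab} (hy : y ∈ XS n b) (c : ℕ → ℕ) (d : Gam n b) (i : Fin n) :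
    hgt y ((c, act d y), i.val + 1) = 2 * mn i d + 1 := by
  unfold hgt
  simp [dd_act hy]

theorem pw_inj (hb : 2 ≤ b) {i : Fin n} {l m : ZMod b} (h : (pw i l : Gam n b) = pw i m) : l = m := by
  by_contra hne
  apply pw_ne_one hb i (sub_ne_zero.2 hne)
  rw [sub_eq_add_neg, pw_add, pw_neg, h, mul_inv_cancel]

/-- the hypotheses on the set of points -/
structure IsS (S : Set (VV n b)) : Prop where
  xs : ∀ v ∈ S, v.2 ∈ XS n b
  inv : ∀ c y, (c, y) ∈ S → ∀ d, (c, act d y) ∈ S

theorem mem_Kx_zero {S : Set (VV n b)} {v : VV n b} : (v, 0) ∈ Kx S ↔ v ∈ S := by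
  unfold Kx
  simp

theorem mem_Kx_succ {S : Set (VV n b)} {v : VV n b} {i : Fin n} : (v, i.val + 1) ∈ Kx S ↔ v ∈ S ∧ v.2 ∈ D i := by
  unfold Kx
  simp only [Set.mem_ofPred_eq]
  constructor
  · rintro ⟨h1, h2 | ⟨j, h2, h3⟩⟩
    · omega
    · have : i = j := Fin.ext (by omega)
      rw [this]
      exact ⟨h1, h3⟩
  · rintro ⟨h1, h2⟩
    exact ⟨h1, Or.inr ⟨i, rfl, h2⟩⟩

theorem isS_bs {S : Set (VV n b)} (hS : IsS S) {c : ℕ → ℕ} {y : Gam n b → Lab} (h : (c, y) ∈ S) (i : Fin n) :
    (c, bs i y) ∈ S := hS.inv c y h _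

theorem isCore_Kx (hb : 2 ≤ b) (hbn : b ≤ n) {S : Set (VV n b)} (hS : IsS S) :
    IsCore n (dgx n b) (νx n b) (Kx S) where
  dg_le := by
    intro p _
    unfold dgx
    split <;> omega
  mem := by
    rintro ⟨⟨c, y⟩, o⟩ hp j hj
    obtain ⟨h1, h2⟩ := hp
    change (c, y) ∈ S at h1
    rcases h2 with h2 | ⟨i, h2, h3⟩
    · change o = 0 at h2
      subst h2
      rw [dgx_zero] at hj
      rw [show j = ((⟨j, hj⟩ : Fin n) : ℕ) from rfl, νx_zero, mem_Kx_succ]
      exact ⟨isS_bs hS h1 _, xs_bs_mem (by omega) (hS.xs _ h1) _⟩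
    · change o = i.val + 1 at h2
      subst h2
      rw [νx_succ, mem_Kx_zero]
      exact hS.inv _ _ h1 _
  inj := by
    rintro ⟨⟨c, y⟩, o⟩ hp j hj j' hj' e
    obtain ⟨h1, h2⟩ := hp
    change (c, y) ∈ S at h1
    rcases h2 with h2 | ⟨i, h2, h3⟩
    · change o = 0 at h2
      subst h2
      rw [dgx_zero] at hj hj'
      rw [show j = ((⟨j, hj⟩ : Fin n) : ℕ) from rfl, νx_zero,
        show j' = ((⟨j', hj'⟩ : Fin n) : ℕ) from rfl, νx_zero] at e
      have := (Prod.mk.inj e).2
      simpa using this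
    · change o = i.val + 1 at h2
      subst h2
      rw [dgx_succ] at hj hj'
      rw [νx_succ, νx_succ] at e
      have e2 := xs_free (hS.xs _ h1) (Prod.mk.inj (Prod.mk.inj e).1).2
      have e3 := pw_inj hb e2
      by_contra hne
      rcases lt_or_gt_of_ne hne with hlt | hlt
      · apply natCast_ne (b := b) (t := j' - j) (by omega) (by omega)
        rw [Nat.cast_sub hlt.le, e3, sub_self]
      · apply natCast_ne (b := b) (t := j - j') (by omega) (by omega)
        rw [Nat.cast_sub hlt.le, e3, sub_self]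
  symm := by
    rintro ⟨⟨c, y⟩, o⟩ hp j hj
    obtain ⟨h1, h2⟩ := hp
    change (c, y) ∈ S at h1
    rcases h2 with h2 | ⟨i, h2, h3⟩
    · change o = 0 at h2
      subst h2
      rw [dgx_zero] at hj
      rw [show j = ((⟨j, hj⟩ : Fin n) : ℕ) from rfl, νx_zero, dgx_succ]
      have : NeZero b := ⟨by omega⟩
      refine ⟨(-(bsm ⟨j, hj⟩ y : ZMod b)).val, ZMod.val_lt _, ?_⟩
      rw [νx_succ, ZMod.natCast_zmod_val]
      unfold bs
      rw [act_pw_act, neg_add_cancel, pw_zero, act_one]
    · change o = i.val + 1 at h2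
      subst h2
      rw [νx_succ, dgx_zero]
      refine ⟨i, i.2, ?_⟩
      rw [νx_zero, xs_bs_act (by omega) (hS.xs _ h1)]
      have h4 : act (pw i (0 : ZMod b)) y ∈ D i := by rw [pw_zero, act_one]; exact h3
      rw [xs_bs_unique (by omega) (hS.xs _ h1) h4, pw_zero, act_one]
  irr := by
    rintro ⟨⟨c, y⟩, o⟩ hp j hj e
    obtain ⟨h1, h2⟩ := hp
    rcases h2 with h2 | ⟨i, h2, h3⟩
    · change o = 0 at h2
      subst h2
      rw [dgx_zero] at hj
      rw [show j = ((⟨j, hj⟩ : Fin n) : ℕ) from rfl, νx_zero] at e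
      exact absurd (Prod.mk.inj e).2 (by omega)
    · change o = i.val + 1 at h2
      subst h2
      rw [νx_succ] at e
      exact absurd (Prod.mk.inj e).2 (by omega)
  htd := by
    rintro ⟨⟨c, y⟩, o⟩
    by_cases hp : (((c, y), o) : QQ n b) ∈ Kx S
    · have hy : y ∈ XS n b := hS.xs _ hp.1
      have step : ∀ u : QQ n b, u.1.1 = c → (∃ d, u.1.2 = act d y) → ∀ w, CAdj (dgx n b) (νx n b) (Kx S) u w →
          (∃ (d : Gam n b) (i : Fin n), u = ((c, act d y), 0) ∧ w = νx n b i u ∧
            w = ((c, bs i (act d y)), i.val + 1)) ∨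
          ∃ (d : Gam n b) (i : Fin n) (j : ℕ), u = ((c, act d y), i.val + 1) ∧ j < b ∧ w = νx n b j u ∧
            w = ((c, act (pw i (j : ZMod b) * d) y), 0) := by
        rintro ⟨⟨c', y'⟩, o'⟩ hc ⟨d, hd⟩ w ⟨hu, j, hj, hw⟩
        change c' = c at hc
        change y' = act d y at hd
        subst hc; subst hd
        obtain ⟨h1, h2⟩ := hu
        rcases h2 with h2 | ⟨i, h2, h3⟩
        · change o' = 0 at h2
          subst h2
          rw [dgx_zero] at hj
          left
          refine ⟨d, ⟨j, hj⟩, rfl, hw.symm, ?_⟩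
          rw [← hw]
          exact νx_zero c' (act d y) ⟨j, hj⟩
        · change o' = i.val + 1 at h2
          subst h2
          rw [dgx_succ] at hj
          right
          refine ⟨d, i, j, rfl, hj, hw.symm, ?_⟩
          rw [← hw, νx_succ, act_act]
      have hgt_bs : ∀ (d : Gam n b) (i : Fin n), hgt y ((c, bs i (act d y)), i.val + 1) = 2 * mn i d + 1 := by
        intro d i
        unfold bs
        rw [act_act, hgt_succ hy, mn_pw]
      refine ⟨{u | u.1.1 = c ∧ ∃ d, u.1.2 = act d y}, ⟨rfl, 1, (act_one y).symm⟩, ?_, hgt y, ?_, ?_⟩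
      · rintro u ⟨hu1, hu2⟩ w hw
        rcases step u hu1 hu2 w hw with ⟨d, i, h1, _, h2⟩ | ⟨d, i, j, h1, _, _, h2⟩
        · rw [h2]
          refine ⟨rfl, pw i (bsm i (act d y) : ZMod b) * d, ?_⟩
          show bs i (act d y) = _
          unfold bs
          rw [act_act]
        · rw [h2]
          exact ⟨rfl, _, rfl⟩
      · rintro u ⟨hu1, hu2⟩ w hw
        rcases step u hu1 hu2 w hw with ⟨d, i, h1, _, h2⟩ | ⟨d, i, j, h1, _, _, h2⟩
        · rw [h2, h1, hgt_bs, hgt_zero hy]
          omega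
        · rw [h2, h1, hgt_succ hy, hgt_zero hy]
          omega
      · rintro u ⟨hu1, hu2⟩ w w' hw hw' hl hl'
        rcases step u hu1 hu2 w hw with ⟨d, i, h1, h3, h2⟩ | ⟨d, i, j, h1, h3, h4, h2⟩ <;>
        rcases step u hu1 hu2 w' hw' with ⟨d', i', h1', h3', h2'⟩ | ⟨d', i', j', h1', h3', h4', h2'⟩
        · have hd : d' = d := by
            rw [h1'] at h1
            exact xs_free hy (Prod.mk.inj (Prod.mk.inj h1).1).2
          subst hd
          rw [h2, h1, hgt_bs, hgt_zero hy] at hl
          rw [h2', h1, hgt_bs, hgt_zero hy] at hl'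
          have k1 : d' ∈ R i := by
            by_contra hc
            rw [mn_of_notMem hc] at hl
            omega
          have k2 : d' ∈ R i' := by
            by_contra hc
            rw [mn_of_notMem hc] at hl'
            omega
          have k3 : i = i' := by
            by_contra hne
            exact R_disj hne k1 k2
          rw [h3, h3', k3]
        · rw [h1] at h1'
          exact absurd (Prod.mk.inj h1').2 (by omega)
        · rw [h1] at h1'
          exact absurd (Prod.mk.inj h1').2 (by omega)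
        · rw [h1'] at h1
          have hd : d' = d := xs_free hy (Prod.mk.inj (Prod.mk.inj h1).1).2
          have hi : i' = i := Fin.ext (by
            have := (Prod.mk.inj h1).2
            omega)
          subst hd; subst hi
          rw [h2, h1', hgt_zero hy, hgt_succ hy] at hl
          rw [h2', h1', hgt_zero hy, hgt_succ hy] at hl'
          have k1 : pw i' (j : ZMod b) * d' ∉ R i' := by
            intro hc
            have := mn_of_mem hc
            rw [mn_pw] at this
            omega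
          have k2 : pw i' (j' : ZMod b) * d' ∉ R i' := by
            intro hc
            have := mn_of_mem hc
            rw [mn_pw] at this
            omega
          have k3 := pw_mul_notMem_unique k1 k2
          rw [h2, h2', k3]
    · refine ⟨{((c, y), o)}, rfl, ?_, fun _ => 0, ?_, ?_⟩
      · rintro u rfl w hw
        exact (hp hw.1).elim
      · rintro u rfl w hw
        exact (hp hw.1).elim
      · rintro u rfl w w' hw
        exact (hp hw.1).elim

end Pool.Agent.Helper56.CI
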