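import Pool.Agent.Helper56.CI.Defs

/-! # Basic facts about the group -/

set_option autoImplicit false

namespace Pool.Agent.Helper56.CI

open Monoid Monoid.CoprodI

variable {n b : ℕ}

theorem pw_add (i : Fin n) (l m : ZMod b) : pw i (l + m) = pw i l * pw i m := by
  unfold pw
  rw [← map_mul, ← ofAdd_add]

theorem pw_zero (i : Fin n) : pw i (0 : ZMod b) = 1 := by
  unfold pw
  rw [ofAdd_zero, map_one]

theorem pw_neg (i : Fin n) (l : ZMod b) : pw i (-l) = (pw i l)⁻¹ := by
  rw [eq_inv_iff_mul_eq_one, ← pw_add, neg_add_cancel, pw_zero]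

theorem pw_inv_mul (i : Fin n) (l : ZMod b) (g : Gam n b) : (pw i l)⁻¹ * (pw i l * g) = g := by
  rw [← mul_assoc, inv_mul_cancel, one_mul]

theorem wd_one : wd (1 : Gam n b) = Word.empty := by
  unfold wd
  show (1 : Gam n b) • (Word.empty : Word (fun _ : Fin n => Multiplicative (ZMod b))) = _
  rw [one_smul]

theorem wd_mul (g h : Gam n b) : wd (g * h) = g • wd h := by
  unfold wd
  show (g * h) • (Word.empty : Word (fun _ : Fin n => Multiplicative (ZMod b))) = g • (h • Word.empty)
  rw [mul_smul]

theorem prod_wd (g : Gam n b) : (wd g).prod = g := Word.equiv.symm_apply_apply g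

theorem wd_inj {g h : Gam n b} (e : wd g = wd h) : g = h := Word.equiv.injective e

theorem one_notMem (i : Fin n) : (1 : Gam n b) ∉ R i := by
  unfold R
  rw [Set.mem_ofPred_eq, wd_one]
  simp [Word.fstIdx, Word.empty]

theorem ofAdd_ne_one {l : ZMod b} (hl : l ≠ 0) : Multiplicative.ofAdd l ≠ 1 := by
  intro h
  exact hl (by simpa using h)

theorem wd_pw_mul (i : Fin n) {l : ZMod b} (hl : l ≠ 0) (g : Gam n b) (h : (wd g).fstIdx ≠ some i) :
    wd (pw i l * g) = Word.cons (M := fun _ : Fin n => Multiplicative (ZMod b)) (i := i)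
      (Multiplicative.ofAdd l) (wd g) h (ofAdd_ne_one hl) := by
  rw [wd_mul, Word.cons_eq_smul]
  rfl

theorem pw_mul_mem {i : Fin n} {l : ZMod b} (hl : l ≠ 0) {g : Gam n b} (h : g ∉ R i) : pw i l * g ∈ R i := by
  have h' : (wd g).fstIdx ≠ some i := h
  unfold R
  rw [Set.mem_ofPred_eq, wd_pw_mul i hl g h', Word.fstIdx_cons]

theorem len_pw_mul (i : Fin n) {l : ZMod b} (hl : l ≠ 0) (g : Gam n b) (h : g ∉ R i) :
    len (pw i l * g) = len g + 1 := by
  have h' : (wd g).fstIdx ≠ some i := h
  unfold len
  rw [wd_pw_mul i hl g h']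
  rfl

theorem exists_of_mem {i : Fin n} {g : Gam n b} (h : g ∈ R i) :
    ∃ (l : ZMod b) (g' : Gam n b), l ≠ 0 ∧ g' ∉ R i ∧ g = pw i l * g' := by
  have key : ∀ w : Word (fun _ : Fin n => Multiplicative (ZMod b)), w.fstIdx = some i →
      ∃ (l : ZMod b) (g' : Gam n b), l ≠ 0 ∧ g' ∉ R i ∧ w.prod = pw i l * g' := by
    intro w
    induction w using Word.consRecOn with
    | empty => intro h; simp [Word.fstIdx, Word.empty] at h
    | cons j m w h1 h2 _ =>
      intro h
      rw [Word.fstIdx_cons] at h
      obtain rfl := Option.some.inj h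
      refine ⟨Multiplicative.toAdd m, w.prod, ?_, ?_, ?_⟩
      · intro h0
        apply h2
        rw [← ofAdd_toAdd m, h0, ofAdd_zero]
      · unfold R
        rw [Set.mem_ofPred_eq]
        have : wd w.prod = w := Word.equiv.apply_symm_apply w
        rw [this]
        exact h1
      · rw [Word.prod_cons]
        unfold pw
        rw [ofAdd_toAdd]
  obtain ⟨l, g', h0, h1, h2⟩ := key (wd g) h
  exact ⟨l, g', h0, h1, by rw [← h2, prod_wd]⟩

theorem R_disj {i j : Fin n} {g : Gam n b} (h : i ≠ j) (h1 : g ∈ R i) : g ∉ R j := by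
  intro h2
  have e : some i = some j := h1.symm.trans h2
  exact h (Option.some.inj e)

theorem cover (g : Gam n b) : g = 1 ∨ ∃ i, g ∈ R i := by
  rcases h : (wd g).fstIdx with _ | i
  · left
    apply wd_inj
    rw [wd_one]
    ext1
    simp only [Word.fstIdx, Option.map_eq_none_iff, List.head?_eq_none_iff] at h
    rw [h]
    rfl
  · right
    exact ⟨i, h⟩

theorem len_one : len (1 : Gam n b) = 0 := by
  unfold len
  rw [wd_one]
  rfl

/-- if `g ∈ R i` then there is exactly one `l` with `pw i l * g ∉ R i` -/
theorem pw_mul_notMem_unique {i : Fin n} {g : Gam n b} {l m : ZMod b} (h1 : pw i l * g ∉ R i)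
    (h2 : pw i m * g ∉ R i) : l = m := by
  by_contra h
  apply h2
  have : pw i m * g = pw i (m - l) * (pw i l * g) := by
    rw [← mul_assoc, ← pw_add, sub_add_cancel]
  rw [this]
  exact pw_mul_mem (sub_ne_zero.2 (Ne.symm h)) h1

theorem exists_pw_mul_notMem (i : Fin n) (g : Gam n b) : ∃ l : ZMod b, pw i l * g ∉ R i := by
  by_cases h : g ∈ R i
  · obtain ⟨l, g', _, h1, rfl⟩ := exists_of_mem h
    exact ⟨-l, by rw [pw_neg, pw_inv_mul]; exact h1⟩
  · exact ⟨0, by rw [pw_zero, one_mul]; exact h⟩

/-- induction on the length -/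
theorem gam_induction {p : Gam n b → Prop} (h1 : p 1)
    (h2 : ∀ i l g, l ≠ 0 → g ∉ R i → p g → p (pw i l * g)) (g : Gam n b) : p g := by
  have key : ∀ k g, len g = k → p g := by
    intro k
    induction k with
    | zero =>
      intro g hg
      rcases cover g with rfl | ⟨i, hi⟩
      · exact h1
      · obtain ⟨l, g', h0, h3, rfl⟩ := exists_of_mem hi
        rw [len_pw_mul i h0 g' h3] at hg
        omega
    | succ k ih =>
      intro g hg
      rcases cover g with rfl | ⟨i, hi⟩
      · exact h1
      · obtain ⟨l, g', h0, h3, rfl⟩ := exists_of_mem hi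
        rw [len_pw_mul i h0 g' h3] at hg
        exact h2 i l g' h0 h3 (ih _ (by omega))
  exact key _ g rfl

theorem pw_notMem {i i' : Fin n} (h : i' ≠ i) (m : ZMod b) : pw i' m ∉ R i := by
  by_cases hm : m = 0
  · rw [hm, pw_zero]; exact one_notMem i
  · have := pw_mul_mem (i := i') hm (one_notMem (b := b) i')
    rw [mul_one] at this
    exact R_disj h this

theorem mul_pw_notMem {i : Fin n} (i' : Fin n) (m : ZMod b) {g : Gam n b} (h : g ∉ R i) (h1 : g ≠ 1) :
    g * pw i' m ∉ R i := by
  have key : ∀ g : Gam n b, g ≠ 1 → ∀ i, g ∉ R i → g * pw i' m ∉ R i := by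
    intro g
    induction g using gam_induction with
    | h1 => intro h; exact (h rfl).elim
    | h2 j l g hl hg ih =>
      intro _ i hi
      have hji : j ≠ i := by
        rintro rfl
        exact hi (pw_mul_mem hl hg)
      by_cases hg1 : g = 1
      · subst hg1
        rw [mul_one]
        by_cases hij : i' = j
        · subst hij
          rw [← pw_add]
          exact pw_notMem hji _
        · have h3 : pw i' m ∉ R j := pw_notMem hij m
          exact R_disj hji (pw_mul_mem hl h3)
      · have h3 := ih hg1 j hg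
        rw [mul_assoc]
        exact R_disj hji (pw_mul_mem hl h3)
  exact key g h1 i h

instance gam_countable : Countable (Gam n b) := by
  have : Countable (ZMod b) := by
    cases b with
    | zero => exact inferInstanceAs (Countable ℤ)
    | succ b => exact inferInstanceAs (Countable (Fin (b + 1)))
  have h2 : Countable (Multiplicative (ZMod b)) := Multiplicative.toAdd.injective.countable
  have h : Function.Injective (fun g : Gam n b => (wd g).toList) := by
    intro g h e
    exact wd_inj (Word.ext e)
  exact h.countable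

theorem act_act {α : Type} (d e : Gam n b) (y : Gam n b → α) : act d (act e y) = act (d * e) y := by
  funext g
  unfold act
  rw [mul_inv_rev, mul_assoc]

theorem act_one {α : Type} (y : Gam n b → α) : act 1 y = y := by
  funext g
  unfold act
  rw [inv_one, one_mul]

end Pool.Agent.Helper56.CI
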