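import Pool.Agent.Helper56.CI.Play

/-! # The relations `Wi` and `Ni` -/

set_option autoImplicit false

namespace Pool.Agent.Helper56.CI

open Pool.Agent.Helper701.Marks (W2 QB hist det2)

variable {n b : ℕ}

theorem pw_ne_one (hb : 2 ≤ b) (i : Fin n) {l : ZMod b} (hl : l ≠ 0) : (pw i l : Gam n b) ≠ 1 := by
  intro h
  have := pw_mul_mem (i := i) hl (one_notMem i)
  rw [mul_one, h] at this
  exact one_notMem i this

theorem zmod_one_ne (hb : 2 ≤ b) : (1 : ZMod b) ≠ 0 := by
  have : Fact (1 < b) := ⟨hb⟩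
  exact one_ne_zero

/-- the state with one vertex -/
def mkOne (hb : 2 ≤ b) (m : ℕ) (a u : ℕ → Bool) (X : Set ℕ) (hX : X.Infinite) : St n b where
  m := m
  F := {1}
  a := fun _ => a
  u := fun _ => u
  X := X
  inj := by
    intro g hg h hh _
    rw [Set.mem_singleton_iff.1 hg, Set.mem_singleton_iff.1 hh]
  val := by
    intro g i h
    exfalso
    have h0 := h 0
    have h1 := h 1
    rw [Set.mem_singleton_iff] at h0 h1
    rw [pw_zero, mul_one] at h0
    rw [h0, one_mul] at h1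
    exact pw_ne_one hb i (zmod_one_ne hb) h1
  inf := hX

/-- `Wi P i m a X` -/
def Wi (P : Fin n → Set (Gam n b → Lab)) (i : Fin n) (m : ℕ) (a : ℕ → Bool) (X : Set ℕ) : Prop :=
  ∀ s : St n b, s.m = m → s.F = {1} → (∀ k < m, s.a 1 k = a k) → s.X = X →
    Win2 (R i) (R i)ᶜ s (Pay P i)

/-- `Ni P i m a X` -/
def Ni (P : Fin n → Set (Gam n b → Lab)) (i : Fin n) (m : ℕ) (a : ℕ → Bool) (X : Set ℕ) : Prop :=
  ∃ s : St n b, s.m = m ∧ 1 ∈ s.F ∧ s.F ⊆ (R i)ᶜ ∧ (∀ k < m, s.a 1 k = a k) ∧ s.X = X ∧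
    Win2 (R i)ᶜ (R i) s (Pay P i)ᶜ

/-- extension of conditions -/
structure CE (m : ℕ) (a : ℕ → Bool) (X : Set ℕ) (m' : ℕ) (a' : ℕ → Bool) (X' : Set ℕ) : Prop where
  le : m ≤ m'
  a : ∀ k < m, a' k = a k
  c : ∀ k, m ≤ k → k < m' → a' k = true → k ∈ X
  X : ∀ k ∈ X', m' ≤ k → k ∈ X
  inf : X'.Infinite

variable {P : Fin n → Set (Gam n b → Lab)}

/-- if the player owning `R i` does not win from `s`, then there is a move of the opponent after which the opponent wins -/
theorem exists_move {i : Fin n} (hP : MeasurableSet (P i)) {s : St n b}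
    (h : ¬ Win2 (R i) (R i)ᶜ s (Pay P i)) : ∃ t, Ext (R i)ᶜ s t ∧ Win2 (R i)ᶜ (R i) t (Pay P i)ᶜ := by
  rcases det2 (Ext (R i)) (Ext (R i)ᶜ) (exists_ext _) (exists_ext _) s _ (qb_pay P i hP) with h1 | ⟨t, ht, h1⟩
  · exact (h h1).elim
  · refine ⟨t, ht, W2_mono h1 fun x hx h0 hx' => ?_⟩
    have h2 : lim (Pool.Agent.Helper701.Marks.pre s x) ∉ Pay P i := hx'
    rw [lim_pre hx (by rw [h0]; exact ht.mono (Set.subset_univ _))] at h2
    exact h2

theorem W_det {i : Fin n} (hP : MeasurableSet (P i)) {m : ℕ} {a : ℕ → Bool} {X : Set ℕ}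
    (h : ¬ Wi P i m a X) :
    ∃ (m' : ℕ) (a' : ℕ → Bool) (X' : Set ℕ), CE m a X m' a' X' ∧ Ni P i m' a' X' := by
  unfold Wi at h
  push Not at h
  obtain ⟨s, hm, hF, ha, hX, hw⟩ := h
  obtain ⟨t, ht, h1⟩ := exists_move hP hw
  have h1F : (1 : Gam n b) ∈ s.F := by rw [hF]; rfl
  refine ⟨t.m, t.a 1, t.X, ⟨?_, ?_, ?_, ?_, t.inf⟩, t, rfl, ht.1.sub h1F, ?_, fun _ _ => rfl, rfl, h1⟩
  · rw [← hm]; exact ht.1.le
  · intro k hk
    rw [ht.1.a 1 h1F k (by rw [hm]; exact hk), ha k hk]
  · intro k h2 h3 h4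
    obtain ⟨c, hc1, hc2⟩ := ht.1.c
    rw [← hX]
    rw [← hm] at h2
    rw [hc2 1 h1F k h2 h3] at h4
    exact hc1 k h2 h3 h4
  · intro k h2 h3
    rw [← hX]
    exact ht.1.X k h2 h3
  · intro g hg
    rcases ht.1.sup hg with h2 | h2
    · rw [hF] at h2
      rw [Set.mem_singleton_iff.1 h2]
      exact one_notMem i
    · exact h2

theorem Wi_pers (hb : 2 ≤ b) {i : Fin n} {m m' : ℕ} {a a' : ℕ → Bool} {X X' : Set ℕ} (hX : X.Infinite)
    (h : Wi P i m a X) (e : CE m a X m' a' X') : Wi P i m' a' X' := by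
  intro s hsm hF ha hsX
  have h2 : Win2 (R i) (R i)ᶜ (mkOne hb m (s.a 1) (s.u 1) X hX : St n b) (Pay P i) :=
    h _ rfl rfl (fun k hk => by
      show s.a 1 k = a k
      rw [ha k (lt_of_lt_of_le hk e.le), e.a k hk]) rfl
  apply h2.pers
  constructor
  · show m ≤ s.m; rw [hsm]; exact e.le
  · rw [hF]; exact subset_rfl
  · rw [hF]; exact Set.subset_union_left
  · intro g hg k _
    rw [Set.mem_singleton_iff.1 hg]; rfl
  · intro g hg k _
    rw [Set.mem_singleton_iff.1 hg]; rfl
  · refine ⟨s.a 1, ?_, fun g hg k _ _ => by rw [Set.mem_singleton_iff.1 hg]⟩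
    intro k h3 h4 h5
    rw [hsm] at h4
    rw [ha k h4] at h5
    exact e.c k h3 h4 h5
  · intro k h3 h4
    rw [hsX] at h3
    rw [hsm] at h4
    exact e.X k h3 h4

theorem Ni_pers {i : Fin n} {m m' : ℕ} {a a' : ℕ → Bool} {X X' : Set ℕ}
    (h : Ni P i m a X) (e : CE m a X m' a' X') : Ni P i m' a' X' := by
  obtain ⟨s, hsm, h1, hF, ha, hsX, hw⟩ := h
  obtain ⟨t, ht, t1, t2, t3, t4, t5⟩ := exists_ext0 s m' (by rw [hsm]; exact e.le) a'
    (by rw [hsm, hsX]; exact e.c) X' e.inf (by rw [hsX]; exact e.X)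
  refine ⟨t, t1, by rw [t2]; exact h1, by rw [t2]; exact hF, ?_, t3, hw.pers (ht.mono (Set.empty_subset _))⟩
  intro k hk
  by_cases hk' : k < s.m
  · rw [t4 1 k hk']
    rw [hsm] at hk'
    rw [ha k hk', e.a k hk']
  · rw [t5 1 k (not_lt.1 hk')]

/-- no player loses when both win -/
theorem no_both {i : Fin n} {t : St n b} (h1 : Win2 (R i) (R i)ᶜ t (Pay P i))
    (h2 : Win2 (R i)ᶜ (R i) t (Pay P i)ᶜ) : False := by
  obtain ⟨x, _, _, hx⟩ := clash 2 le_rfl ![R i, (R i)ᶜ] ![(R i)ᶜ, R i] t ![Pay P i, (Pay P i)ᶜ]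
    (by
      intro j
      fin_cases j
      · exact h1
      · exact h2) (by
      intro j l hjl
      fin_cases j <;> fin_cases l
      · exact (hjl rfl).elim
      · exact subset_rfl
      · exact subset_rfl
      · exact (hjl rfl).elim)
  exact hx 1 (hx 0)

/-- `W` is determined by the one point extensions -/
theorem Wi_unite (hb : 2 ≤ b) {i : Fin n} (hP : MeasurableSet (P i)) {m : ℕ} {a : ℕ → Bool} {X : Set ℕ}
    (h : ∀ q ∈ X, m ≤ q → Wi P i (q + 1) (fun k => if k < m then a k else decide (k = q)) {k | k ∈ X ∧ q < k}) :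
    Wi P i m a X := by
  intro s hsm hF ha hsX
  by_contra hw
  obtain ⟨t, ht, h1⟩ := exists_move hP hw
  have h1F : (1 : Gam n b) ∈ s.F := by rw [hF]; rfl
  obtain ⟨c, hc1, hc2⟩ := ht.1.c
  have hex : ∃ k, s.m ≤ k ∧ k < t.m ∧ t.a 1 k = true := by
    obtain ⟨k, h2, h3, h4⟩ := ht.2
    exact ⟨k, h2, h3, h4 1 h1F⟩
  classical
  obtain ⟨q1, q2, q3⟩ := Nat.find_spec hex
  have qmin : ∀ k, k < Nat.find hex → ¬ (s.m ≤ k ∧ k < t.m ∧ t.a 1 k = true) := fun k hk => Nat.find_min hex hk
  generalize Nat.find hex = q at q1 q2 q3 qmin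
  have hqX : q ∈ X := by
    rw [← hsX]
    apply hc1 q q1 q2
    rw [← hc2 1 h1F q q1 q2, q3]
  have hmq : m ≤ q := by rw [← hsm]; exact q1
  have hinf : ({k | k ∈ X ∧ q < k} : Set ℕ).Infinite := by
    have hXi : X.Infinite := by rw [← hsX]; exact s.inf
    intro hfin
    apply hXi
    apply (hfin.union (Set.finite_le_nat q)).subset
    intro k hk
    by_cases hkq : q < k
    · exact Or.inl ⟨hk, hkq⟩
    · exact Or.inr (not_lt.1 hkq)
  have h2 : Win2 (R i) (R i)ᶜ (mkOne hb (q + 1) (t.a 1) (t.u 1) {k | k ∈ X ∧ q < k} hinf : St n b) (Pay P i) := by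
    apply h q hqX hmq _ rfl rfl _ rfl
    intro k hk
    show t.a 1 k = if k < m then a k else decide (k = q)
    by_cases hkm : k < m
    · rw [if_pos hkm, ht.1.a 1 h1F k (by rw [hsm]; exact hkm), ha k hkm]
    · rw [if_neg hkm]
      by_cases hkq : k = q
      · rw [hkq, q3]; simp
      · have h5 : k < q := by omega
        have h6 := qmin k h5
        have h7 : t.a 1 k ≠ true := fun h8 => h6 ⟨by omega, by omega, h8⟩
        simp [hkq, h7]
  have h3 : Win2 (R i) (R i)ᶜ t (Pay P i) := by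
    apply h2.pers
    constructor
    · show q + 1 ≤ t.m; omega
    · intro g hg
      rw [Set.mem_singleton_iff.1 hg]
      exact ht.1.sub h1F
    · intro g hg
      have h4 := ht.1.sup hg
      rw [hF] at h4
      exact h4
    · intro g hg k _
      rw [Set.mem_singleton_iff.1 hg]; rfl
    · intro g hg k _
      rw [Set.mem_singleton_iff.1 hg]; rfl
    · refine ⟨t.a 1, ?_, fun g hg k _ _ => by rw [Set.mem_singleton_iff.1 hg]⟩
      intro k h4 h5 h6
      have h4' : q + 1 ≤ k := h4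
      refine ⟨?_, by omega⟩
      rw [← hsX]
      apply hc1 k (by omega) h5
      rw [← hc2 1 h1F k (by omega) h5, h6]
    · intro k h4 h5
      refine ⟨?_, by omega⟩
      rw [← hsX]
      exact ht.1.X k h4 h5
  exact no_both h3 h1

/-- the vertex lemma -/
theorem vertex (hb : 2 ≤ b) [NeZero b] (hn : 2 ≤ n) (hP1 : ∀ y ∈ XS n b, ∃ i, y ∉ P i) {m : ℕ} {a : ℕ → Bool}
    {X : Set ℕ} (hX : X.Infinite) (h : ∀ i, Wi P i m a X) : False := by
  obtain ⟨x, h0, hc, hx⟩ := clash n hn R (fun j => (R j)ᶜ) (mkOne hb m a (fun _ => false) X hX : St n b) (Pay P)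
    (fun j => h j _ rfl rfl (fun _ _ => rfl) rfl) (by
      intro j l hjl g hg
      exact R_disj hjl hg)
  set l := lim x with hl
  have h1F : (1 : Gam n b) ∈ l.F := lim_F 0 (by rw [h0]; exact rfl)
  have hu : l.F = Set.univ := by
    by_contra hne
    have hmin : ∃ k, ∃ w, w ∉ l.F ∧ len w = k := by
      rw [Set.eq_univ_iff_forall] at hne
      push Not at hne
      obtain ⟨g, hg⟩ := hne
      exact ⟨len g, g, hg, rfl⟩
    classical
    obtain ⟨w, hw1, hw2⟩ := Nat.find_spec hmin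
    have hw3 : ∀ v, v ∉ l.F → len w ≤ len v := by
      intro v hv
      rw [hw2]
      exact Nat.find_min' hmin ⟨v, hv, rfl⟩
    rcases cover w with rfl | ⟨j, hj⟩
    · exact hw1 h1F
    · rcases hx j with ⟨v, h2, _, h4⟩ | ⟨h2, _⟩
      · have := h4 w hw1 hj
        have := hw3 v h2
        omega
      · exact hne h2
  have hy := lim_mem_XS hc hu
  obtain ⟨i, hi⟩ := hP1 _ hy
  rcases hx i with ⟨w, h2, _, _⟩ | ⟨_, h2⟩
  · exact h2 (by show w ∈ l.F; rw [hu]; trivial)
  · exact hi h2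

/-- the hyperedge lemma -/
theorem hyper (hb : 2 ≤ b) [NeZero b] (hP2 : ∀ y ∈ XS n b, ∀ i, ∃ l : ZMod b, act (pw i l) y ∈ P i)
    (i : Fin n) {m : ℕ} (a : ZMod b → ℕ → Bool) {X : Set ℕ} (hX : X.Infinite) (hN : ∀ l, Ni P i m (a l) X)
    (hsh : ∃ q, ∀ l, l ≠ q → ShB m (a l) (a (l + 1))) : False := by
  classical
  choose s hsm hs1 hsF hsa hsX hsw using hN
  -- the index of the piece
  have hℓex : ∀ g : Gam n b, ∃ l : ZMod b, (pw i l)⁻¹ * g ∉ R i := by
    intro g
    obtain ⟨l, hl⟩ := exists_pw_mul_notMem i g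
    exact ⟨-l, by rw [pw_neg, inv_inv]; exact hl⟩
  choose ℓ hℓ using hℓex
  have hℓu : ∀ (g : Gam n b) (l : ZMod b), (pw i l)⁻¹ * g ∉ R i → ℓ g = l := by
    intro g l hl
    have h1 := hℓ g
    rw [← pw_neg] at h1 hl
    have := pw_mul_notMem_unique h1 hl
    exact neg_injective this
  have hℓm : ∀ (l : ZMod b) (g : Gam n b), g ∉ R i → ℓ (pw i l * g) = l := by
    intro l g hg
    apply hℓu
    rw [pw_inv_mul]
    exact hg
  obtain ⟨q, hqX, hqm⟩ := hX.exists_gt m
  set M : ℕ := max (q + 1) (m + b) with hM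
  have hmM : m ≤ M := by omega
  have hbpos : 0 < b := by omega
  let J : St n b :=
    { m := M
      F := {g | (pw i (ℓ g))⁻¹ * g ∈ (s (ℓ g)).F}
      a := fun g k => if k < m then (s (ℓ g)).a ((pw i (ℓ g))⁻¹ * g) k else decide (k = q)
      u := fun g k => if k < m then (s (ℓ g)).u ((pw i (ℓ g))⁻¹ * g) k else decide (k = m + (ℓ g).val)
      X := X
      inj := by
        intro g hg h hh e
        have e1 := e (m + (ℓ g).val) (by have := ZMod.val_lt (ℓ g); omega)
        have e2 : ¬ (m + (ℓ g).val < m) := by omega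
        simp only [if_neg e2, decide_true] at e1
        have e3 : m + (ℓ g).val = m + (ℓ h).val := of_decide_eq_true e1.symm
        have e4 : ℓ g = ℓ h := ZMod.val_injective b (by omega)
        have e5 : (pw i (ℓ g))⁻¹ * g = (pw i (ℓ g))⁻¹ * h := by
          apply (s (ℓ g)).inj _ hg _ (by rw [e4]; exact hh)
          intro k hk
          rw [hsm] at hk
          have := e k (by omega)
          simp only [if_pos hk] at this
          rw [this, e4]
        exact mul_left_cancel e5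
      val := by
        intro g i' hF
        by_cases hcase : (pw i (ℓ g))⁻¹ * g = 1 ∧ i' = i
        · obtain ⟨h1, rfl⟩ := hcase
          have hg : g = pw i' (ℓ g) := (inv_mul_eq_one.1 h1).symm
          obtain ⟨q0, hq0⟩ := hsh
          have hl : ∀ l : ZMod b, ℓ (g * pw i' l) = ℓ g + l := by
            intro l
            rw [hg, ← pw_add]
            have := hℓm (ℓ g + l) 1 (one_notMem i')
            rw [mul_one] at this
            rw [this]
            rw [← hg]
          have hl2 : ∀ l : ZMod b, (pw i' (ℓ g + l))⁻¹ * (g * pw i' l) = 1 := by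
            intro l
            rw [pw_add, ← hg, inv_mul_cancel]
          refine ⟨q0 - ℓ g, fun l hlq => ?_⟩
          have h2 := hq0 (ℓ g + l) (by
            intro h; apply hlq; rw [← h]; ring)
          refine h2.ext hmM ?_ ?_ ?_
          · intro k hk
            simp only [if_pos hk, hl, hl2]
            exact hsa _ k hk
          · intro k hk
            simp only [if_pos hk, hl, hl2]
            rw [add_assoc]
            exact hsa _ k hk
          · intro k h3 _
            simp only [if_neg (not_lt.2 h3)]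
        · have h1 : ∀ l : ZMod b, (pw i (ℓ g))⁻¹ * (g * pw i' l) ∉ R i := by
            intro l
            rw [← mul_assoc]
            by_cases h2 : (pw i (ℓ g))⁻¹ * g = 1
            · rw [h2, one_mul]
              exact pw_notMem (fun h => hcase ⟨h2, h⟩) l
            · exact mul_pw_notMem i' l (hℓ g) h2
          have hl : ∀ l : ZMod b, ℓ (g * pw i' l) = ℓ g := fun l => hℓu _ _ (h1 l)
          obtain ⟨q0, hq0⟩ := (s (ℓ g)).val ((pw i (ℓ g))⁻¹ * g) i' (by
            intro l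
            have h3 := hF l
            simp only [Set.mem_ofPred_eq, hl] at h3
            rwa [← mul_assoc] at h3)
          refine ⟨q0, fun l hlq => ?_⟩
          have h2 := hq0 l hlq
          rw [hsm] at h2
          refine h2.ext hmM ?_ ?_ ?_
          · intro k hk
            simp only [if_pos hk, hl, mul_assoc]
          · intro k hk
            simp only [if_pos hk, hl, mul_assoc]
          · intro k h3 _
            simp only [if_neg (not_lt.2 h3)]
      inf := hX }
  have hw : ∀ l : ZMod b, Win2 {g | (pw i l)⁻¹ * g ∈ (R i)ᶜ} {g | (pw i l)⁻¹ * g ∈ R i} J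
      {L | trL (pw i l)⁻¹ L ∈ (Pay P i)ᶜ} := by
    intro l
    apply ((hsw l).trans (pw i l)).pers
    have hin : ∀ g : Gam n b, (pw i l)⁻¹ * g ∈ (s l).F → ℓ g = l := fun g hg => hℓu g l (hsF l hg)
    constructor
    · show (s l).m ≤ M
      rw [hsm]; exact hmM
    · intro g hg
      have hg' : (pw i l)⁻¹ * g ∈ (s l).F := hg
      show (pw i (ℓ g))⁻¹ * g ∈ (s (ℓ g)).F
      rw [hin g hg']
      exact hg'
    · intro g hg
      have hg' : (pw i (ℓ g))⁻¹ * g ∈ (s (ℓ g)).F := hg
      by_cases h1 : (pw i l)⁻¹ * g ∈ R i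
      · exact Or.inr h1
      · left
        show (pw i l)⁻¹ * g ∈ (s l).F
        rw [hℓu g l h1] at hg'
        exact hg'
    · intro g hg k hk
      have hk' : k < m := by rw [← hsm l]; exact hk
      show (if k < m then (s (ℓ g)).a ((pw i (ℓ g))⁻¹ * g) k else decide (k = q)) = (s l).a ((pw i l)⁻¹ * g) k
      rw [if_pos hk', hin g hg]
    · intro g hg k hk
      have hk' : k < m := by rw [← hsm l]; exact hk
      show (if k < m then (s (ℓ g)).u ((pw i (ℓ g))⁻¹ * g) k else decide (k = m + (ℓ g).val)) =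
        (s l).u ((pw i l)⁻¹ * g) k
      rw [if_pos hk', hin g hg]
    · refine ⟨fun k => decide (k = q), ?_, ?_⟩
      · intro k _ _ h3
        have h4 : k = q := of_decide_eq_true h3
        show k ∈ (s l).X
        rw [hsX, h4]; exact hqX
      · intro g _ k h1 _
        have h1' : m ≤ k := by rw [← hsm l]; exact h1
        show (if k < m then (s (ℓ g)).a ((pw i (ℓ g))⁻¹ * g) k else decide (k = q)) = _
        rw [if_neg (not_lt.2 h1')]
    · intro k hk _
      show k ∈ (s l).X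
      rw [hsX]; exact hk
  obtain ⟨x, _, hc, hx⟩ := clash b hb (fun j : Fin b => {g | (pw i ((j : ℕ) : ZMod b))⁻¹ * g ∈ (R i)ᶜ})
    (fun j : Fin b => {g | (pw i ((j : ℕ) : ZMod b))⁻¹ * g ∈ R i}) J
    (fun j : Fin b => {L | trL (pw i ((j : ℕ) : ZMod b))⁻¹ L ∈ (Pay P i)ᶜ}) (fun j => hw _) (by
      intro j l hjl g hg
      have hg' : (pw i ((l : ℕ) : ZMod b))⁻¹ * g ∉ R i := hg
      by_contra h1
      have h1' : (pw i ((j : ℕ) : ZMod b))⁻¹ * g ∉ R i := h1
      have h2 := (hℓu g _ hg').symm.trans (hℓu g _ h1')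
      apply hjl
      apply Fin.ext
      have h3 := congrArg ZMod.val h2
      rwa [ZMod.val_natCast_of_lt l.2, ZMod.val_natCast_of_lt j.2] at h3)
  have hx' : ∀ l : ZMod b, trL (pw i l)⁻¹ (lim x) ∉ Pay P i := by
    intro l
    have := hx ⟨l.val, ZMod.val_lt l⟩
    simp only [ZMod.natCast_val, ZMod.cast_id', id] at this
    exact this
  by_cases hu : (lim x).F = Set.univ
  · have hy := lim_mem_XS hc hu
    obtain ⟨l, hl⟩ := hP2 _ hy i
    apply hx' (-l)
    right
    refine ⟨?_, ?_⟩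
    · rw [Set.eq_univ_iff_forall]
      intro g
      show _ ∈ (lim x).F
      rw [hu]; trivial
    · rw [pw_neg, inv_inv]
      exact hl
  · have key : ∀ (k : ℕ) (l : ZMod b) (v : Gam n b), len v < k → pw i l * v ∉ (lim x).F → v ∉ R i → False := by
      intro k
      induction k with
      | zero => intro l v h; omega
      | succ k ih =>
        intro l v h1 h2 h3
        have h4 := hx' l
        simp only [Pay, Set.mem_ofPred_eq, not_or, not_exists, not_and, not_forall, not_lt] at h4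
        obtain ⟨w, h5, h6, h7⟩ := h4.1 v (by
          intro h
          have h' : (pw i l)⁻¹⁻¹ * v ∈ (lim x).F := h
          rw [inv_inv] at h'
          exact h2 h') h3
        obtain ⟨l1, w', h8, h9, h10⟩ := exists_of_mem h6
        have h11 : pw i (l + l1) * w' ∉ (lim x).F := by
          intro h
          apply h5
          show (pw i l)⁻¹⁻¹ * w ∈ (lim x).F
          rw [inv_inv, h10, ← mul_assoc, ← pw_add]
          exact h
        have h12 := len_pw_mul i h8 w' h9
        rw [← h10] at h12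
        exact ih (l + l1) w' (by omega) h11 h9
    rw [Set.eq_univ_iff_forall] at hu
    push Not at hu
    obtain ⟨g, hg⟩ := hu
    refine key (len ((pw i (ℓ g))⁻¹ * g) + 1) (ℓ g) ((pw i (ℓ g))⁻¹ * g) (Nat.lt_succ_self _) ?_ (hℓ g)
    rw [mul_inv_cancel_left]
    exact hg

end Pool.Agent.Helper56.CI
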