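import Pool.Agent.Helper56.CI.Tree
import Pool.Agent.Helper56.CI.Grp
import Pool.Agent.Helper56.CI.WN

/-! # The labels on a coset -/

set_option autoImplicit false

open MeasureTheory

namespace Pool.Agent.Helper56.CI

variable {n b : ℕ}

theorem BT_Sf (T : List ℕ → Bool) (s : ℕ → Bool) : BT T (Sf s) ↔ BT T s := by
  constructor
  · intro h p
    obtain ⟨l, hl⟩ := h p
    refine ⟨l, fun t ht hT => ?_⟩
    obtain ⟨m, h1, h2⟩ := hl t ht hT
    refine ⟨m, h1, ?_⟩
    have h3 := cn_Sf s (t.getD m 0)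
    change m + p < cn (Sf s) _ at h2
    change m + p < cn s _
    omega
  · intro h p
    obtain ⟨l, hl⟩ := h (p + 1)
    refine ⟨l, fun t ht hT => ?_⟩
    obtain ⟨m, h1, h2⟩ := hl t ht hT
    refine ⟨m, h1, ?_⟩
    have h3 := cn_Sf s (t.getD m 0)
    change m + (p + 1) < cn s _ at h2
    change m + p < cn (Sf s) _
    omega

theorem BT_Sf_iter (T : List ℕ → Bool) (t : ℕ) (s : ℕ → Bool) : BT T (Sf^[t] s) ↔ BT T s := by
  induction t generalizing s with
  | zero => exact Iff.rfl
  | succ t ih => rw [Function.iterate_succ_apply, ih, BT_Sf]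

theorem xs_act {y : Gam n b → Lab} (hy : y ∈ XS n b) (d : Gam n b) : act d y ∈ XS n b := by
  obtain ⟨h1, h2, h3⟩ := hy
  refine ⟨?_, fun g N => h2 (d⁻¹ * g) N, fun g i => ?_⟩
  · intro g g' e
    exact mul_left_cancel (h1 e)
  · obtain ⟨q, hq⟩ := h3 (d⁻¹ * g) i
    refine ⟨q, fun l hl => ?_⟩
    have := hq l hl
    rw [mul_assoc, mul_assoc] at this
    exact this

theorem xs_free {y : Gam n b → Lab} (hy : y ∈ XS n b) {d e : Gam n b} (h : act d y = act e y) : d = e := by
  have h1 := congrFun h 1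
  have h2 : d⁻¹ * 1 = e⁻¹ * 1 := hy.1 (congrArg Prod.snd h1)
  exact inv_injective (mul_right_cancel h2)

theorem natCast_ne {t : ℕ} (h0 : 0 < t) (h1 : t < b) : (t : ZMod b) ≠ 0 := by
  intro h
  rw [ZMod.natCast_eq_zero_iff] at h
  exact absurd (Nat.le_of_dvd h0 h) (by omega)

theorem chain {Y : ZMod b → (ℕ → Bool)} {q : ZMod b} (h : ∀ l, l ≠ q → Sh (Y l) (Y (l + 1))) (t : ℕ) (ht : t < b) :
    Y (q + 1 + t) = Sf^[t] (Y (q + 1)) := by
  induction t with
  | zero => simp
  | succ t ih =>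
    have h1 := ih (by omega)
    have h2 : q + 1 + (t : ZMod b) ≠ q := by
      intro e
      have h3 : ((t + 1 : ℕ) : ZMod b) = 0 := by
        push_cast
        have : q + ((t : ZMod b) + 1) = q + 0 := by rw [add_zero, add_comm (t : ZMod b) 1, ← add_assoc]; exact e
        exact add_left_cancel this
      exact natCast_ne (by omega) ht h3
    have h3 := (h _ h2).eq_Sf
    rw [Function.iterate_succ_apply', ← h1, ← h3]
    congr 1
    push_cast
    ring

theorem exists_nat (hb : 0 < b) (q l : ZMod b) : ∃ t : ℕ, t < b ∧ l = q + 1 + t := by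
  have : NeZero b := ⟨by omega⟩
  refine ⟨(l - q - 1).val, ZMod.val_lt _, ?_⟩
  rw [ZMod.natCast_zmod_val]
  ring

theorem coset_iter (hb : 0 < b) {Y : ZMod b → (ℕ → Bool)} {q : ZMod b} (h : ∀ l, l ≠ q → Sh (Y l) (Y (l + 1)))
    {l m : ZMod b} (hlm : l ≠ m) : ∃ j, 1 ≤ j ∧ j < b ∧ (Y l = Sf^[j] (Y m) ∨ Y m = Sf^[j] (Y l)) := by
  obtain ⟨t, ht, rfl⟩ := exists_nat hb q l
  obtain ⟨t', ht', rfl⟩ := exists_nat hb q m
  rw [chain h t ht, chain h t' ht']
  rcases lt_trichotomy t t' with h1 | h1 | h1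
  · refine ⟨t' - t, by omega, by omega, Or.inr ?_⟩
    rw [← Function.iterate_add_apply]
    congr 1; omega
  · subst h1
    exact (hlm rfl).elim
  · refine ⟨t - t', by omega, by omega, Or.inl ?_⟩
    rw [← Function.iterate_add_apply]
    congr 1; omega

theorem act_pw_one (i : Fin n) (l : ZMod b) {α : Type} (y : Gam n b → α) : act (pw i l) y 1 = y (pw i (-l)) := by
  unfold act
  rw [mul_one, pw_neg]

theorem act_pw_pw (i : Fin n) (m l : ZMod b) {α : Type} (y : Gam n b → α) :
    act (pw i m) y (pw i l) = y (pw i (l - m)) := by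
  unfold act
  rw [← pw_neg, ← pw_add]
  congr 2
  ring

theorem act_pw_act (i : Fin n) (l m : ZMod b) {α : Type} (y : Gam n b → α) :
    act (pw i l) (act (pw i m) y) = act (pw i (l + m)) y := by
  rw [act_act, pw_add]

/-- the labels on the `i`-coset of the identity -/
theorem xs_coset {y : Gam n b → Lab} (hy : y ∈ XS n b) (i : Fin n) :
    ∃ q : ZMod b, ∀ l : ZMod b, l ≠ q → Sh (y (pw i l)).1 (y (pw i (l + 1))).1 := by
  obtain ⟨q, hq⟩ := hy.2.2 1 i
  simp only [one_mul] at hq
  exact ⟨q, hq⟩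

theorem xs_BT_pw (hb : 0 < b) {y : Gam n b → Lab} (hy : y ∈ XS n b) (T : List ℕ → Bool) (i : Fin n) (l : ZMod b) :
    BT T (act (pw i l) y 1).1 ↔ BT T (y 1).1 := by
  obtain ⟨q, hq⟩ := xs_coset hy i
  have key : ∀ l, BT T (y (pw i l)).1 ↔ BT T (y (pw i (q + 1))).1 := by
    intro l
    obtain ⟨t, ht, rfl⟩ := exists_nat hb q l
    have := chain (Y := fun l => (y (pw i l)).1) hq t ht
    rw [this, BT_Sf_iter]
  have h1 := key 0
  rw [pw_zero] at h1
  rw [act_pw_one, key, h1]

theorem xs_BT_act (hb : 0 < b) {y : Gam n b → Lab} (hy : y ∈ XS n b) (T : List ℕ → Bool) (d : Gam n b) :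
    BT T (act d y 1).1 ↔ BT T (y 1).1 := by
  induction d using gam_induction with
  | h1 => rw [act_one]
  | h2 i l g _ _ ih =>
    rw [← act_act, xs_BT_pw hb (xs_act hy g), ih]

/-- the base points of the `i`-orbits -/
def D (i : Fin n) : Set (Gam n b → Lab) :=
  {y | ∀ l : ZMod b, l ≠ -1 → Sh (y (pw i l)).1 (y (pw i (l + 1))).1}

theorem xs_exists_mem_D {y : Gam n b → Lab} (hy : y ∈ XS n b) (i : Fin n) :
    ∃ m : ZMod b, act (pw i m) y ∈ D i := by
  obtain ⟨q, hq⟩ := xs_coset hy i
  refine ⟨-1 - q, fun l hl => ?_⟩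
  rw [act_pw_pw, act_pw_pw]
  have h1 : l - (-1 - q) ≠ q := by
    intro e
    apply hl
    have : l - (-1 - q) - q = 0 := by rw [e, sub_self]
    have h2 : l + 1 = 0 := by rw [← this]; ring
    exact eq_neg_of_add_eq_zero_left h2
  have h2 := hq _ h1
  have h3 : l + 1 - (-1 - q) = l - (-1 - q) + 1 := by ring
  rw [h3]
  exact h2

theorem xs_D_unique (hb : 0 < b) {y : Gam n b → Lab} (hy : y ∈ XS n b) {i : Fin n} {m : ZMod b} (h1 : y ∈ D i)
    (h2 : act (pw i m) y ∈ D i) : m = 0 := by
  by_contra hm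
  have hall : ∀ l : ZMod b, Sh (y (pw i l)).1 (y (pw i (l + 1))).1 := by
    intro l
    by_cases hl : l = -1
    · have h3 : (-1 + m : ZMod b) ≠ -1 := by
        intro e
        apply hm
        have h4 : (-1 + m : ZMod b) = -1 + 0 := by rw [e, add_zero]
        exact add_left_cancel h4
      have h4 := h2 _ h3
      rw [act_pw_pw, act_pw_pw] at h4
      have e1 : (-1 + m - m : ZMod b) = l := by rw [hl]; ring
      have e2 : (-1 + m + 1 - m : ZMod b) = l + 1 := by rw [hl]; ring
      rw [e1, e2] at h4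
      exact h4
    · exact h1 l hl
  have hit : ∀ t : ℕ, (y (pw i (t : ZMod b))).1 = Sf^[t] (y (pw i 0)).1 := by
    intro t
    induction t with
    | zero => simp
    | succ t ih =>
      rw [Function.iterate_succ_apply', ← ih, ← (hall (t : ZMod b)).eq_Sf]
      push_cast
      rfl
  have h3 := hit b
  rw [ZMod.natCast_self] at h3
  obtain ⟨v, hv⟩ := cn_unbounded (hy.2.1 (pw i 0)) 1
  have h4 := cn_iter (y (pw i 0)).1 b v
  rw [← h3] at h4
  omega

/-- the position of the base point -/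
noncomputable def bsm (i : Fin n) (y : Gam n b → Lab) : ℕ := sInf {t : ℕ | act (pw i (t : ZMod b)) y ∈ D i}

/-- the base point of the `i`-orbit -/
noncomputable def bs (i : Fin n) (y : Gam n b → Lab) : Gam n b → Lab := act (pw i (bsm i y : ZMod b)) y

theorem xs_bs_mem (hb : 0 < b) {y : Gam n b → Lab} (hy : y ∈ XS n b) (i : Fin n) : bs i y ∈ D i := by
  have : NeZero b := ⟨by omega⟩
  obtain ⟨m, hm⟩ := xs_exists_mem_D hy i
  have hne : {t : ℕ | act (pw i (t : ZMod b)) y ∈ D i}.Nonempty := by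
    refine ⟨m.val, ?_⟩
    rw [Set.mem_ofPred_eq, ZMod.natCast_zmod_val]
    exact hm
  exact Nat.sInf_mem hne

theorem xs_bs_unique (hb : 0 < b) {y : Gam n b → Lab} (hy : y ∈ XS n b) {i : Fin n} {m : ZMod b}
    (h : act (pw i m) y ∈ D i) : bs i y = act (pw i m) y := by
  have h1 := xs_bs_mem hb hy i
  have h2 : act (pw i (m - (bsm i y : ZMod b))) (bs i y) ∈ D i := by
    unfold bs
    rw [act_pw_act, sub_add_cancel]
    exact h
  have h3 := xs_D_unique hb (xs_act hy (pw i (bsm i y : ZMod b))) h1 h2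
  unfold bs
  rw [sub_eq_zero.1 h3]

theorem xs_bs_act (hb : 0 < b) {y : Gam n b → Lab} (hy : y ∈ XS n b) (i : Fin n) (l : ZMod b) :
    bs i (act (pw i l) y) = bs i y := by
  have h1 := xs_bs_mem hb hy i
  have h2 : act (pw i ((bsm i y : ZMod b) - l)) (act (pw i l) y) ∈ D i := by
    rw [act_pw_act, sub_add_cancel]
    exact h1
  rw [xs_bs_unique hb (xs_act hy (pw i l)) h2, act_pw_act, sub_add_cancel]
  rfl

/-! ## Measurability -/

theorem measurable_act (d : Gam n b) : Measurable (act d : (Gam n b → Lab) → (Gam n b → Lab)) :=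
  measurable_pi_lambda _ fun g => measurable_pi_apply (d⁻¹ * g)

theorem measurableSet_Sh : MeasurableSet {p : (ℕ → Bool) × (ℕ → Bool) | Sh p.1 p.2} := by
  have e : {p : (ℕ → Bool) × (ℕ → Bool) | Sh p.1 p.2} =
      ⋃ q : ℕ, ({p | p.1 q = true} ∩ ((⋂ k : ℕ, ⋂ (_ : k < q), {p | p.1 k = false}) ∩
        ⋂ k : ℕ, {p | p.2 k = (p.1 k && decide (k ≠ q))})) := by
    ext p
    simp only [Sh, Set.mem_ofPred_eq, Set.mem_iUnion, Set.mem_inter_iff, Set.mem_iInter]
  rw [e]
  have h1 : ∀ k : ℕ, Measurable fun p : (ℕ → Bool) × (ℕ → Bool) => (p.1 k, p.2 k) := fun k =>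
    ((measurable_pi_apply k).comp measurable_fst).prodMk ((measurable_pi_apply k).comp measurable_snd)
  refine MeasurableSet.iUnion fun q => MeasurableSet.inter ?_ (MeasurableSet.inter
    (MeasurableSet.iInter fun k => MeasurableSet.iInter fun _ => ?_) (MeasurableSet.iInter fun k => ?_))
  · exact h1 q (MeasurableSet.of_discrete (s := {t : Bool × Bool | t.1 = true}))
  · exact h1 k (MeasurableSet.of_discrete (s := {t : Bool × Bool | t.1 = false}))
  · exact h1 k (MeasurableSet.of_discrete (s := {t : Bool × Bool | t.2 = (t.1 && decide (k ≠ q))}))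

theorem measurableSet_Sh' (g h : Gam n b) : MeasurableSet {y : Gam n b → Lab | Sh (y g).1 (y h).1} := by
  have : Measurable fun y : Gam n b → Lab => ((y g).1, (y h).1) :=
    (measurable_fst.comp (measurable_pi_apply g)).prodMk (measurable_fst.comp (measurable_pi_apply h))
  exact this measurableSet_Sh

instance zmod_countable : Countable (ZMod b) := by
  cases b with
  | zero => exact inferInstanceAs (Countable ℤ)
  | succ b => exact inferInstanceAs (Countable (Fin (b + 1)))

theorem measurableSet_D (i : Fin n) : MeasurableSet (D i : Set (Gam n b → Lab)) := by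
  have e : (D i : Set (Gam n b → Lab)) =
      ⋂ l : ZMod b, ⋂ (_ : l ≠ -1), {y | Sh (y (pw i l)).1 (y (pw i (l + 1))).1} := by
    ext y
    simp only [D, Set.mem_ofPred_eq, Set.mem_iInter]
  rw [e]
  exact MeasurableSet.iInter fun l => MeasurableSet.iInter fun _ => measurableSet_Sh' _ _

theorem measurableSet_XS : MeasurableSet (XS n b) := by
  have e : XS n b = (⋂ g : Gam n b, ⋂ g' : Gam n b, ⋂ (_ : g ≠ g'), {y | (y g).2 = (y g').2}ᶜ) ∩
      ((⋂ g : Gam n b, ⋂ N : ℕ, ⋃ k : ℕ, ⋃ (_ : N ≤ k), {y | (y g).1 k = true}) ∩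
      ⋂ g : Gam n b, ⋂ i : Fin n, ⋃ q : ZMod b, ⋂ l : ZMod b, ⋂ (_ : l ≠ q),
        {y | Sh (y (g * pw i l)).1 (y (g * pw i (l + 1))).1}) := by
    ext y
    simp only [XS, Set.mem_ofPred_eq, Set.mem_iInter, Set.mem_iUnion, Set.mem_inter_iff, Set.mem_compl_iff,
      exists_prop]
    constructor
    · rintro ⟨h1, h2, h3⟩
      exact ⟨fun g g' hne e => hne (h1 e), h2, h3⟩
    · rintro ⟨h1, h2, h3⟩
      refine ⟨fun g g' e => ?_, h2, h3⟩
      by_contra hne
      exact h1 g g' hne e
  rw [e]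
  refine MeasurableSet.inter ?_ (MeasurableSet.inter ?_ ?_)
  · refine MeasurableSet.iInter fun g => MeasurableSet.iInter fun g' => MeasurableSet.iInter fun _ =>
      MeasurableSet.compl ?_
    exact measurableSet_eq_fun (measurable_snd.comp (measurable_pi_apply g))
      (measurable_snd.comp (measurable_pi_apply g'))
  · refine MeasurableSet.iInter fun g => MeasurableSet.iInter fun N => MeasurableSet.iUnion fun k =>
      MeasurableSet.iUnion fun _ => ?_
    have : Measurable fun y : Gam n b → Lab => (y g).1 k :=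
      (measurable_pi_apply k).comp (measurable_fst.comp (measurable_pi_apply g))
    exact this (measurableSet_singleton true)
  · exact MeasurableSet.iInter fun g => MeasurableSet.iInter fun i => MeasurableSet.iUnion fun q =>
      MeasurableSet.iInter fun l => MeasurableSet.iInter fun _ => measurableSet_Sh' _ _

theorem measurable_bs (i : Fin n) : Measurable (bs i : (Gam n b → Lab) → (Gam n b → Lab)) := by
  have h1 : Measurable (bsm i : (Gam n b → Lab) → ℕ) :=
    measurable_sInf_nat fun t => (measurable_act (pw i (t : ZMod b))) (measurableSet_D i)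
  have h2 : Measurable fun p : (Gam n b → Lab) × ℕ => act (pw i (p.2 : ZMod b)) p.1 :=
    measurable_from_prod_countable_left fun t => measurable_act (pw i (t : ZMod b))
  exact h2.comp (measurable_id.prodMk h1)

end Pool.Agent.Helper56.CI
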