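import Mathlib

/-! # Chromatic index of acyclic regular Borel graphs: basic definitions -/

set_option autoImplicit false

namespace Pool.Agent.Helper56.CI

/-! ## The group -/

/-- the free product of `n` cyclic groups of order `b` -/
abbrev Gam (n b : ℕ) : Type := Monoid.CoprodI (fun _ : Fin n => Multiplicative (ZMod b))

/-- the element `l` of the `i`-th cyclic group -/
def pw {n b : ℕ} (i : Fin n) (l : ZMod b) : Gam n b :=
  Monoid.CoprodI.of (M := fun _ : Fin n => Multiplicative (ZMod b)) (i := i) (Multiplicative.ofAdd l)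

/-- the reduced word -/
noncomputable def wd {n b : ℕ} (g : Gam n b) :
    Monoid.CoprodI.Word (fun _ : Fin n => Multiplicative (ZMod b)) :=
  Monoid.CoprodI.Word.equiv g

/-- the elements whose reduced word starts in the `i`-th group -/
def R {n b : ℕ} (i : Fin n) : Set (Gam n b) := {g | (wd g).fstIdx = some i}

/-- word length -/
noncomputable def len {n b : ℕ} (g : Gam n b) : ℕ := (wd g).toList.length

/-- the shift -/
def act {n b : ℕ} {α : Type} (d : Gam n b) (y : Gam n b → α) : Gam n b → α := fun g => y (d⁻¹ * g)

/-! ## Labels -/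

/-- labels: an infinite set of natural numbers and a sequence of bits -/
abbrev Lab : Type := (ℕ → Bool) × (ℕ → Bool)

/-- `s'` is obtained from `s` by removing the least element -/
def Sh (s s' : ℕ → Bool) : Prop :=
  ∃ q, s q = true ∧ (∀ k < q, s k = false) ∧ ∀ k, s' k = (s k && decide (k ≠ q))

/-- The labellings. The second labels are pairwise different, the first labels are infinite sets, and the first labels of
the vertices `g * pw i l` are, in this cyclic order, `S^j h` for `j = 0, ..., b - 1` for some `h`. -/
def XS (n b : ℕ) : Set (Gam n b → Lab) :=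
  {y | (Function.Injective fun g => (y g).2) ∧ (∀ g, ∀ N, ∃ k, N ≤ k ∧ (y g).1 k = true) ∧
    ∀ g i, ∃ q : ZMod b, ∀ l : ZMod b, l ≠ q → Sh (y (g * pw i l)).1 (y (g * pw i (l + 1))).1}

/-! ## Trees -/

/-- the restriction of a sequence -/
def pre (z : ℕ → ℕ) (l : ℕ) : List ℕ := (List.range l).map z

/-- `z` is a branch of `T` -/
def Br (T : List ℕ → Bool) (z : ℕ → ℕ) : Prop := ∀ l, T (pre z l) = true

/-- the sets `s` which do not dominate a branch of `T` -/
def BT (T : List ℕ → Bool) (s : ℕ → Bool) : Prop :=
  ∀ p : ℕ, ∃ l : ℕ, ∀ t : List ℕ, t.length = l → (∀ j ≤ l, T (t.take j) = true) →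
    ∃ m < l, m + p < Nat.count (fun k => s k = true) (t.getD m 0)

end Pool.Agent.Helper56.CI
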