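import Pool.Agent.Helper56.CI.Code

/-! # The engine, part 1: the self-referential tree -/

set_option autoImplicit false

open MeasureTheory

namespace Pool.Agent.Helper56.CI

theorem mp_eq {α β : Type} [MeasurableSpace α] [MeasurableSpace β] [MeasurableSingletonClass β] {f : α → β}
    (hf : Measurable f) (b : β) : Measurable fun a => f a = b :=
  measurableSet_setOfPred.1 (hf (measurableSet_singleton b))

theorem len_le_encode (t : List ℕ) : t.length ≤ Encodable.encode t := by
  induction t with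
  | nil => exact Nat.zero_le _
  | cons a t ih =>
    rw [Encodable.encode_list_cons, List.length_cons]
    have := Nat.right_le_pair (Encodable.encode a) (Encodable.encode t)
    omega

theorem encode_append_le (σ : List ℕ) (a : ℕ) : Encodable.encode σ ≤ Encodable.encode (σ ++ [a]) := by
  induction σ with
  | nil => exact Nat.zero_le _
  | cons b σ ih =>
    rw [List.cons_append, Encodable.encode_list_cons, Encodable.encode_list_cons]
    apply Nat.succ_le_succ
    rcases ih.lt_or_eq with h | h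
    · exact (Nat.pair_lt_pair_right _ h).le
    · rw [h]

/-- the first half of a finite sequence -/
def yt (t : List ℕ) : ℕ → ℕ := fun i => t.getD (2 * i) 0

/-- the second half of a finite sequence -/
def dt (t : List ℕ) (σ : List ℕ) : List ℕ := Denumerable.ofNat (List ℕ) (t.getD (2 * Encodable.encode σ + 1) 0)

/-- the second half of an infinite sequence -/
def ew (w : ℕ → ℕ) (σ : List ℕ) : List ℕ := Denumerable.ofNat (List ℕ) (w (2 * Encodable.encode σ + 1))

section

variable (ΛP : List ℕ → (ℕ → Bool) × (ℕ → ℕ) → Prop) (ΛS : List ℕ → (ℕ → ℕ) × (List ℕ → Bool) → Prop)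

/-- the condition on a node -/
def Cond (x : ℕ → Bool) (c : ℕ → ℕ) (T : List ℕ → Bool) (t : List ℕ) : Prop :=
  ∀ σ : List ℕ, 2 * Encodable.encode σ + 1 < t.length → ΛP σ (x, yt t) →
    (dt t σ).length = σ.length ∧ ΛS (dt t σ) (c, T) ∧ ∀ σ' a, σ = σ' ++ [a] → ∃ a', dt t σ = dt t σ' ++ [a']

open Classical in
/-- the approximations -/
noncomputable def Tn (x : ℕ → Bool) (c : ℕ → ℕ) : ℕ → List ℕ → Bool
  | 0 => fun _ => false
  | k + 1 => fun t => decide (Cond ΛP ΛS x c (Tn x c k) t)

/-- the self-referential tree -/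
noncomputable def TT (x : ℕ → Bool) (c : ℕ → ℕ) : List ℕ → Bool :=
  fun t => Tn ΛP ΛS x c (Encodable.encode t + 1) t

variable {ΛP ΛS}

theorem Cond_congr {A : Set ((ℕ → ℕ) × (List ℕ → Bool))} (hS : Rep agS A ΛS) {x : ℕ → Bool} {c : ℕ → ℕ}
    {T T' : List ℕ → Bool} {t : List ℕ} (h : ∀ t', Encodable.encode t' < Encodable.encode t → T t' = T' t') :
    Cond ΛP ΛS x c T t ↔ Cond ΛP ΛS x c T' t := by
  unfold Cond
  refine forall_congr' fun σ => forall_congr' fun hσ => forall_congr' fun _ => ?_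
  refine and_congr_right fun hlen => and_congr_left fun _ => ?_
  have h1 : agS (dt t σ).length (c, T) (c, T') := by
    refine ⟨fun _ _ => rfl, fun t' ht' => h t' ?_⟩
    have h2 := len_le_encode σ
    have h3 := len_le_encode t
    omega
  exact ⟨hS.lip _ _ _ h1, hS.lip _ _ _ (agr_agS.symm _ _ _ h1)⟩

theorem Tn_succ {x : ℕ → Bool} {c : ℕ → ℕ} {k : ℕ} {t : List ℕ} :
    Tn ΛP ΛS x c (k + 1) t = true ↔ Cond ΛP ΛS x c (Tn ΛP ΛS x c k) t := by
  simp [Tn]

theorem Tn_stab {A : Set ((ℕ → ℕ) × (List ℕ → Bool))} (hS : Rep agS A ΛS) {x : ℕ → Bool} {c : ℕ → ℕ}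
    (t : List ℕ) : ∀ k k', Encodable.encode t < k → Encodable.encode t < k' → Tn ΛP ΛS x c k t = Tn ΛP ΛS x c k' t := by
  induction h : Encodable.encode t using Nat.strong_induction_on generalizing t with
  | _ N ih =>
    intro k k' hk hk'
    obtain ⟨k, rfl⟩ : ∃ j, k = j + 1 := ⟨k - 1, by omega⟩
    obtain ⟨k', rfl⟩ : ∃ j, k' = j + 1 := ⟨k' - 1, by omega⟩
    rw [Bool.eq_iff_iff, Tn_succ, Tn_succ]
    apply Cond_congr hS
    intro t' ht'
    exact ih _ (by omega) t' rfl k k' (by omega) (by omega)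

theorem TT_iff {A : Set ((ℕ → ℕ) × (List ℕ → Bool))} (hS : Rep agS A ΛS) {x : ℕ → Bool} {c : ℕ → ℕ}
    (t : List ℕ) : TT ΛP ΛS x c t = true ↔ Cond ΛP ΛS x c (TT ΛP ΛS x c) t := by
  unfold TT
  rw [Tn_succ]
  apply Cond_congr hS
  intro t' ht'
  exact Tn_stab hS t' _ _ (by omega) (by omega)

theorem branch_iff {B : Set ((ℕ → Bool) × (ℕ → ℕ))} (hP : Rep agP B ΛP) {A : Set ((ℕ → ℕ) × (List ℕ → Bool))}
    (hS : Rep agS A ΛS) {x : ℕ → Bool} {c : ℕ → ℕ} (w : ℕ → ℕ) :
    Br (TT ΛP ΛS x c) w ↔ ∀ σ, ΛP σ (x, fun i => w (2 * i)) →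
      (ew w σ).length = σ.length ∧ ΛS (ew w σ) (c, TT ΛP ΛS x c) ∧
        ∀ σ' a, σ = σ' ++ [a] → ∃ a', ew w σ = ew w σ' ++ [a'] := by
  have hd : ∀ l (σ : List ℕ), 2 * Encodable.encode σ + 1 < l → dt (pre w l) σ = ew w σ := by
    intro l σ h
    unfold dt ew
    rw [getD_pre w h]
  have hy : ∀ l (σ : List ℕ), 2 * Encodable.encode σ + 1 < l →
      agP σ.length (x, fun i => w (2 * i)) (x, yt (pre w l)) := by
    intro l σ h i hi
    refine ⟨rfl, ?_⟩
    show w (2 * i) = (pre w l).getD (2 * i) 0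
    rw [getD_pre w]
    have := len_le_encode σ
    omega
  unfold Br
  simp only [TT_iff hS]
  unfold Cond
  constructor
  · intro h σ hσ
    have h1 := h (2 * Encodable.encode σ + 2) σ (by rw [length_pre]; omega)
      (hP.lip _ _ _ (hy _ σ (by omega)) hσ)
    rw [hd _ σ (by omega)] at h1
    refine ⟨h1.1, h1.2.1, fun σ' a hs => ?_⟩
    obtain ⟨a', ha'⟩ := h1.2.2 σ' a hs
    rw [hd _ σ' (by have := encode_append_le σ' a; rw [← hs] at this; omega)] at ha'
    exact ⟨a', ha'⟩
  · intro h l σ hl hσ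
    rw [length_pre] at hl
    have h1 := h σ (hP.lip _ _ _ (agr_agP.symm _ _ _ (hy _ σ hl)) hσ)
    rw [hd _ σ hl]
    refine ⟨h1.1, h1.2.1, fun σ' a hs => ?_⟩
    obtain ⟨a', ha'⟩ := h1.2.2 σ' a hs
    rw [hd _ σ' (by have := encode_append_le σ' a; rw [← hs] at this; omega)]
    exact ⟨a', ha'⟩

theorem measurable_Tn {B : Set ((ℕ → Bool) × (ℕ → ℕ))} (hP : Rep agP B ΛP)
    {A : Set ((ℕ → ℕ) × (List ℕ → Bool))} (hS : Rep agS A ΛS) (k : ℕ) :
    Measurable (fun p : (ℕ → Bool) × (ℕ → ℕ) => Tn ΛP ΛS p.1 p.2 k) := by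
  classical
  induction k with
  | zero => exact measurable_const
  | succ k ih =>
    refine measurable_pi_iff.2 fun t => ?_
    show Measurable (fun p : (ℕ → Bool) × (ℕ → ℕ) => decide (Cond ΛP ΛS p.1 p.2 (Tn ΛP ΛS p.1 p.2 k) t))
    have h1 : Measurable (fun p : (ℕ → Bool) × (ℕ → ℕ) => Cond ΛP ΛS p.1 p.2 (Tn ΛP ΛS p.1 p.2 k) t) := by
      unfold Cond
      refine Measurable.forall fun σ => Measurable.imp measurable_const (Measurable.imp ?_ ?_)
      · have h2 := measurableSet_setOfPred.1 (hP.measurableSet agr_agP σ)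
        exact h2.comp (measurable_fst.prodMk measurable_const)
      · refine Measurable.and measurable_const (Measurable.and ?_ measurable_const)
        have h2 := measurableSet_setOfPred.1 (hS.measurableSet agr_agS (dt t σ))
        exact h2.comp (measurable_snd.prodMk ih)
    apply measurable_to_bool
    have e : (fun p : (ℕ → Bool) × (ℕ → ℕ) => decide (Cond ΛP ΛS p.1 p.2 (Tn ΛP ΛS p.1 p.2 k) t)) ⁻¹' {true} =
        {p | Cond ΛP ΛS p.1 p.2 (Tn ΛP ΛS p.1 p.2 k) t} := by
      ext p
      simp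
    rw [e]
    exact measurableSet_setOfPred.2 h1

theorem measurable_TT {B : Set ((ℕ → Bool) × (ℕ → ℕ))} (hP : Rep agP B ΛP)
    {A : Set ((ℕ → ℕ) × (List ℕ → Bool))} (hS : Rep agS A ΛS) :
    Measurable (fun p : (ℕ → Bool) × (ℕ → ℕ) => TT ΛP ΛS p.1 p.2) := by
  refine measurable_pi_iff.2 fun t => ?_
  exact (measurable_pi_apply t).comp (measurable_Tn hP hS (Encodable.encode t + 1))

end

/-! ## The set of the codes which do not code a solution -/

/-- the value given by evaluations -/
noncomputable def val (E : ℕ → List ℕ → Bool) : ℕ := sInf {j | E j [] = true}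

theorem measurable_val : Measurable val :=
  measurable_sInf_nat fun j => measurableSet_setOfPred.2
    (mp_eq ((measurable_pi_apply ([] : List ℕ)).comp (measurable_pi_apply (X := fun _ : ℕ => List ℕ → Bool) j)) true)

theorem measurable_vld {Z : Type} [MeasurableSpace Z] {U : ℕ → Set Z} (hU : ∀ q, MeasurableSet (U q))
    {α : Type} [MeasurableSpace α] {c : α → ℕ → ℕ} {p : α → Z} {e : α → List ℕ → Bool}
    (hc : Measurable c) (hp : Measurable p) (he : Measurable e) : Measurable fun a => vld U (c a) (p a) (e a) := by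
  have hc' : ∀ k, Measurable fun a => c a k := fun k => (measurable_pi_apply k).comp hc
  have he' : ∀ ρ, Measurable fun a => e a ρ := fun ρ => (measurable_pi_apply ρ).comp he
  unfold vld
  refine Measurable.forall fun ρ => Measurable.and (Measurable.forall fun q => ?_) ?_
  · refine Measurable.imp (mp_eq (hc' _) _) (Measurable.iff (mp_eq (he' _) _) ?_)
    exact measurableSet_setOfPred.1 (hp (hU q))
  · exact Measurable.imp (mp_eq (hc' _) _) (Measurable.iff (mp_eq (he' _) _)
      (Measurable.forall fun a => mp_eq (he' _) _))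

section

variable {V : Type} [TopologicalSpace V] [PolishSpace V] [MeasurableSpace V] [BorelSpace V]

/-- the generating sets -/
noncomputable def UU (V : Type) [TopologicalSpace V] [PolishSpace V] [MeasurableSpace V] [BorelSpace V] :
    ℕ → Set ((ℕ → ℕ) × V × ℕ) := MeasurableSpace.natGeneratingSequence _

/-- `E` evaluates the code `c` at `(c, v, j)` for all `j` -/
def Vd (c : ℕ → ℕ) (v : V) (E : ℕ → List ℕ → Bool) : Prop := ∀ j, vld (UU V) c (c, v, j) (E j)

theorem measurableSet_UU (q : ℕ) : MeasurableSet (UU V q) := MeasurableSpace.measurableSet_natGeneratingSequence q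

theorem measurable_Vd {α : Type} [MeasurableSpace α] {c : α → ℕ → ℕ} {v : α → V} {E : α → ℕ → List ℕ → Bool}
    (hc : Measurable c) (hv : Measurable v) (hE : Measurable E) : Measurable fun a => Vd (c a) (v a) (E a) := by
  unfold Vd
  exact Measurable.forall fun j => measurable_vld measurableSet_UU hc (hc.prodMk (hv.prodMk measurable_const))
    ((measurable_pi_apply j).comp hE)

/-- the pairs `(c, T)` such that `c` does not code a solution for `T` -/
def NSol (Bad : Set ((List ℕ → Bool) × V × V × ℕ × ℕ)) : Set ((ℕ → ℕ) × (List ℕ → Bool)) :=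
  {p | ¬ GoodC p.1 ∨ ∃ v v' E E', Vd p.1 v E ∧ Vd p.1 v' E' ∧ (p.2, v, v', val E, val E') ∈ Bad}

theorem measurable_pre_eq (l : ℕ) (t : List ℕ) : Measurable fun w : ℕ → ℕ => pre w l = t :=
  measurableSet_setOfPred.1 (isOpen_pre l {t}).measurableSet

theorem analyticSet_NSol {Bad : Set ((List ℕ → Bool) × V × V × ℕ × ℕ)} (hBad : MeasurableSet Bad) :
    AnalyticSet (NSol Bad) := by
  have e : NSol Bad =
      (⋃ i : Bool, if i then (⋃ N : ℕ, Prod.fst '' {q : ((ℕ → ℕ) × (List ℕ → Bool)) × (ℕ → ℕ) |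
        ∀ l, N ≤ l → q.1.1 (Encodable.encode (pre q.2 l)) = 0})
      else Prod.fst '' {q : ((ℕ → ℕ) × (List ℕ → Bool)) × (V × V × (ℕ → List ℕ → Bool) × (ℕ → List ℕ → Bool)) |
        Vd q.1.1 q.2.1 q.2.2.2.1 ∧ Vd q.1.1 q.2.2.1 q.2.2.2.2 ∧
          (q.1.2, q.2.1, q.2.2.1, val q.2.2.2.1, val q.2.2.2.2) ∈ Bad}) := by
    ext p
    rw [Set.mem_iUnion, Bool.exists_bool]
    simp only [if_true, Bool.false_eq_true, if_false, Set.mem_iUnion]
    constructor
    · rintro (h | ⟨v, v', E, E', h⟩)
      · right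
        unfold GoodC at h
        push Not at h
        obtain ⟨w, N, h⟩ := h
        exact ⟨N, (p, w), h, rfl⟩
      · exact Or.inl ⟨(p, v, v', E, E'), h, rfl⟩
    · rintro (⟨⟨p', v, v', E, E'⟩, h, rfl⟩ | ⟨N, ⟨p', w⟩, h, rfl⟩)
      · exact Or.inr ⟨v, v', E, E', h⟩
      · left
        intro hg
        obtain ⟨l, h1, h2⟩ := hg w N
        exact h2 (h l h1)
  rw [e]
  refine AnalyticSet.iUnion fun i => ?_
  cases i
  · simp only [Bool.false_eq_true, if_false]
    refine MeasurableSet.analyticSet_image ?_ measurable_fst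
    apply measurableSet_setOfPred.2
    have h1 : Measurable fun q : ((ℕ → ℕ) × (List ℕ → Bool)) ×
        (V × V × (ℕ → List ℕ → Bool) × (ℕ → List ℕ → Bool)) => q.1.1 := measurable_fst.comp measurable_fst
    have h2 : Measurable fun q : ((ℕ → ℕ) × (List ℕ → Bool)) ×
        (V × V × (ℕ → List ℕ → Bool) × (ℕ → List ℕ → Bool)) => q.2.1 := measurable_fst.comp measurable_snd
    have h3 : Measurable fun q : ((ℕ → ℕ) × (List ℕ → Bool)) ×
        (V × V × (ℕ → List ℕ → Bool) × (ℕ → List ℕ → Bool)) => q.2.2.1 :=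
      measurable_fst.comp (measurable_snd.comp measurable_snd)
    have h4 : Measurable fun q : ((ℕ → ℕ) × (List ℕ → Bool)) ×
        (V × V × (ℕ → List ℕ → Bool) × (ℕ → List ℕ → Bool)) => q.2.2.2.1 :=
      measurable_fst.comp (measurable_snd.comp (measurable_snd.comp measurable_snd))
    have h5 : Measurable fun q : ((ℕ → ℕ) × (List ℕ → Bool)) ×
        (V × V × (ℕ → List ℕ → Bool) × (ℕ → List ℕ → Bool)) => q.2.2.2.2 :=
      measurable_snd.comp (measurable_snd.comp (measurable_snd.comp measurable_snd))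
    have h6 : Measurable fun q : ((ℕ → ℕ) × (List ℕ → Bool)) ×
        (V × V × (ℕ → List ℕ → Bool) × (ℕ → List ℕ → Bool)) => q.1.2 := measurable_snd.comp measurable_fst
    refine (measurable_Vd h1 h2 h4).and ((measurable_Vd h1 h3 h5).and ?_)
    apply measurableSet_setOfPred.1
    exact (h6.prodMk (h2.prodMk (h3.prodMk ((measurable_val.comp h4).prodMk (measurable_val.comp h5))))) hBad
  · simp only [if_true]
    refine AnalyticSet.iUnion fun N => MeasurableSet.analyticSet_image ?_ measurable_fst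
    apply measurableSet_setOfPred.2
    refine Measurable.forall fun l => Measurable.imp measurable_const ?_
    have e2 : (fun q : ((ℕ → ℕ) × (List ℕ → Bool)) × (ℕ → ℕ) => q.1.1 (Encodable.encode (pre q.2 l)) = 0) =
        fun q => ∀ t : List ℕ, pre q.2 l = t → q.1.1 (Encodable.encode t) = 0 := by
      funext q
      rw [eq_iff_iff]
      exact ⟨fun h t ht => ht ▸ h, fun h => h _ rfl⟩
    rw [e2]
    refine Measurable.forall fun t => Measurable.imp ((measurable_pre_eq l t).comp measurable_snd) ?_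
    exact mp_eq ((measurable_pi_apply _).comp (measurable_fst.comp measurable_fst)) 0

end

end Pool.Agent.Helper56.CI
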