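import Pool.Agent.Helper56.CI.Eng1

/-! # The engine -/

set_option autoImplicit false

open MeasureTheory

namespace Pool.Agent.Helper56.CI

section

variable {V : Type} [TopologicalSpace V] [PolishSpace V] [MeasurableSpace V] [BorelSpace V]

theorem GoodC.exists_Vd {c : ℕ → ℕ} (h : GoodC c) (v : V) : ∃ E, Vd c v E := by
  choose E hE using fun j => h.exists_vld (UU V) (c, v, j)
  exact ⟨E, hE⟩

theorem GoodC.unique_Vd {c : ℕ → ℕ} (h : GoodC c) {v : V} {E E' : ℕ → List ℕ → Bool} (hE : Vd c v E)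
    (hE' : Vd c v E') : E = E' := funext fun j => h.unique (hE j) (hE' j)

theorem exists_code {κ : (ℕ → ℕ) × V → ℕ} (hκ : Measurable κ) :
    ∃ c, GoodC c ∧ ∀ v E, Vd c v E → val E = κ (c, v) := by
  have hA : MeasurableSet {p : (ℕ → ℕ) × V × ℕ | κ (p.1, p.2.1) = p.2.2} := by
    apply measurableSet_eq_fun
    · exact hκ.comp (measurable_fst.prodMk (measurable_fst.comp measurable_snd))
    · exact measurable_snd.comp measurable_snd
  obtain ⟨c, hc1, hc2⟩ := exists_Cd (U := UU V) (MeasurableSpace.generateFrom_natGeneratingSequence _).symm hA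
  refine ⟨c, hc1, fun v E hE => ?_⟩
  have h1 : {j | E j [] = true} = {κ (c, v)} := by
    ext j
    rw [Set.mem_ofPred_eq, hc2 _ _ (hE j)]
    exact eq_comm
  unfold val
  rw [h1]
  exact csInf_singleton _

theorem GoodC.measurable_value {c : ℕ → ℕ} (h : GoodC c) :
    ∃ κ : V → ℕ, Measurable κ ∧ ∀ v E, Vd c v E → val E = κ v := by
  choose e he using fun p : (ℕ → ℕ) × V × ℕ => h.exists_vld (UU V) p
  have hcd : Cd (UU V) c {p | e p [] = true} := by
    refine ⟨h, fun p e' he' => ?_⟩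
    rw [h.unique he' (he p)]
    rfl
  have hm := hcd.measurableSet measurableSet_UU
  refine ⟨fun v => sInf {j | e (c, v, j) [] = true}, ?_, ?_⟩
  · apply measurable_sInf_nat
    intro j
    exact (measurable_const.prodMk (measurable_id.prodMk measurable_const)) hm
  · intro v E hE
    unfold val
    congr 1
    ext j
    rw [Set.mem_ofPred_eq, Set.mem_ofPred_eq, h.unique (hE j) (he (c, v, j))]

variable {Bad : Set ((List ℕ → Bool) × V × V × ℕ × ℕ)}
  {ΛP : List ℕ → (ℕ → Bool) × (ℕ → ℕ) → Prop} {ΛS : List ℕ → (ℕ → ℕ) × (List ℕ → Bool) → Prop}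
  {C : Set ((ℕ → Bool) × (ℕ → ℕ))}

theorem eng_branch (hP : Rep agP Cᶜ ΛP) (hS : Rep agS (NSol Bad) ΛS)
    (H1 : ∀ T : List ℕ → Bool, (∀ z, ¬ Br T z) →
      ¬ ∃ κ : V → ℕ, Measurable κ ∧ ∀ v v', (T, v, v', κ v, κ v') ∉ Bad)
    (x : ℕ → Bool) (c : ℕ → ℕ) : ∃ w, Br (TT ΛP ΛS x c) w := by
  by_contra hno
  push Not at hno
  have hns : (c, TT ΛP ΛS x c) ∉ NSol Bad := by
    intro hin
    obtain ⟨u, hu⟩ := (hS.mem_iff _).1 hin
    let w : ℕ → ℕ := fun k =>
      if k % 2 = 0 then 0 else Encodable.encode (pre u (Denumerable.ofNat (List ℕ) (k / 2)).length)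
    have hw : ∀ σ, ew w σ = pre u σ.length := by
      intro σ
      have h1 : ¬ (2 * Encodable.encode σ + 1) % 2 = 0 := by omega
      have h2 : (2 * Encodable.encode σ + 1) / 2 = Encodable.encode σ := by omega
      simp only [ew, w, if_neg h1, h2, Denumerable.ofNat_encode]
    apply hno w
    rw [branch_iff hP hS]
    intro σ _
    rw [hw, length_pre]
    refine ⟨rfl, hu _, ?_⟩
    rintro σ' a rfl
    refine ⟨u σ'.length, ?_⟩
    rw [hw, List.length_append, List.length_singleton, pre_succ]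
  simp only [NSol, Set.mem_ofPred_eq, not_or, not_not, not_exists, not_and] at hns
  obtain ⟨hg, hsol⟩ := hns
  obtain ⟨κ, hκm, hκ⟩ := hg.measurable_value (V := V)
  apply H1 _ hno
  refine ⟨κ, hκm, fun v v' => ?_⟩
  obtain ⟨E, hE⟩ := hg.exists_Vd v
  obtain ⟨E', hE'⟩ := hg.exists_Vd v'
  have := hsol v v' E E' hE hE'
  rwa [hκ v E hE, hκ v' E' hE'] at this

theorem eng_neg (hP : Rep agP Cᶜ ΛP) (hS : Rep agS (NSol Bad) ΛS)
    (hbr : ∀ (x : ℕ → Bool) (c : ℕ → ℕ), ∃ w, Br (TT ΛP ΛS x c) w)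
    {x : ℕ → Bool} (hx : ∀ y, (x, y) ∉ C) {κ : (ℕ → ℕ) × V → ℕ} (hκ : Measurable κ)
    (hsol : ∀ c v v', (TT ΛP ΛS x c, v, v', κ (c, v), κ (c, v')) ∉ Bad) : False := by
  obtain ⟨c, hc1, hc2⟩ := exists_code hκ
  have hns : (c, TT ΛP ΛS x c) ∉ NSol Bad := by
    rintro (h | ⟨v, v', E, E', hE, hE', h⟩)
    · exact h hc1
    · apply hsol c v v'
      rwa [hc2 v E hE, hc2 v' E' hE'] at h
  obtain ⟨w, hw⟩ := hbr x c
  rw [branch_iff hP hS] at hw
  obtain ⟨u, hu⟩ := (hP.mem_iff (x, fun i => w (2 * i))).1 (hx _)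
  have h1 : ∀ l, ∃ a, ew w (pre u (l + 1)) = ew w (pre u l) ++ [a] :=
    fun l => (hw _ (hu (l + 1))).2.2 _ _ (pre_succ u l)
  choose v hv using h1
  have h2 : ∀ l, pre v l = ew w (pre u l) := by
    intro l
    induction l with
    | zero =>
      have := (hw _ (hu 0)).1
      rw [pre_zero] at this
      rw [pre_zero, pre_zero]
      exact (List.length_eq_zero_iff.1 this).symm
    | succ l ih => rw [pre_succ, hv l, ih]
  apply hns
  rw [hS.mem_iff]
  exact ⟨v, fun l => by rw [h2]; exact (hw _ (hu l)).2.1⟩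

/-! ## The positive case -/

/-- the child relation on the well-founded tree -/
def rU (LP : List ℕ → Prop) (σ' σ : List ℕ) : Prop := LP σ' ∧ ∃ a, σ' = σ ++ [a]

theorem wf_rU {LP : List ℕ → Prop} (hdown : ∀ t a, LP (t ++ [a]) → LP t)
    (h : ∀ u : ℕ → ℕ, ∃ l, ¬ LP (pre u l)) : WellFounded (rU LP) := by
  apply wf_of_chain (fun _ _ h => h.2)
  intro w N
  by_contra hcon
  push Not at hcon
  obtain ⟨l, hl⟩ := h w
  have h1 : ∀ l, N ≤ l → LP (pre w (l + 1)) := fun l hl => (hcon l hl).1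
  have h2 : ∀ l j, LP (pre w (l + j)) → LP (pre w l) := by
    intro l j
    induction j with
    | zero => exact fun h => h
    | succ j ih =>
      intro h
      apply ih
      rw [show l + (j + 1) = (l + j) + 1 from rfl, pre_succ] at h
      exact hdown _ _ h
  apply hl
  apply h2 l (N + 1)
  have := h1 (l + N) (by omega)
  exact this

/-- the nodes of `W` of rank at least the rank of `σ` -/
noncomputable def GG {LP : List ℕ → Prop} (hwf : WellFounded (rU LP)) (W : (ℕ → ℕ) → List ℕ → Prop) :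
    List ℕ → (ℕ → ℕ) → List ℕ → Prop :=
  hwf.fix (C := fun _ => (ℕ → ℕ) → List ℕ → Prop) fun σ f c ρ =>
    W c ρ ∧ ∀ a (h : LP (σ ++ [a])), ∃ a', f (σ ++ [a]) ⟨h, a, rfl⟩ c (ρ ++ [a'])

theorem GG_iff {LP : List ℕ → Prop} (hwf : WellFounded (rU LP)) (W : (ℕ → ℕ) → List ℕ → Prop)
    (σ : List ℕ) (c : ℕ → ℕ) (ρ : List ℕ) :
    GG hwf W σ c ρ ↔ W c ρ ∧ ∀ a, LP (σ ++ [a]) → ∃ a', GG hwf W (σ ++ [a]) c (ρ ++ [a']) := by
  unfold GG
  rw [hwf.fix_eq]

theorem measurable_GG {LP : List ℕ → Prop} (hwf : WellFounded (rU LP)) (W : (ℕ → ℕ) → List ℕ → Prop)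
    (hW : ∀ ρ, Measurable fun c => W c ρ) (σ : List ℕ) : ∀ ρ, Measurable fun c => GG hwf W σ c ρ := by
  induction σ using hwf.induction with
  | _ σ ih =>
    intro ρ
    simp only [GG_iff hwf W σ]
    refine (hW ρ).and (Measurable.forall fun a => ?_)
    by_cases h : LP (σ ++ [a])
    · simp only [h, forall_const]
      exact Measurable.exists fun a' => ih _ ⟨h, a, rfl⟩ _
    · simp only [h, IsEmpty.forall_iff]
      exact measurable_const

/-- the next letter -/
noncomputable def ch {LP : List ℕ → Prop} (hwf : WellFounded (rU LP)) (W : (ℕ → ℕ) → List ℕ → Prop)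
    (σ : List ℕ) (c : ℕ → ℕ) (ρ : List ℕ) : ℕ := sInf {a' | GG hwf W σ c (ρ ++ [a'])}

/-- the step on the pairs -/
noncomputable def stpF {LP : List ℕ → Prop} (hwf : WellFounded (rU LP)) (W : (ℕ → ℕ) → List ℕ → Prop)
    (c : ℕ → ℕ) (p : List ℕ × List ℕ) (a : ℕ) : List ℕ × List ℕ :=
  (p.1 ++ [a], p.2 ++ [ch hwf W (p.1 ++ [a]) c p.2])

/-- the map on the pairs -/
noncomputable def stp {LP : List ℕ → Prop} (hwf : WellFounded (rU LP)) (W : (ℕ → ℕ) → List ℕ → Prop)
    (c : ℕ → ℕ) (σ : List ℕ) : List ℕ × List ℕ :=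
  σ.foldl (stpF hwf W c) ([], [])

theorem stp_append {LP : List ℕ → Prop} (hwf : WellFounded (rU LP)) (W : (ℕ → ℕ) → List ℕ → Prop)
    (c : ℕ → ℕ) (σ : List ℕ) (a : ℕ) : stp hwf W c (σ ++ [a]) = stpF hwf W c (stp hwf W c σ) a := by
  unfold stp
  rw [List.foldl_append]
  rfl

theorem stp_fst {LP : List ℕ → Prop} (hwf : WellFounded (rU LP)) (W : (ℕ → ℕ) → List ℕ → Prop)
    (c : ℕ → ℕ) (σ : List ℕ) : (stp hwf W c σ).1 = σ := by
  induction σ using List.reverseRecOn with
  | nil => rfl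
  | append_singleton σ a ih =>
    rw [stp_append]
    show (stp hwf W c σ).1 ++ [a] = _
    rw [ih]

/-- the embedding of the tree -/
noncomputable def emb {LP : List ℕ → Prop} (hwf : WellFounded (rU LP)) (W : (ℕ → ℕ) → List ℕ → Prop)
    (c : ℕ → ℕ) (σ : List ℕ) : List ℕ := (stp hwf W c σ).2

theorem emb_nil {LP : List ℕ → Prop} (hwf : WellFounded (rU LP)) (W : (ℕ → ℕ) → List ℕ → Prop)
    (c : ℕ → ℕ) : emb hwf W c [] = [] := rfl

theorem emb_append {LP : List ℕ → Prop} (hwf : WellFounded (rU LP)) (W : (ℕ → ℕ) → List ℕ → Prop)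
    (c : ℕ → ℕ) (σ : List ℕ) (a : ℕ) :
    emb hwf W c (σ ++ [a]) = emb hwf W c σ ++ [ch hwf W (σ ++ [a]) c (emb hwf W c σ)] := by
  unfold emb
  rw [stp_append]
  show (stp hwf W c σ).2 ++ [ch hwf W ((stp hwf W c σ).1 ++ [a]) c (stp hwf W c σ).2] = _
  rw [stp_fst]

theorem length_emb {LP : List ℕ → Prop} (hwf : WellFounded (rU LP)) (W : (ℕ → ℕ) → List ℕ → Prop)
    (c : ℕ → ℕ) (σ : List ℕ) : (emb hwf W c σ).length = σ.length := by
  induction σ using List.reverseRecOn with
  | nil => rfl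
  | append_singleton σ a ih => rw [emb_append, List.length_append, List.length_append, ih]; rfl

theorem GG_emb {LP : List ℕ → Prop} (hdown : ∀ t a, LP (t ++ [a]) → LP t) (hwf : WellFounded (rU LP))
    (W : (ℕ → ℕ) → List ℕ → Prop) (c : ℕ → ℕ) (h : GG hwf W [] c []) (σ : List ℕ) :
    LP σ → GG hwf W σ c (emb hwf W c σ) := by
  induction σ using List.reverseRecOn with
  | nil => exact fun _ => h
  | append_singleton σ a ih =>
    intro hσ
    have h1 := ih (hdown _ _ hσ)
    rw [GG_iff] at h1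
    obtain ⟨a', ha'⟩ := h1.2 a hσ
    rw [emb_append]
    exact Nat.sInf_mem (s := {a' | GG hwf W (σ ++ [a]) c (emb hwf W c σ ++ [a'])}) ⟨a', ha'⟩

theorem measurable_emb {LP : List ℕ → Prop} (hwf : WellFounded (rU LP)) (W : (ℕ → ℕ) → List ℕ → Prop)
    (hW : ∀ ρ, Measurable fun c => W c ρ) (σ : List ℕ) : ∀ ρ, Measurable fun c => emb hwf W c σ = ρ := by
  induction σ using List.reverseRecOn with
  | nil =>
    intro ρ
    simp only [emb_nil]
    exact measurable_const
  | append_singleton σ a ih =>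
    intro ρ
    have e : (fun c => emb hwf W c (σ ++ [a]) = ρ) = fun c => ∃ τ q, emb hwf W c σ = τ ∧
        ch hwf W (σ ++ [a]) c τ = q ∧ τ ++ [q] = ρ := by
      funext c
      rw [eq_iff_iff, emb_append]
      constructor
      · intro h; exact ⟨_, _, rfl, rfl, h⟩
      · rintro ⟨_, _, rfl, rfl, h⟩; exact h
    rw [e]
    refine Measurable.exists fun τ => Measurable.exists fun q => (ih τ).and (Measurable.and ?_ measurable_const)
    apply mp_eq
    exact measurable_sInf_nat fun t => measurableSet_setOfPred.2 (measurable_GG hwf W hW _ _)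

theorem eng_pos (hP : Rep agP Cᶜ ΛP) (hS : Rep agS (NSol Bad) ΛS)
    {Φ : (ℕ → ℕ) × V → ℕ} (hΦ : Measurable Φ)
    (H2 : ∀ T z, Br T z → ∀ v v', (T, v, v', Φ (z, v), Φ (z, v')) ∉ Bad)
    {x : ℕ → Bool} {y : ℕ → ℕ} (hx : (x, y) ∈ C) :
    ∃ κ : (ℕ → ℕ) × V → ℕ, Measurable κ ∧
      ∀ c v v', (TT ΛP ΛS x c, v, v', κ (c, v), κ (c, v')) ∉ Bad := by
  classical
  set LP : List ℕ → Prop := fun σ => ΛP σ (x, y) with hLP
  have hdown : ∀ t a, LP (t ++ [a]) → LP t := fun t a h => hP.down t a _ h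
  have hwf : WellFounded (rU LP) := by
    apply wf_rU hdown
    intro u
    by_contra hcon
    push Not at hcon
    exact (hP.mem_iff (x, y)).2 ⟨u, hcon⟩ hx
  set W : (ℕ → ℕ) → List ℕ → Prop := fun c ρ => ΛS ρ (c, TT ΛP ΛS x c) with hWdef
  have hTm : Measurable (fun c : ℕ → ℕ => TT ΛP ΛS x c) :=
    (measurable_TT hP hS).comp (measurable_const.prodMk measurable_id)
  have hW : ∀ ρ, Measurable fun c => W c ρ := fun ρ =>
    (measurableSet_setOfPred.1 (hS.measurableSet agr_agS ρ)).comp (measurable_id.prodMk hTm)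
  -- the first case
  let w : (ℕ → ℕ) → ℕ → ℕ := fun c k =>
    if k % 2 = 0 then y (k / 2) else Encodable.encode (emb hwf W c (Denumerable.ofNat (List ℕ) (k / 2)))
  have hwm : Measurable w := by
    refine measurable_pi_iff.2 fun k => ?_
    by_cases hk : k % 2 = 0
    · simp only [w, if_pos hk]; exact measurable_const
    · simp only [w, if_neg hk]
      apply measurable_to_countable'
      intro q
      have e : (fun c => Encodable.encode (emb hwf W c (Denumerable.ofNat (List ℕ) (k / 2)))) ⁻¹' {q} =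
          {c | emb hwf W c (Denumerable.ofNat (List ℕ) (k / 2)) = Denumerable.ofNat (List ℕ) q} := by
        ext c
        simp only [Set.mem_preimage, Set.mem_singleton_iff, Set.mem_ofPred_eq]
        constructor
        · intro h; rw [← h, Denumerable.ofNat_encode]
        · intro h; rw [h, Denumerable.encode_ofNat]
      rw [e]
      exact measurableSet_setOfPred.2 (measurable_emb hwf W hW _ _)
  have hbr : ∀ c, GG hwf W [] c [] → Br (TT ΛP ΛS x c) (w c) := by
    intro c hc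
    have hw1 : ∀ σ, ew (w c) σ = emb hwf W c σ := by
      intro σ
      have h1 : ¬ (2 * Encodable.encode σ + 1) % 2 = 0 := by omega
      have h2 : (2 * Encodable.encode σ + 1) / 2 = Encodable.encode σ := by omega
      simp only [ew, w, if_neg h1, h2, Denumerable.ofNat_encode]
    have hw2 : (fun i => w c (2 * i)) = y := by
      funext i
      have h1 : (2 * i) % 2 = 0 := by omega
      have h2 : 2 * i / 2 = i := by omega
      simp only [w, if_pos h1, h2]
    rw [branch_iff hP hS, hw2]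
    intro σ hσ
    rw [hw1]
    refine ⟨length_emb _ _ _ _, ((GG_iff hwf W _ _ _).1 (GG_emb hdown hwf W c hc σ hσ)).1, ?_⟩
    rintro σ' a rfl
    rw [hw1, emb_append]
    exact ⟨_, rfl⟩
  -- the second case
  have hns : ∀ c, ¬ GG hwf W [] c [] → (c, TT ΛP ΛS x c) ∉ NSol Bad := by
    intro c hc hin
    obtain ⟨u, hu⟩ := (hS.mem_iff _).1 hin
    apply hc
    have key : ∀ σ : List ℕ, GG hwf W σ c (pre u σ.length) := by
      intro σ
      induction σ using hwf.induction with
      | _ σ ih =>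
        rw [GG_iff]
        refine ⟨hu _, fun a ha => ⟨u σ.length, ?_⟩⟩
        have := ih _ ⟨ha, a, rfl⟩
        rwa [List.length_append, List.length_singleton, pre_succ] at this
    exact key []
  have hgood : ∀ c, ¬ GG hwf W [] c [] → GoodC c := by
    intro c hc
    by_contra hg
    exact hns c hc (Or.inl hg)
  let κS : (ℕ → ℕ) × V → ℕ := fun p => if h : ∃ E, Vd p.1 p.2 E then val (Classical.choose h) else 0
  have hκS : ∀ c v E, GoodC c → Vd c v E → κS (c, v) = val E := by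
    intro c v E hc hE
    have h : ∃ E, Vd (c, v).1 (c, v).2 E := ⟨E, hE⟩
    simp only [κS, dif_pos h]
    rw [hc.unique_Vd (Classical.choose_spec h) hE]
  have hGm : Measurable fun p : (ℕ → ℕ) × V => GG hwf W [] p.1 [] :=
    (measurable_GG hwf W hW [] []).comp measurable_fst
  let S : ℕ → Set ((ℕ → ℕ) × V) := fun j => {p | ¬ GG hwf W [] p.1 [] ∧ κS p = j}
  have hSan : ∀ j, AnalyticSet (S j) := by
    intro j
    have e : S j = Prod.fst '' {q : ((ℕ → ℕ) × V) × (ℕ → List ℕ → Bool) |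
        ¬ GG hwf W [] q.1.1 [] ∧ Vd q.1.1 q.1.2 q.2 ∧ val q.2 = j} := by
      ext ⟨c, v⟩
      constructor
      · rintro ⟨h1, h2⟩
        obtain ⟨E, hE⟩ := (hgood c h1).exists_Vd v
        exact ⟨((c, v), E), ⟨h1, hE, by rw [← h2]; exact (hκS c v E (hgood c h1) hE).symm⟩, rfl⟩
      · rintro ⟨⟨⟨c', v'⟩, E⟩, ⟨h1, h2, h3⟩, h4⟩
        obtain ⟨rfl, rfl⟩ := Prod.mk.inj h4
        exact ⟨h1, by rw [← h3]; exact hκS _ _ E (hgood _ h1) h2⟩
    rw [e]
    refine MeasurableSet.analyticSet_image ?_ measurable_fst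
    apply measurableSet_setOfPred.2
    refine (hGm.comp measurable_fst).not.and (Measurable.and ?_ ?_)
    · exact measurable_Vd (measurable_fst.comp measurable_fst) (measurable_snd.comp measurable_fst) measurable_snd
    · exact mp_eq (measurable_val.comp measurable_snd) j
  have hSm : ∀ j, MeasurableSet (S j) := by
    intro j
    apply (hSan j).measurableSet_of_compl
    have e : (S j)ᶜ = ⋃ i : ℕ, if i = j then {p : (ℕ → ℕ) × V | GG hwf W [] p.1 []} else S i := by
      ext p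
      simp only [Set.mem_compl_iff, Set.mem_iUnion]
      constructor
      · intro h
        by_cases hp : GG hwf W [] p.1 []
        · exact ⟨j, by rw [if_pos rfl]; exact hp⟩
        · refine ⟨κS p, ?_⟩
          have h1 : κS p ≠ j := fun h2 => h ⟨hp, h2⟩
          rw [if_neg h1]
          exact ⟨hp, rfl⟩
      · rintro ⟨i, hi⟩ ⟨h1, h2⟩
        by_cases hij : i = j
        · rw [if_pos hij] at hi
          exact h1 hi
        · rw [if_neg hij] at hi
          exact hij (hi.2.symm.trans h2)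
    rw [e]
    refine AnalyticSet.iUnion fun i => ?_
    by_cases hij : i = j
    · rw [if_pos hij]
      exact (measurableSet_setOfPred.2 hGm).analyticSet
    · rw [if_neg hij]
      exact hSan i
  refine ⟨fun p => if GG hwf W [] p.1 [] then Φ (w p.1, p.2) else κS p, ?_, ?_⟩
  · apply measurable_to_countable'
    intro j
    have e : (fun p : (ℕ → ℕ) × V => if GG hwf W [] p.1 [] then Φ (w p.1, p.2) else κS p) ⁻¹' {j} =
        ({p | GG hwf W [] p.1 []} ∩ {p | Φ (w p.1, p.2) = j}) ∪ S j := by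
      ext p
      simp only [Set.mem_preimage, Set.mem_singleton_iff, Set.mem_union, Set.mem_inter_iff, Set.mem_ofPred_eq, S]
      by_cases hp : GG hwf W [] p.1 []
      · simp [hp]
      · simp [hp]
    rw [e]
    refine ((measurableSet_setOfPred.2 hGm).inter ?_).union (hSm j)
    exact (hΦ.comp ((hwm.comp measurable_fst).prodMk measurable_snd)) (measurableSet_singleton j)
  · intro c v v'
    by_cases hc : GG hwf W [] c []
    · simp only [if_pos hc]
      exact H2 _ _ (hbr c hc) v v'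
    · simp only [if_neg hc]
      have h1 := hns c hc
      simp only [NSol, Set.mem_ofPred_eq, not_or, not_not, not_exists, not_and] at h1
      obtain ⟨hg, hsol⟩ := h1
      obtain ⟨E, hE⟩ := hg.exists_Vd v
      obtain ⟨E', hE'⟩ := hg.exists_Vd v'
      rw [hκS c v E hg hE, hκS c v' E' hg hE']
      exact hsol v v' E E' hE hE'

/-- The engine. -/
theorem engine (hBad : MeasurableSet Bad)
    (H1 : ∀ T : List ℕ → Bool, (∀ z, ¬ Br T z) →
      ¬ ∃ κ : V → ℕ, Measurable κ ∧ ∀ v v', (T, v, v', κ v, κ v') ∉ Bad)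
    {Φ : (ℕ → ℕ) × V → ℕ} (hΦ : Measurable Φ)
    (H2 : ∀ T z, Br T z → ∀ v v', (T, v, v', Φ (z, v), Φ (z, v')) ∉ Bad)
    (hC : AnalyticSet Cᶜ) :
    ∃ T' : (ℕ → Bool) × (ℕ → ℕ) → List ℕ → Bool, Measurable T' ∧
      ∀ x, (∃ y, (x, y) ∈ C) ↔ ∃ κ : (ℕ → ℕ) × V → ℕ, Measurable κ ∧
        ∀ c v v', (T' (x, c), v, v', κ (c, v), κ (c, v')) ∉ Bad := by
  obtain ⟨ΛP, hP⟩ := exists_rep agr_agP hC
  obtain ⟨ΛS, hS⟩ := exists_rep agr_agS (analyticSet_NSol hBad)
  refine ⟨fun p => TT ΛP ΛS p.1 p.2, measurable_TT hP hS, fun x => ⟨?_, ?_⟩⟩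
  · rintro ⟨y, hy⟩
    exact eng_pos hP hS hΦ H2 hy
  · rintro ⟨κ, hκ, hsol⟩
    by_contra hno
    push Not at hno
    exact eng_neg hP hS (eng_branch hP hS H1) hno hκ hsol

end

end Pool.Agent.Helper56.CI
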