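import Pool.Agent.Helper56.CI.Greedy
import Pool.Agent.Helper56.CI.Engine

/-! # Families of graphs -/

set_option autoImplicit false

open MeasureTheory

namespace Pool.Agent.Helper56.CI

/-- a uniformly Borel family of acyclic `n`-regular graphs -/
structure Fam {X V : Type} [MeasurableSpace X] [MeasurableSpace V] (n : ℕ) (G : X → SimpleGraph V) : Prop where
  meas : MeasurableSet {r : X × (V × V) | (G r.1).Adj r.2.1 r.2.2}
  htd : ∀ x, Htd (G x).Adj
  reg : ∀ x v, ((G x).neighborSet v).encard = n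

section

variable {X V : Type} [MeasurableSpace X] [MeasurableSpace V] {n : ℕ}

theorem HasCol.mono {A : V → V → Prop} {k l : ℕ} (h : HasCol A k) (hkl : k ≤ l) : HasCol A l := by
  obtain ⟨c, hc, h1⟩ := h
  exact ⟨c, hc, fun u v huv => ⟨lt_of_lt_of_le (h1 u v huv).1 hkl, (h1 u v huv).2⟩⟩

theorem Fam.not_hasCol {G : X → SimpleGraph V} (h : Fam n G) (x : X) [Nonempty V] {k : ℕ} (hk : k < n) :
    ¬ HasCol (G x).Adj k := by
  rintro ⟨c, _, h1⟩
  obtain ⟨v⟩ := ‹Nonempty V›
  have h2 := h.reg x v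
  have h3 : Set.InjOn (fun w => c (v, w)) ((G x).neighborSet v) := by
    intro w hw w' hw' e
    by_contra hne
    exact (h1 v w hw).2.2 w' hw' hne e
  have h4 : (fun w => c (v, w)) '' ((G x).neighborSet v) ⊆ {a : ℕ | a < k} := by
    rintro _ ⟨w, hw, rfl⟩
    exact (h1 v w hw).1
  have h5 := Set.encard_le_encard h4
  rw [h3.encard_image, h2, encard_lt] at h5
  have h6 : n ≤ k := by exact_mod_cast h5
  omega

/-- transport to the Cantor space -/
theorem Fam.transport {W : Type} [MeasurableSpace W] (θ : V ≃ᵐ W) {G : X → SimpleGraph V} (h : Fam n G) :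
    Fam n (fun x => (G x).comap θ.symm) ∧
      ∀ x k, HasCol ((G x).comap θ.symm).Adj k ↔ HasCol (G x).Adj k := by
  refine ⟨⟨?_, ?_, ?_⟩, ?_⟩
  · have h1 : Measurable fun r : X × (W × W) => (r.1, (θ.symm r.2.1, θ.symm r.2.2)) := by
      have := θ.symm.measurable
      fun_prop
    exact h1 h.meas
  · intro x w
    obtain ⟨S, hS, hcl, ht, h1, h2⟩ := h.htd x (θ.symm w)
    refine ⟨θ.symm ⁻¹' S, hS, fun u hu v huv => hcl _ hu _ huv, fun u => ht (θ.symm u),
      fun u hu v huv => h1 _ hu _ huv, fun u hu v v' hv hv' a b => ?_⟩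
    exact θ.symm.injective (h2 _ hu _ _ hv hv' a b)
  · intro x w
    have e : ((G x).comap θ.symm).neighborSet w = θ '' ((G x).neighborSet (θ.symm w)) := by
      ext u
      constructor
      · intro hu
        exact ⟨θ.symm u, hu, θ.apply_symm_apply u⟩
      · rintro ⟨v, hv, rfl⟩
        show (G x).Adj (θ.symm w) (θ.symm (θ v))
        rw [θ.symm_apply_apply]
        exact hv
    rw [e, θ.injective.encard_image]
    exact h.reg x _
  · intro x k
    constructor
    · rintro ⟨c, hc, h1⟩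
      refine ⟨fun p => c (θ p.1, θ p.2), ?_, ?_⟩
      · have := θ.measurable
        fun_prop
      · intro u v huv
        have h2 : ((G x).comap θ.symm).Adj (θ u) (θ v) := by
          show (G x).Adj (θ.symm (θ u)) (θ.symm (θ v))
          rw [θ.symm_apply_apply, θ.symm_apply_apply]
          exact huv
        refine ⟨(h1 _ _ h2).1, (h1 _ _ h2).2.1, fun w hw hne => (h1 _ _ h2).2.2 (θ w) ?_ ?_⟩
        · show (G x).Adj (θ.symm (θ u)) (θ.symm (θ w))
          rw [θ.symm_apply_apply, θ.symm_apply_apply]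
          exact hw
        · exact fun e => hne (θ.injective e)
    · rintro ⟨c, hc, h1⟩
      refine ⟨fun p => c (θ.symm p.1, θ.symm p.2), ?_, ?_⟩
      · have := θ.symm.measurable
        fun_prop
      · intro u v huv
        exact ⟨(h1 _ _ huv).1, (h1 _ _ huv).2.1, fun w hw hne => (h1 _ _ huv).2.2 _ hw
          fun e => hne (θ.symm.injective e)⟩

/-- the disjoint union of two graphs on the same set -/
def dU (G1 G2 : SimpleGraph V) : SimpleGraph (V × Bool) where
  Adj u v := (u.2 = true ∧ v.2 = true ∧ G1.Adj u.1 v.1) ∨ (u.2 = false ∧ v.2 = false ∧ G2.Adj u.1 v.1)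
  symm := ⟨by
    rintro u v (⟨h1, h2, h3⟩ | ⟨h1, h2, h3⟩)
    · exact Or.inl ⟨h2, h1, h3.symm⟩
    · exact Or.inr ⟨h2, h1, h3.symm⟩⟩
  loopless := ⟨by
    rintro u (⟨_, _, h3⟩ | ⟨_, _, h3⟩)
    · exact G1.loopless.irrefl _ h3
    · exact G2.loopless.irrefl _ h3⟩

omit [MeasurableSpace V] in
theorem dU_true {G1 G2 : SimpleGraph V} {u : V} {w : V × Bool} :
    (dU G1 G2).Adj (u, true) w ↔ ∃ v, w = (v, true) ∧ G1.Adj u v := by
  constructor
  · rintro (⟨_, h2, h3⟩ | ⟨h1, _⟩)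
    · exact ⟨w.1, Prod.ext rfl h2, h3⟩
    · exact absurd h1 (by simp)
  · rintro ⟨v, rfl, h⟩
    exact Or.inl ⟨rfl, rfl, h⟩

omit [MeasurableSpace V] in
theorem dU_false {G1 G2 : SimpleGraph V} {u : V} {w : V × Bool} :
    (dU G1 G2).Adj (u, false) w ↔ ∃ v, w = (v, false) ∧ G2.Adj u v := by
  constructor
  · rintro (⟨h1, _⟩ | ⟨_, h2, h3⟩)
    · exact absurd h1 (by simp)
    · exact ⟨w.1, Prod.ext rfl h2, h3⟩
  · rintro ⟨v, rfl, h⟩
    exact Or.inr ⟨rfl, rfl, h⟩

theorem Fam.dU {G1 G2 : X → SimpleGraph V} (h1 : Fam n G1) (h2 : Fam n G2) :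
    Fam n (fun x => dU (G1 x) (G2 x)) ∧
      ∀ x k, HasCol (CI.dU (G1 x) (G2 x)).Adj k ↔ HasCol (G1 x).Adj k ∧ HasCol (G2 x).Adj k := by
  refine ⟨⟨?_, ?_, ?_⟩, ?_⟩
  · have hm : Measurable fun r : X × ((V × Bool) × (V × Bool)) => (r.1, (r.2.1.1, r.2.2.1)) := by fun_prop
    have hb : Measurable fun r : X × ((V × Bool) × (V × Bool)) => (r.2.1.2, r.2.2.2) := by fun_prop
    have e : {r : X × ((V × Bool) × (V × Bool)) | (CI.dU (G1 r.1) (G2 r.1)).Adj r.2.1 r.2.2} =
        ({r | (r.2.1.2, r.2.2.2) ∈ ({(true, true)} : Set (Bool × Bool))} ∩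
          {r | (r.1, (r.2.1.1, r.2.2.1)) ∈ {r : X × (V × V) | (G1 r.1).Adj r.2.1 r.2.2}}) ∪
        ({r | (r.2.1.2, r.2.2.2) ∈ ({(false, false)} : Set (Bool × Bool))} ∩
          {r | (r.1, (r.2.1.1, r.2.2.1)) ∈ {r : X × (V × V) | (G2 r.1).Adj r.2.1 r.2.2}}) := by
      ext r
      simp only [CI.dU, Set.mem_ofPred_eq, Set.mem_union, Set.mem_inter_iff, Set.mem_singleton_iff,
        Prod.mk.injEq, and_assoc]
    rw [e]
    exact ((hb (measurableSet_singleton _)).inter (hm h1.meas)).union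
      ((hb (measurableSet_singleton _)).inter (hm h2.meas))
  · rintro x ⟨v, _ | _⟩
    · obtain ⟨S, hS, hcl, ht, k1, k2⟩ := h2.htd x v
      refine ⟨{u | u.2 = false ∧ u.1 ∈ S}, ⟨rfl, hS⟩, ?_, fun u => ht u.1, ?_, ?_⟩
      · rintro ⟨u, _⟩ ⟨rfl, hu⟩ w hw
        obtain ⟨w, rfl, h⟩ := dU_false.1 hw
        exact ⟨rfl, hcl _ hu _ h⟩
      · rintro ⟨u, _⟩ ⟨rfl, hu⟩ w hw
        obtain ⟨w, rfl, h⟩ := dU_false.1 hw
        exact k1 _ hu _ h
      · rintro ⟨u, _⟩ ⟨rfl, hu⟩ w w' hw hw' a b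
        obtain ⟨w, rfl, h⟩ := dU_false.1 hw
        obtain ⟨w', rfl, h'⟩ := dU_false.1 hw'
        rw [k2 _ hu _ _ h h' a b]
    · obtain ⟨S, hS, hcl, ht, k1, k2⟩ := h1.htd x v
      refine ⟨{u | u.2 = true ∧ u.1 ∈ S}, ⟨rfl, hS⟩, ?_, fun u => ht u.1, ?_, ?_⟩
      · rintro ⟨u, _⟩ ⟨rfl, hu⟩ w hw
        obtain ⟨w, rfl, h⟩ := dU_true.1 hw
        exact ⟨rfl, hcl _ hu _ h⟩
      · rintro ⟨u, _⟩ ⟨rfl, hu⟩ w hw
        obtain ⟨w, rfl, h⟩ := dU_true.1 hw
        exact k1 _ hu _ h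
      · rintro ⟨u, _⟩ ⟨rfl, hu⟩ w w' hw hw' a b
        obtain ⟨w, rfl, h⟩ := dU_true.1 hw
        obtain ⟨w', rfl, h'⟩ := dU_true.1 hw'
        rw [k2 _ hu _ _ h h' a b]
  · rintro x ⟨v, _ | _⟩
    · have e : (CI.dU (G1 x) (G2 x)).neighborSet (v, false) = (fun u => (u, false)) '' ((G2 x).neighborSet v) := by
        ext w
        constructor
        · intro hw
          obtain ⟨w, rfl, h⟩ := dU_false.1 hw
          exact ⟨w, h, rfl⟩
        · rintro ⟨w, h, rfl⟩
          exact dU_false.2 ⟨w, rfl, h⟩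
      rw [e, Function.Injective.encard_image (fun a b hab => (Prod.mk.inj hab).1)]
      exact h2.reg x v
    · have e : (CI.dU (G1 x) (G2 x)).neighborSet (v, true) = (fun u => (u, true)) '' ((G1 x).neighborSet v) := by
        ext w
        constructor
        · intro hw
          obtain ⟨w, rfl, h⟩ := dU_true.1 hw
          exact ⟨w, h, rfl⟩
        · rintro ⟨w, h, rfl⟩
          exact dU_true.2 ⟨w, rfl, h⟩
      rw [e, Function.Injective.encard_image (fun a b hab => (Prod.mk.inj hab).1)]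
      exact h1.reg x v
  · intro x k
    constructor
    · rintro ⟨c, hc, h⟩
      constructor
      · refine ⟨fun p => c ((p.1, true), (p.2, true)), by fun_prop, fun u v huv => ?_⟩
        have k1 := h (u, true) (v, true) (dU_true.2 ⟨v, rfl, huv⟩)
        exact ⟨k1.1, k1.2.1, fun w hw hne => k1.2.2 (w, true) (dU_true.2 ⟨w, rfl, hw⟩)
          fun e => hne (Prod.mk.inj e).1⟩
      · refine ⟨fun p => c ((p.1, false), (p.2, false)), by fun_prop, fun u v huv => ?_⟩
        have k1 := h (u, false) (v, false) (dU_false.2 ⟨v, rfl, huv⟩)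
        exact ⟨k1.1, k1.2.1, fun w hw hne => k1.2.2 (w, false) (dU_false.2 ⟨w, rfl, hw⟩)
          fun e => hne (Prod.mk.inj e).1⟩
    · rintro ⟨⟨c1, hc1, k1⟩, ⟨c2, hc2, k2⟩⟩
      refine ⟨fun p => if p.1.2 = true then c1 (p.1.1, p.2.1) else c2 (p.1.1, p.2.1), ?_, ?_⟩
      · have hb : Measurable fun p : (V × Bool) × (V × Bool) => p.1.2 := by fun_prop
        exact Measurable.ite (hb (measurableSet_singleton true)) (by fun_prop) (by fun_prop)
      · rintro ⟨u, _ | _⟩ v huv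
        · obtain ⟨v, rfl, h⟩ := dU_false.1 huv
          refine ⟨(k2 u v h).1, (k2 u v h).2.1, fun w hw hne => ?_⟩
          obtain ⟨w, rfl, h'⟩ := dU_false.1 hw
          exact (k2 u v h).2.2 w h' fun e => hne (by rw [e])
        · obtain ⟨v, rfl, h⟩ := dU_true.1 huv
          refine ⟨(k1 u v h).1, (k1 u v h).2.1, fun w hw hne => ?_⟩
          obtain ⟨w, rfl, h'⟩ := dU_true.1 hw
          exact (k1 u v h).2.2 w h' fun e => hne (by rw [e])

end

/-! ## The families coming from trees -/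

/-- the vertices of the completed graph -/
abbrev WW (n b : ℕ) : Type := QQ n b × List ℕ

theorem tree_family {n b : ℕ} (hb : 2 ≤ b) (hbn : b ≤ n) {X : Type} [MeasurableSpace X]
    {T : X × (ℕ → ℕ) → List ℕ → Bool} (hT : Measurable T) :
    ∃ G : X → SimpleGraph (WW n b), Fam n G ∧ (∀ x, HasCol (G x).Adj (n + b - 1)) ∧
      ∀ x, (HasCol (G x).Adj (n + b - 2) ↔
        ∃ κ : VV n b → ℕ, Sol (n + b - 2) (fun c => T (x, c)) κ) := by
  have hS := fun x => isS_SS (n := n) (b := b) (by omega) (fun c => T (x, c))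
  have hC := fun x => isCore_Kx hb hbn (hS x)
  have hK2 : MeasurableSet {q : X × QQ n b | q.2 ∈ Kx ((fun x => SS fun c => T (x, c)) q.1)} :=
    measurableSet_Kx (S := fun x => SS fun c => T (x, c)) (measurableSet_SS (n := n) (b := b) hT)
  have hK : ∀ x, MeasurableSet (Kx (SS fun c => T (x, c)) : Set (QQ n b)) := by
    intro x
    have h2 : Measurable fun p : QQ n b => (x, p) := by fun_prop
    exact h2 hK2
  refine ⟨fun x => KG (hC x), ⟨?_, ?_, ?_⟩, ?_, ?_⟩
  · exact measurableSet_KAdj (K := fun x => Kx (SS fun c => T (x, c))) measurable_dgx measurable_νx hK2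
  · exact fun x => (hC x).htd_compl
  · exact fun x v => (hC x).encard_nbrs (by omega) v
  · intro x
    obtain ⟨κ, hκ⟩ := exists_sol (n := n) hb (by omega) (fun c => T (x, c))
    exact hasCol_compl (hC x) measurable_dgx measurable_νx (hK x) (by omega) (hasCol_of_sol hκ)
  · intro x
    constructor
    · intro h
      exact sol_of_hasCol hb (hasCol_core h)
    · rintro ⟨κ, hκ⟩
      exact hasCol_compl (hC x) measurable_dgx measurable_νx (hK x) (by omega) (hasCol_of_sol hκ)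

instance : StandardBorelSpace (List ℕ) := inferInstance

theorem not_countable_WW (n b : ℕ) : ¬ Countable (WW n b) := by
  intro h
  have h1 : Function.Injective fun c : ℕ → Bool => ((((fun i => if c i then 1 else 0, fun _ => (c, c)), 0), []) :
      WW n b) := by
    intro c c' e
    have h2 := congrFun (Prod.mk.inj (Prod.mk.inj (Prod.mk.inj e).1).1).2 1
    exact (Prod.mk.inj h2).1
  have h2 : Countable (ℕ → Bool) := h1.countable
  obtain ⟨f, hf⟩ := exists_surjective_nat (ℕ → Bool)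
  obtain ⟨m, hm⟩ := hf fun i => !(f i i)
  have h3 := congrFun hm m
  cases h4 : f m m <;> simp [h4] at h3

end Pool.Agent.Helper56.CI
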