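import Pool.Agent.Helper56.CI.Fam
import Pool.Agent.Helper56.CI.Codes

/-! # Distinguishing the Borel chromatic index of acyclic regular Borel graphs -/

set_option autoImplicit false

open MeasureTheory

namespace Pool.Agent.Helper56.CI

theorem hasEdgeCol_iff {G : SimpleGraph (ℕ → Bool)}
    (hG : MeasurableSet {p : (ℕ → Bool) × (ℕ → Bool) | G.Adj p.1 p.2}) (j : ℕ) :
    HasEdgeCol G j ↔ HasCol G.Adj j := by
  classical
  constructor
  · rintro ⟨c, hc, h1, h2⟩
    refine ⟨fun p => if h : G.Adj p.1 p.2 then (c ⟨p, h⟩).val else 0, ?_, ?_⟩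
    · have hv : Measurable fun p : {p : (ℕ → Bool) × (ℕ → Bool) // G.Adj p.1 p.2} => (c p).val :=
        (Measurable.of_discrete (f := fun i : Fin j => i.val)).comp hc
      exact Measurable.dite (s := {p : (ℕ → Bool) × (ℕ → Bool) | G.Adj p.1 p.2})
        (f := fun p => (c p).val) (g := fun _ => 0) hv measurable_const hG
    · intro u v huv
      dsimp only
      rw [dif_pos huv, dif_pos huv.symm]
      refine ⟨(c _).2, by rw [h1 u v huv], fun w hw hne e => ?_⟩
      rw [dif_pos hw] at e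
      exact h2 u v w huv hw hne (Fin.ext e)
  · rintro ⟨c, hc, h⟩
    refine ⟨fun p => ⟨c p.1, (h _ _ p.2).1⟩, ?_, ?_, ?_⟩
    · apply measurable_to_countable'
      intro i
      have e : (fun p : {p : (ℕ → Bool) × (ℕ → Bool) // G.Adj p.1 p.2} => (⟨c p.1, (h _ _ p.2).1⟩ : Fin j)) ⁻¹' {i} =
          (fun p : {p : (ℕ → Bool) × (ℕ → Bool) // G.Adj p.1 p.2} => c p.1) ⁻¹' {i.val} := by
        ext p
        simp only [Set.mem_preimage, Set.mem_singleton_iff, Fin.ext_iff]
      rw [e]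
      exact (hc.comp measurable_subtype_coe) (measurableSet_singleton _)
    · intro u v huv
      exact Fin.ext (h u v huv).2.1
    · intro u v w huv huw hne e
      exact (h u v huv).2.2 w huw hne (Fin.mk.inj e)

/-- the Cantor space version of a family -/
theorem exists_cantor {V : Type} [MeasurableSpace V] [StandardBorelSpace V] (hV : ¬ Countable V) {X : Type}
    [MeasurableSpace X] {n : ℕ} {G : X → SimpleGraph V} (h : Fam n G) :
    ∃ G' : X → SimpleGraph (ℕ → Bool), Fam n G' ∧ ∀ x k, HasCol (G' x).Adj k ↔ HasCol (G x).Adj k :=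
  ⟨_, h.transport (PolishSpace.measurableEquivNatBoolOfNotCountable hV)⟩

theorem second_family {n b : ℕ} (hb : 2 ≤ b) (hbn : b ≤ n) {X : Type} [MeasurableSpace X] {B : Set X}
    {G1 : X → SimpleGraph (ℕ → Bool)} (h1 : Fam n G1) (h2 : ∀ x, HasCol (G1 x).Adj (n + b - 1))
    (h3 : ∀ x ∈ B, HasCol (G1 x).Adj (n + b - 2)) :
    ∃ G2 : X → SimpleGraph (ℕ → Bool), Fam n G2 ∧ (∀ x, HasCol (G2 x).Adj (n + b - 1)) ∧
      (∀ x ∈ B, HasCol (G2 x).Adj (n + b - 2)) ∧ ∀ x, ¬ HasCol (G2 x).Adj (n + b - 3) := by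
  by_cases hb2 : b = 2
  · subst hb2
    refine ⟨G1, h1, h2, h3, fun x => h1.not_hasCol x (by omega)⟩
  · have hT : Measurable fun (_ : X × (ℕ → ℕ)) => fun (_ : List ℕ) => false := measurable_const
    obtain ⟨G2, k1, k2, k3⟩ := tree_family (n := n) (b := b - 1) (by omega) (by omega) hT
    obtain ⟨G2', l1, l2⟩ := exists_cantor (not_countable_WW n (b - 1)) k1
    refine ⟨G2', l1, fun x => ?_, fun x _ => ?_, fun x => ?_⟩
    · rw [l2]
      exact (k2 x).mono (by omega)
    · rw [l2]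
      exact (k2 x).mono (by omega)
    · rw [l2, show n + b - 3 = n + (b - 1) - 2 by omega, k3]
      rintro ⟨κ, hκ, hsol⟩
      apply hyp1 (n := n) (b := b - 1) (T := fun _ => false) (by omega) (by omega)
      · intro z hz
        exact Bool.false_ne_true (hz 0)
      · refine ⟨fun v => κ (fun _ => 0, v), ?_, fun v v' => hsol _ v v'⟩
        have : Measurable fun v : Gam n (b - 1) → Lab => ((fun _ => 0 : ℕ → ℕ), v) := by fun_prop
        exact hκ.comp this

instance polish_V (n b : ℕ) : PolishSpace (Gam n b → Lab) := {}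

instance borel_V (n b : ℕ) : BorelSpace (Gam n b → Lab) := Pi.borelSpace

theorem main (Δ k : ℕ) (h3 : 3 ≤ Δ) (hk : Δ ≤ k) (hk' : k ≤ 2 * Δ - 2) (B : Set (ℕ → Bool))
    (hB : IsSigma12 B) :
    ∃ f : (ℕ → Bool) → (ℕ → ℕ), Measurable f ∧ ∀ x, ∃ G : SimpleGraph (ℕ → Bool),
      Codes (f x) {p | G.Adj p.1 p.2} ∧ G.IsAcyclic ∧ (∀ v, (G.neighborSet v).encard = Δ) ∧
      (x ∈ B → IsLeast {j | HasEdgeCol G j} k) ∧ (x ∉ B → IsLeast {j | HasEdgeCol G j} (k + 1)) := by
  obtain ⟨C, hC, rfl⟩ := hB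
  obtain ⟨b, hb, hbn, rfl⟩ : ∃ b, 2 ≤ b ∧ b ≤ Δ ∧ k = Δ + b - 2 := ⟨k - Δ + 2, by omega, by omega, by omega⟩
  obtain ⟨T', hT', hmain⟩ := engine (V := Gam Δ b → Lab) (measurableSet_Bad Δ b (Δ + b - 2))
    (fun T hT => hyp1 hb (by omega) hT) measurable_Phi (fun T z hz v v' => hyp2 hb h3 hz v v') hC
  obtain ⟨G1, k1, k2, k3⟩ := tree_family (n := Δ) (b := b) hb hbn hT'
  obtain ⟨G1', l1, l2⟩ := exists_cantor (not_countable_WW Δ b) k1
  have hcol : ∀ x, HasCol (G1' x).Adj (Δ + b - 2) ↔ x ∈ {x | ∃ y, (x, y) ∈ C} := by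
    intro x
    rw [l2, k3, Set.mem_ofPred_eq, hmain]
    rfl
  obtain ⟨G2, m1, m2, m3, m4⟩ := second_family (B := {x | ∃ y, (x, y) ∈ C}) hb hbn l1
    (fun x => (l2 x _).2 (k2 x)) fun x hx => (hcol x).2 hx
  obtain ⟨p1, p2⟩ := l1.dU m1
  have hnc : ¬ Countable ((ℕ → Bool) × Bool) := by
    intro h
    have h2 : Countable (ℕ → Bool) := (Function.Injective.countable (f := fun c : ℕ → Bool => (c, true))
      fun a b hab => (Prod.mk.inj hab).1)
    obtain ⟨f, hf⟩ := exists_surjective_nat (ℕ → Bool)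
    obtain ⟨m, hm⟩ := hf fun i => !(f i i)
    have h3 := congrFun hm m
    cases h4 : f m m <;> simp [h4] at h3
  obtain ⟨G, q1, q2⟩ := exists_cantor hnc p1
  obtain ⟨f, hf, hcode⟩ := hasCode_of_measurable q1.meas
  refine ⟨f, hf, fun x => ⟨G x, hcode x, (q1.htd x).isAcyclic, q1.reg x, ?_, ?_⟩⟩
  all_goals
    have hmeas : MeasurableSet {p : (ℕ → Bool) × (ℕ → Bool) | (G x).Adj p.1 p.2} := by
      have h1 : Measurable fun p : (ℕ → Bool) × (ℕ → Bool) => (x, p) := by fun_prop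
      exact h1 q1.meas
  · intro hx
    constructor
    · show HasEdgeCol (G x) _
      rw [hasEdgeCol_iff hmeas, q2, p2]
      exact ⟨(hcol x).2 hx, m3 x hx⟩
    · intro j hj
      change HasEdgeCol (G x) j at hj
      rw [hasEdgeCol_iff hmeas, q2, p2] at hj
      by_contra hlt
      exact m4 x (hj.2.mono (by omega))
  · intro hx
    constructor
    · show HasEdgeCol (G x) _
      rw [hasEdgeCol_iff hmeas, q2, p2, show Δ + b - 2 + 1 = Δ + b - 1 by omega]
      exact ⟨(l2 x _).2 (k2 x), m2 x⟩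
    · intro j hj
      change HasEdgeCol (G x) j at hj
      rw [hasEdgeCol_iff hmeas, q2, p2] at hj
      by_contra hlt
      exact hx ((hcol x).1 (hj.1.mono (by omega)))

end Pool.Agent.Helper56.CI
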