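import Pool.Agent.Helper56.CI.Sol

/-! # Greedy colourings, and the two hypotheses of the engine -/

set_option autoImplicit false

open MeasureTheory

namespace Pool.Agent.Helper56.CI

/-- the least number which is not in `s` -/
noncomputable def mex (s : Finset ℕ) : ℕ := sInf {t | t ∉ s}

theorem mex_aux (s : Finset ℕ) : ∃ t ≤ s.card, t ∉ s := by
  by_contra h
  push Not at h
  have : Finset.range (s.card + 1) ⊆ s := fun t ht => h t (by rw [Finset.mem_range] at ht; omega)
  have h2 := Finset.card_le_card this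
  rw [Finset.card_range] at h2
  omega

theorem mex_notMem (s : Finset ℕ) : mex s ∉ s := by
  obtain ⟨t, _, ht⟩ := mex_aux s
  exact Nat.sInf_mem (s := {t | t ∉ s}) ⟨t, ht⟩

theorem mex_le (s : Finset ℕ) : mex s ≤ s.card := by
  obtain ⟨t, h, ht⟩ := mex_aux s
  exact (Nat.sInf_le ht).trans h

section

variable {H ι : Type} [MeasurableSpace H] [Fintype ι]

/-- one step -/
noncomputable def gstp (m : ℕ) (t : ι → ℕ × ℕ) : ℕ :=
  mex ((Finset.univ.filter fun j => (t j).2 < m).image fun j => (t j).1)

/-- the stages -/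
noncomputable def gstg (nb : ι → H → H) (ψ : H → ℕ) : ℕ → H → ℕ
  | 0, _ => 0
  | m + 1, h => if ψ h = m then gstp m (fun j => (gstg nb ψ m (nb j h), ψ (nb j h))) else gstg nb ψ m h

theorem measurable_gstg {nb : ι → H → H} (hnb : ∀ j, Measurable (nb j)) {ψ : H → ℕ} (hψ : Measurable ψ) (m : ℕ) :
    Measurable (gstg nb ψ m) := by
  induction m with
  | zero => exact measurable_const
  | succ m ih =>
    have h1 : Measurable fun t : ι → ℕ × ℕ => gstp m t := measurable_of_countable _
    have h2 : Measurable fun h => fun j => (gstg nb ψ m (nb j h), ψ (nb j h)) :=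
      measurable_pi_lambda _ fun j => (ih.comp (hnb j)).prodMk (hψ.comp (hnb j))
    exact Measurable.ite (hψ (measurableSet_singleton m)) (h1.comp h2) ih

theorem greedy {nb : ι → H → H} (hnb : ∀ j, Measurable (nb j)) {ψ : H → ℕ} (hψ : Measurable ψ) :
    ∃ φ : H → ℕ, Measurable φ ∧ (∀ h, φ h ≤ (Finset.univ.filter fun j => ψ (nb j h) < ψ h).card) ∧
      ∀ h j, ψ (nb j h) < ψ h → φ h ≠ φ (nb j h) := by
  have stable : ∀ h m, ψ h < m → gstg nb ψ m h = gstg nb ψ (ψ h + 1) h := by
    intro h m hm
    induction m with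
    | zero => omega
    | succ m ih =>
      by_cases h1 : ψ h = m
      · rw [h1]
      · rw [gstg, if_neg h1]
        exact ih (by omega)
  have eq : ∀ h, gstg nb ψ (ψ h + 1) h = gstp (ψ h) (fun j => (gstg nb ψ (ψ h) (nb j h), ψ (nb j h))) := by
    intro h
    rw [gstg, if_pos rfl]
  refine ⟨fun h => gstg nb ψ (ψ h + 1) h, ?_, ?_, ?_⟩
  · have h1 : Measurable fun p : H × ℕ => gstg nb ψ p.2 p.1 :=
      measurable_from_prod_countable_left fun m => measurable_gstg hnb hψ m
    have h2 : Measurable fun h : H => (h, ψ h + 1) := by fun_prop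
    exact h1.comp h2
  · intro h
    show gstg nb ψ (ψ h + 1) h ≤ _
    rw [eq]
    exact (mex_le _).trans Finset.card_image_le
  · intro h j hj
    show gstg nb ψ (ψ h + 1) h ≠ gstg nb ψ (ψ (nb j h) + 1) (nb j h)
    rw [← stable (nb j h) (ψ h) hj, eq]
    intro e
    apply mex_notMem ((Finset.univ.filter fun j => ((fun j => (gstg nb ψ (ψ h) (nb j h), ψ (nb j h))) j).2 < ψ h).image
      fun j => ((fun j => (gstg nb ψ (ψ h) (nb j h), ψ (nb j h))) j).1)
    have e2 : gstp (ψ h) (fun j => (gstg nb ψ (ψ h) (nb j h), ψ (nb j h))) = mex ((Finset.univ.filter fun j =>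
      ((fun j => (gstg nb ψ (ψ h) (nb j h), ψ (nb j h))) j).2 < ψ h).image
      fun j => ((fun j => (gstg nb ψ (ψ h) (nb j h), ψ (nb j h))) j).1) := rfl
    rw [← e2, e]
    exact Finset.mem_image.2 ⟨j, Finset.mem_filter.2 ⟨Finset.mem_univ _, hj⟩, rfl⟩

end

variable {n b : ℕ}

/-! ## A countable colouring -/

/-- the length of the code -/
noncomputable def nl (y : Gam n b → Lab) : ℕ :=
  sInf {N | ∀ (i : Fin n) (l : ZMod b), l ≠ 0 → ∃ j < N, (y 1).2 j ≠ (act (pw i l) y 1).2 j}

/-- the countable colouring -/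
noncomputable def κ0 (y : Gam n b → Lab) : ℕ := Encodable.encode ((List.range (nl y)).map (y 1).2)

theorem κ0_ne (hb : 2 ≤ b) {y : Gam n b → Lab} (hy : y ∈ XS n b) (i : Fin n) {l : ZMod b} (hl : l ≠ 0) :
    κ0 (act (pw i l) y) ≠ κ0 y := by
  intro e
  have : NeZero b := ⟨by omega⟩
  have hne : {N | ∀ (i : Fin n) (l : ZMod b), l ≠ 0 →
      ∃ j < N, (y 1).2 j ≠ (act (pw i l) y 1).2 j}.Nonempty := by
    have h1 : ∀ (i : Fin n) (l : ZMod b), ∃ j, l ≠ 0 → (y 1).2 j ≠ (act (pw i l) y 1).2 j := by
      intro i l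
      by_cases hl : l = 0
      · exact ⟨0, fun h => (h hl).elim⟩
      · have h2 : (y 1).2 ≠ (act (pw i l) y 1).2 := by
          intro h3
          rw [act_pw_one] at h3
          have h4 : (1 : Gam n b) = pw i (-l) := hy.1 h3
          exact pw_ne_one hb i (neg_ne_zero.2 hl) h4.symm
        obtain ⟨j, hj⟩ := Function.ne_iff.1 h2
        exact ⟨j, fun _ => hj⟩
    choose f hf using h1
    refine ⟨(∑ i : Fin n, ∑ l : ZMod b, f i l) + 1, fun i l hl => ⟨f i l, ?_, hf i l hl⟩⟩
    have k1 : f i l ≤ ∑ l : ZMod b, f i l :=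
      Finset.single_le_sum (f := fun l => f i l) (fun _ _ => Nat.zero_le _) (Finset.mem_univ l)
    have k2 : ∑ l : ZMod b, f i l ≤ ∑ i : Fin n, ∑ l : ZMod b, f i l :=
      Finset.single_le_sum (f := fun i => ∑ l : ZMod b, f i l) (fun _ _ => Nat.zero_le _) (Finset.mem_univ i)
    omega
  obtain ⟨j, hj, hne2⟩ := Nat.sInf_mem hne i l hl
  change j < nl y at hj
  unfold κ0 at e
  have e2 := Encodable.encode_injective e
  have e3 := congrArg List.length e2
  simp only [List.length_map, List.length_range] at e3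
  rw [e3] at e2
  apply hne2
  have e4 := congrArg (fun L : List Bool => L.getD j false) e2
  simp only [List.getD_eq_getElem?_getD, List.getElem?_map, List.getElem?_range hj, Option.map_some,
    Option.getD_some] at e4
  exact e4.symm

theorem measurable_κ0 : Measurable (κ0 : (Gam n b → Lab) → ℕ) := by
  have h1 : Measurable (nl : (Gam n b → Lab) → ℕ) := by
    apply measurable_sInf_nat
    intro N
    have e : {y : Gam n b → Lab | ∀ (i : Fin n) (l : ZMod b), l ≠ 0 →
        ∃ j < N, (y 1).2 j ≠ (act (pw i l) y 1).2 j} =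
        ⋂ i : Fin n, ⋂ l : ZMod b, ⋂ (_ : l ≠ 0), ⋃ j : ℕ, ⋃ (_ : j < N),
          {y | (y 1).2 j ≠ (act (pw i l) y 1).2 j} := by
      ext y
      simp only [Set.mem_ofPred_eq, Set.mem_iInter, Set.mem_iUnion, exists_prop]
    rw [e]
    refine MeasurableSet.iInter fun i => MeasurableSet.iInter fun l => MeasurableSet.iInter fun _ =>
      MeasurableSet.iUnion fun j => MeasurableSet.iUnion fun _ => ?_
    have h2 := measurable_act (pw i l)
    have h3 : Measurable fun y : Gam n b → Lab => ((y 1).2 j, (act (pw i l) y 1).2 j) := by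
      refine Measurable.prodMk (by fun_prop) ?_
      have h4 : Measurable fun y : Gam n b → Lab => (y 1).2 j := by fun_prop
      exact h4.comp h2
    exact h3 (MeasurableSet.of_discrete (s := {t : Bool × Bool | t.1 ≠ t.2}))
  have h2 : Measurable fun p : (Gam n b → Lab) × ℕ => Encodable.encode ((List.range p.2).map (p.1 1).2) := by
    apply measurable_from_prod_countable_left
    intro N
    have h3 : Measurable fun v : Fin N → Bool => Encodable.encode (List.ofFn v) := measurable_of_countable _
    have h4 : Measurable fun y : Gam n b → Lab => fun j : Fin N => (y 1).2 j :=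
      measurable_pi_lambda _ fun j => by fun_prop
    have e : (fun y : Gam n b → Lab => Encodable.encode ((List.range N).map (y 1).2)) =
        fun y => Encodable.encode (List.ofFn fun j : Fin N => (y 1).2 j) := by
      funext y
      congr 1
      apply List.ext_getElem
      · simp
      · intro i h1 h2
        simp
    show Measurable fun y : Gam n b → Lab => Encodable.encode ((List.range N).map (y 1).2)
    rw [e]
    exact h3.comp h4
  exact h2.comp (measurable_id.prodMk h1)

/-- the neighbours of a half-edge -/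
def hnb : Fin n ⊕ ZMod b → (Gam n b → Lab) × Fin n → (Gam n b → Lab) × Fin n
  | Sum.inl j, h => (h.1, j)
  | Sum.inr l, h => (act (pw h.2 l) h.1, h.2)

theorem exists_sol (hb : 2 ≤ b) (hn : 1 ≤ n) (T : (ℕ → ℕ) → List ℕ → Bool) :
    ∃ κ : VV n b → ℕ, Sol (n + b - 1) T κ := by
  classical
  have : NeZero b := ⟨by omega⟩
  have hnbm : ∀ j : Fin n ⊕ ZMod b, Measurable (hnb j) := by
    rintro (j | l)
    · exact measurable_fst.prodMk measurable_const
    · exact measurable_from_prod_countable_left fun i =>
        ((measurable_act (pw i l)).prodMk measurable_const :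
          Measurable fun y : Gam n b → Lab => (act (pw i l) y, i))
  have hψ : Measurable fun h : (Gam n b → Lab) × Fin n => Nat.pair (κ0 h.1) h.2 := by
    have h1 : Measurable fun t : ℕ × Fin n => Nat.pair t.1 t.2 := Measurable.of_discrete
    exact h1.comp ((measurable_κ0.comp measurable_fst).prodMk measurable_snd)
  obtain ⟨φ, hφ, hle, hne⟩ := greedy hnbm hψ
  refine ⟨fun v => enc fun i : Fin n => φ (v.2, i), ?_, ?_⟩
  · apply measurable_enc
    intro i
    fun_prop
  · rintro c y y' ⟨hy, hbad⟩
    replace hy : y ∈ XS n b := hy.1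
    apply hbad
    refine ⟨?_, ?_, ?_⟩
    · intro i
      dsimp only
      rw [cvec_enc]
      refine lt_of_le_of_lt (hle (y, i)) ?_
      have h1 : (Finset.univ.filter fun j : Fin n ⊕ ZMod b => (fun h : (Gam n b → Lab) × Fin n =>
          Nat.pair (κ0 h.1) h.2) (hnb j (y, i)) < (fun h : (Gam n b → Lab) × Fin n =>
          Nat.pair (κ0 h.1) h.2) (y, i)) ⊆ (Finset.univ.erase (Sum.inl i)).erase (Sum.inr 0) := by
        intro j hj
        have h2 := (Finset.mem_filter.1 hj).2
        rw [Finset.mem_erase, Finset.mem_erase]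
        refine ⟨?_, ?_, Finset.mem_univ _⟩
        · rintro rfl
          have h3 : hnb (Sum.inr 0 : Fin n ⊕ ZMod b) (y, i) = (y, i) := by
            show (act (pw i 0) y, i) = (y, i)
            rw [pw_zero, act_one]
          rw [h3] at h2
          exact lt_irrefl _ h2
        · rintro rfl
          exact lt_irrefl _ h2
      refine lt_of_le_of_lt (Finset.card_le_card h1) ?_
      rw [Finset.card_erase_of_mem, Finset.card_erase_of_mem (Finset.mem_univ _), Finset.card_univ,
        Fintype.card_sum, Fintype.card_fin, ZMod.card]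
      · omega
      · rw [Finset.mem_erase]
        exact ⟨by simp, Finset.mem_univ _⟩
    · intro i j hij
      dsimp only
      rw [cvec_enc, cvec_enc]
      have h1 : Nat.pair (κ0 y) i ≠ Nat.pair (κ0 y) j := by
        intro e
        exact hij (Fin.ext (Nat.pair_eq_pair.1 e).2)
      rcases lt_or_gt_of_ne h1 with h2 | h2
      · exact (hne (y, j) (Sum.inl i) h2).symm
      · exact hne (y, i) (Sum.inl j) h2
    · intro i l hl h1
      dsimp only
      rw [cvec_enc, cvec_enc]
      change y' = act (pw i l) y at h1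
      have h2 : Nat.pair (κ0 y) i ≠ Nat.pair (κ0 y') i := by
        intro e
        have := κ0_ne hb hy i hl
        rw [← h1] at this
        exact this (Nat.pair_eq_pair.1 e).1.symm
      show φ (y, i) ≠ φ (y', i)
      rcases lt_or_gt_of_ne h2 with h3 | h3
      · have h4 : hnb (Sum.inr (-l)) (y', i) = (y, i) := by
          show (act (pw i (-l)) y', i) = (y, i)
          rw [h1, act_pw_act, neg_add_cancel, pw_zero, act_one]
        have h5 := hne (y', i) (Sum.inr (-l)) (by rw [h4]; exact h3)
        rw [h4] at h5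
        exact h5.symm
      · have h4 : hnb (Sum.inr l) (y, i) = (y', i) := by
          show (act (pw i l) y, i) = (y', i)
          rw [h1]
        have h5 := hne (y, i) (Sum.inr l) (by rw [h4]; exact h3)
        rw [h4] at h5
        exact h5

/-! ## The first hypothesis -/

theorem hyp1 (hb : 2 ≤ b) (hn : 2 ≤ n) {T : List ℕ → Bool} (hT : ∀ z, ¬ Br T z) :
    ¬ ∃ κ : (Gam n b → Lab) → ℕ, Measurable κ ∧ ∀ v v', (T, v, v', κ v, κ v') ∉ Bad n b (n + b - 2) := by
  rintro ⟨κ, hκ, hsol⟩
  have : NeZero b := ⟨by omega⟩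
  have good : ∀ y ∈ XS n b, ∀ y', Good (n + b - 2) y y' (κ y) (κ y') := by
    intro y hy y'
    by_contra hne
    exact hsol y y' ⟨⟨hy, BT_of_wf hT (hy.2.1 1)⟩, hne⟩
  apply noP (n := n) (b := b) (P := fun i => {y | cvec (κ y) i < n - 1}) hb hn
  · intro i
    exact hκ (MeasurableSet.of_discrete (s := {t : ℕ | cvec t i < n - 1}))
  · intro y hy
    by_contra hcon
    push Not at hcon
    have h1 : ∀ i : Fin n, cvec (κ y) i < n - 1 := hcon
    have h2 : Function.Injective fun i : Fin n => (⟨cvec (κ y) i, h1 i⟩ : Fin (n - 1)) := by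
      intro i j e
      by_contra hij
      exact (good y hy y).2.1 i j hij (Fin.mk.inj e)
    have h3 := Fintype.card_le_of_injective _ h2
    rw [Fintype.card_fin, Fintype.card_fin] at h3
    omega
  · intro y hy i
    by_contra hcon
    push Not at hcon
    have h1 : ∀ l : ZMod b, n - 1 ≤ cvec (κ (act (pw i l) y)) i := fun l => not_lt.1 (hcon l)
    have h1' : ∀ l : ZMod b, cvec (κ (act (pw i l) y)) i < n + b - 2 := fun l =>
      (good _ (xs_act hy (pw i l)) y).1 i
    have h2 : Function.Injective fun l : ZMod b =>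
        (⟨cvec (κ (act (pw i l) y)) i - (n - 1), by have := h1 l; have := h1' l; omega⟩ : Fin (b - 1)) := by
      intro l m e
      by_contra hlm
      have e2 := Fin.mk.inj e
      have h5 := h1 l
      have h6 := h1 m
      refine (good _ (xs_act hy (pw i l)) (act (pw i m) y)).2.2 i (m - l) (sub_ne_zero.2 (Ne.symm hlm)) ?_
        (by omega)
      rw [act_pw_act, sub_add_cancel]
    have h3 := Fintype.card_le_of_injective _ h2
    rw [Fintype.card_fin, ZMod.card] at h3
    omega

/-! ## The second hypothesis -/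

/-- the solution over a branch -/
noncomputable def Phi (n b : ℕ) (p : (ℕ → ℕ) × (Gam n b → Lab)) : ℕ :=
  enc fun i : Fin n => (i.val + col b p.1 (p.2 1).1) % (n + b - 2)

theorem measurable_Phi : Measurable (Phi n b) := by
  have h1 : Measurable fun p : (ℕ → ℕ) × (Gam n b → Lab) => col b p.1 (p.2 1).1 := by
    have h2 : Measurable fun p : (ℕ → ℕ) × (Gam n b → Lab) => (p.1, (p.2 1).1) := by fun_prop
    have h3 := (measurable_col b).comp h2
    rw [show (fun p : (ℕ → ℕ) × (Gam n b → Lab) => col b p.1 (p.2 1).1) =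
      (fun p : (ℕ → ℕ) × (ℕ → Bool) => col b p.1 p.2) ∘ fun p : (ℕ → ℕ) × (Gam n b → Lab) => (p.1, (p.2 1).1)
      from rfl]
    exact h3
  have h2 : Measurable fun t : ℕ => enc fun i : Fin n => (i.val + t) % (n + b - 2) := Measurable.of_discrete
  exact h2.comp h1

theorem mod_inj {k x y : ℕ} (h : x % k = y % k) (h2 : x < y + k) (h3 : y < x + k) : x = y := by
  rcases le_total x y with h4 | h4
  · have h5 : (y - x) % k = 0 := Nat.sub_mod_eq_zero_of_mod_eq h.symm
    rw [Nat.mod_eq_of_lt (by omega)] at h5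
    omega
  · have h5 : (x - y) % k = 0 := Nat.sub_mod_eq_zero_of_mod_eq h
    rw [Nat.mod_eq_of_lt (by omega)] at h5
    omega

theorem hyp2 (hb : 2 ≤ b) (hn : 3 ≤ n) {T : List ℕ → Bool} {z : ℕ → ℕ} (hz : Br T z) (v v' : Gam n b → Lab) :
    (T, v, v', Phi n b (z, v), Phi n b (z, v')) ∉ Bad n b (n + b - 2) := by
  rintro ⟨⟨hy, hBT⟩, hbad⟩
  change v ∈ XS n b at hy
  change BT T (v 1).1 at hBT
  apply hbad
  show Good (n + b - 2) v v' (Phi n b (z, v)) (Phi n b (z, v'))
  unfold Phi
  refine ⟨?_, ?_, ?_⟩
  · intro i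
    rw [cvec_enc]
    exact Nat.mod_lt _ (by omega)
  · intro i j hij
    rw [cvec_enc, cvec_enc]
    intro e
    apply hij
    have hi := i.2
    have hj := j.2
    have := mod_inj e (by dsimp only; omega) (by dsimp only; omega)
    exact Fin.ext (by omega)
  · intro i l hl h1
    rw [cvec_enc, cvec_enc]
    subst h1
    have hy' : act (pw i l) v ∈ XS n b := xs_act hy _
    have hBT' : BT T (act (pw i l) v 1).1 := (xs_BT_pw (by omega) hy T i l).2 hBT
    have hs := hy.2.1 1
    have hs' := hy'.2.1 1
    have r := hBT.rec' hz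
    have r' := hBT'.rec' hz
    have c1 := col_le (b := b) (by omega) hs r
    have c2 := col_le (b := b) (by omega) hs' r'
    have c3 : col b z (v 1).1 ≠ col b z (act (pw i l) v 1).1 := by
      obtain ⟨q, hq⟩ := xs_coset hy i
      have h0l : (0 : ZMod b) ≠ -l := by
        intro e
        exact hl (by rw [← neg_neg l, ← e, neg_zero])
      obtain ⟨j, h1, h2, h3⟩ := coset_iter (Y := fun l => (v (pw i l)).1) (by omega) hq h0l
      rw [act_pw_one] at hs' r' ⊢
      simp only [pw_zero] at h3
      rcases h3 with h3 | h3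
      · rw [h3]
        exact col_ne (by omega) hs' r' h1 h2
      · rw [h3]
        exact (col_ne (by omega) hs r h1 h2).symm
    intro e
    apply c3
    have := mod_inj e (by dsimp only; omega) (by dsimp only; omega)
    dsimp only at this
    omega

end Pool.Agent.Helper56.CI
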