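import Pool.Agent.Helper56.CI.Tree

/-! # Lipschitz trees of analytic sets -/

set_option autoImplicit false

open MeasureTheory Filter Topology

namespace Pool.Agent.Helper56.CI

/-- agreement relations -/
structure Agr {Z : Type} [TopologicalSpace Z] (ag : ℕ → Z → Z → Prop) : Prop where
  refl : ∀ l z, ag l z z
  symm : ∀ l z z', ag l z z' → ag l z' z
  trans : ∀ l z z' z'', ag l z z' → ag l z' z'' → ag l z z''
  mono : ∀ l z z', ag (l + 1) z z' → ag l z z'
  isOpen : ∀ l z, IsOpen {z' | ag l z z'}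
  conv : ∀ z (u : ℕ → Z), (∀ l, ag l z (u l)) → Tendsto u atTop (𝓝 z)

/-- A tree representation of an analytic set. -/
structure Rep {Z : Type} [TopologicalSpace Z] (ag : ℕ → Z → Z → Prop) (A : Set Z) (Λ : List ℕ → Z → Prop) :
    Prop where
  mem_iff : ∀ z, z ∈ A ↔ ∃ w : ℕ → ℕ, ∀ l, Λ (pre w l) z
  lip : ∀ t z z', ag t.length z z' → Λ t z → Λ t z'
  down : ∀ t a z, Λ (t ++ [a]) z → Λ t z

theorem exists_rep {Z : Type} [TopologicalSpace Z] [T2Space Z] {ag : ℕ → Z → Z → Prop} (hag : Agr ag)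
    {A : Set Z} (hA : AnalyticSet A) : ∃ Λ, Rep ag A Λ := by
  rw [AnalyticSet] at hA
  rcases hA with rfl | ⟨f, hf, rfl⟩
  · refine ⟨fun _ _ => False, ⟨fun z => ?_, fun _ _ _ _ h => h, fun _ _ _ h => h⟩⟩
    simp
  · refine ⟨fun t z => ∃ w : ℕ → ℕ, pre w t.length = t ∧ ag t.length z (f w), ⟨?_, ?_, ?_⟩⟩
    · intro z
      constructor
      · rintro ⟨w, rfl⟩
        refine ⟨w, fun l => ⟨w, ?_, ?_⟩⟩
        · rw [length_pre]
        · exact hag.refl _ _
      · rintro ⟨w, hw⟩
        refine ⟨w, ?_⟩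
        choose u hu1 hu2 using hw
        simp only [length_pre] at hu1 hu2
        have h1 : Tendsto u atTop (𝓝 w) := by
          rw [tendsto_pi_nhds]
          intro i
          apply tendsto_const_nhds.congr'
          filter_upwards [eventually_gt_atTop i] with l hl
          rw [← getD_pre w hl 0, ← hu1 l, getD_pre _ hl]
        have h2 : Tendsto (fun l => f (u l)) atTop (𝓝 (f w)) := (hf.tendsto w).comp h1
        exact tendsto_nhds_unique h2 (hag.conv z _ hu2)
    · rintro t z z' h ⟨w, h1, h2⟩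
      exact ⟨w, h1, hag.trans _ _ _ _ (hag.symm _ _ _ h) h2⟩
    · rintro t a z ⟨w, h1, h2⟩
      rw [List.length_append, List.length_singleton] at h1 h2
      refine ⟨w, ?_, hag.mono _ _ _ h2⟩
      have h3 := congrArg (List.take t.length) h1
      rw [take_pre w (by omega), List.take_left'] at h3
      · exact h3
      · rfl

theorem Rep.measurableSet {Z : Type} [TopologicalSpace Z] [MeasurableSpace Z] [OpensMeasurableSpace Z]
    {ag : ℕ → Z → Z → Prop} (hag : Agr ag) {A : Set Z} {Λ : List ℕ → Z → Prop} (h : Rep ag A Λ) (t : List ℕ) :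
    MeasurableSet {z | Λ t z} := by
  apply IsOpen.measurableSet
  rw [isOpen_iff_forall_mem_open]
  intro z hz
  exact ⟨{z' | ag t.length z z'}, fun z' hz' => h.lip t z z' hz' hz, hag.isOpen _ _, hag.refl _ _⟩

/-! ## Two agreement relations -/

/-- agreement for pairs of sequences -/
def agP (l : ℕ) (p q : (ℕ → Bool) × (ℕ → ℕ)) : Prop := ∀ i < l, p.1 i = q.1 i ∧ p.2 i = q.2 i

theorem tendsto_of_ag {ι α : Type} [TopologicalSpace α] {z : ι → α} {u : ℕ → ι → α} (N : ι → ℕ)
    (h : ∀ i l, N i < l → z i = u l i) : Tendsto u atTop (𝓝 z) := by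
  rw [tendsto_pi_nhds]
  intro i
  apply tendsto_const_nhds.congr'
  filter_upwards [eventually_gt_atTop (N i)] with l hl
  exact h i l hl

theorem isOpen_ag {ι α : Type} [TopologicalSpace α] [DiscreteTopology α] (S : Set ι) (hS : S.Finite) (z : ι → α) :
    IsOpen {z' : ι → α | ∀ i ∈ S, z i = z' i} := by
  have e : {z' : ι → α | ∀ i ∈ S, z i = z' i} = ⋂ i ∈ S, (fun z' : ι → α => z' i) ⁻¹' {z i} := by
    ext z'
    simp only [Set.mem_ofPred_eq, Set.mem_iInter, Set.mem_preimage, Set.mem_singleton_iff]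
    exact forall₂_congr fun i _ => eq_comm
  rw [e]
  exact hS.isOpen_biInter fun i _ => (isOpen_discrete _).preimage (continuous_apply i)

theorem agr_agP : Agr agP where
  refl _ _ _ _ := ⟨rfl, rfl⟩
  symm _ _ _ h i hi := ⟨(h i hi).1.symm, (h i hi).2.symm⟩
  trans _ _ _ _ h h' i hi := ⟨(h i hi).1.trans (h' i hi).1, (h i hi).2.trans (h' i hi).2⟩
  mono _ _ _ h i hi := h i (by omega)
  isOpen l z := by
    have e : {z' | agP l z z'} = {z' | ∀ i ∈ {i | i < l}, z.1 i = z' i} ×ˢ {z' | ∀ i ∈ {i | i < l}, z.2 i = z' i} := by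
      ext z'
      simp only [agP, Set.mem_prod, Set.mem_ofPred_eq]
      exact forall₂_and
    rw [e]
    exact (isOpen_ag _ (Set.finite_lt_nat l) _).prod (isOpen_ag _ (Set.finite_lt_nat l) _)
  conv z u h := by
    rw [Prod.tendsto_iff]
    exact ⟨tendsto_of_ag (fun i => i) fun i l hl => (h l i hl).1,
      tendsto_of_ag (fun i => i) fun i l hl => (h l i hl).2⟩

/-- agreement for pairs of a code and a tree -/
def agS (l : ℕ) (p q : (ℕ → ℕ) × (List ℕ → Bool)) : Prop :=
  (∀ i < l, p.1 i = q.1 i) ∧ ∀ t : List ℕ, Encodable.encode t < l → p.2 t = q.2 t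

theorem agr_agS : Agr agS where
  refl _ _ := ⟨fun _ _ => rfl, fun _ _ => rfl⟩
  symm _ _ _ h := ⟨fun i hi => (h.1 i hi).symm, fun i hi => (h.2 i hi).symm⟩
  trans _ _ _ _ h h' := ⟨fun i hi => (h.1 i hi).trans (h'.1 i hi), fun i hi => (h.2 i hi).trans (h'.2 i hi)⟩
  mono _ _ _ h := ⟨fun i hi => h.1 i (by omega), fun i hi => h.2 i (by omega)⟩
  isOpen l z := by
    have e : {z' | agS l z z'} = {z' | ∀ i ∈ {i | i < l}, z.1 i = z' i} ×ˢ
        {z' | ∀ i ∈ {i : List ℕ | Encodable.encode i < l}, z.2 i = z' i} := by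
      ext z'
      simp only [agS, Set.mem_prod, Set.mem_ofPred_eq]
    rw [e]
    refine (isOpen_ag _ (Set.finite_lt_nat l) _).prod (isOpen_ag _ ?_ _)
    exact (Set.finite_lt_nat l).preimage Encodable.encode_injective.injOn
  conv z u h := by
    rw [Prod.tendsto_iff]
    exact ⟨tendsto_of_ag (fun i => i) fun i l hl => (h l).1 i hl,
      tendsto_of_ag (fun i => Encodable.encode i) fun i l hl => (h l).2 i hl⟩

end Pool.Agent.Helper56.CI
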