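import Pool.Agent.Helper56.CI.WN

/-! # No Borel solution on the full space -/

set_option autoImplicit false

namespace Pool.Agent.Helper56.CI

/-! ## Combinatorial forcing -/

theorem inf_tail {Y : Set ℕ} (hY : Y.Infinite) (N : ℕ) : ({k | k ∈ Y ∧ N < k} : Set ℕ).Infinite := by
  intro hfin
  apply hY
  apply (hfin.union (Set.finite_le_nat N)).subset
  intro k hk
  by_cases hkq : N < k
  · exact Or.inl ⟨hk, hkq⟩
  · exact Or.inr (not_lt.1 hkq)

section Ellentuck

variable (𝒲 : Finset ℕ → Set ℕ → Prop)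
  (mono : ∀ a Y Y', 𝒲 a Y → Y' ⊆ Y → Y'.Infinite → 𝒲 a Y')
  (unite : ∀ a Y, Y.Infinite → (∀ q ∈ Y, (∀ k ∈ a, k < q) → 𝒲 (insert q a) {k | k ∈ Y ∧ q < k}) → 𝒲 a Y)

include mono unite in
theorem ell_step (A : Finset (Finset ℕ)) (X : Set ℕ) (hX : X.Infinite)
    (h : ∀ a ∈ A, ∀ Y ⊆ X, Y.Infinite → ¬ 𝒲 a Y) :
    ∃ x ∈ X, ∃ X' ⊆ {k | k ∈ X ∧ x < k}, X'.Infinite ∧ ∀ a ∈ A, ∀ Y ⊆ X', Y.Infinite → ¬ 𝒲 (insert x a) Y := by
  classical
  by_contra hcon
  push Not at hcon
  -- the type of the infinite subsets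
  let Tp : Type := {Y : Set ℕ // Y ⊆ X ∧ Y.Infinite}
  have hnext : ∀ Y : Tp, ∃ (a : Finset ℕ) (Z : Tp), a ∈ A ∧ Z.1 ⊆ {k | k ∈ Y.1 ∧ sInf Y.1 < k} ∧
      𝒲 (insert (sInf Y.1) a) Z.1 := by
    rintro ⟨Y, hYX, hYi⟩
    obtain ⟨a, ha, Z, hZ, hZi, hW⟩ := hcon (sInf Y) (hYX (Nat.sInf_mem hYi.nonempty)) {k | k ∈ Y ∧ sInf Y < k}
      (fun k hk => ⟨hYX hk.1, hk.2⟩) (inf_tail hYi _)
    exact ⟨a, ⟨Z, fun k hk => hYX (hZ hk).1, hZi⟩, ha, hZ, hW⟩
  choose f g hf hg hW using hnext
  let Y : ℕ → Tp := fun j => Nat.rec ⟨X, subset_rfl, hX⟩ (fun _ Z => g Z) j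
  have hYs : ∀ j, Y (j + 1) = g (Y j) := fun _ => rfl
  let y : ℕ → ℕ := fun j => sInf (Y j).1
  have hymem : ∀ j, y j ∈ (Y j).1 := fun j => Nat.sInf_mem (Y j).2.2.nonempty
  have hYsub : ∀ i j, i ≤ j → (Y j).1 ⊆ (Y i).1 := by
    intro i j hij
    induction j, hij using Nat.le_induction with
    | base => exact subset_rfl
    | succ j _ ih =>
      intro k hk
      rw [hYs] at hk
      exact ih (hg _ hk).1
  have hylt : ∀ i j, i < j → y i < y j := by
    intro i j hij
    have h1 : y j ∈ (Y (i + 1)).1 := hYsub (i + 1) j hij (hymem j)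
    rw [hYs] at h1
    exact (hg _ h1).2
  have hinj : Function.Injective y := by
    intro i j hij
    rcases lt_trichotomy i j with h1 | h1 | h1
    · have := hylt i j h1; omega
    · exact h1
    · have := hylt j i h1; omega
  -- pigeonhole
  obtain ⟨a, haA, hainf⟩ : ∃ a ∈ A, {j | f (Y j) = a}.Infinite := by
    by_contra hno
    push Not at hno
    have h2 : (⋃ a ∈ A, {j | f (Y j) = a}).Finite := by
      apply Set.Finite.biUnion A.finite_toSet
      intro a ha
      exact Set.not_infinite.1 (by simpa using hno a ha)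
    apply Set.infinite_univ (α := ℕ)
    apply h2.subset
    intro j _
    simp only [Set.mem_iUnion, Set.mem_ofPred_eq, exists_prop, exists_eq_right']
    exact hf _
  have hZinf : (y '' {j | f (Y j) = a}).Infinite := hainf.image hinj.injOn
  have hZX : y '' {j | f (Y j) = a} ⊆ X := by
    rintro _ ⟨j, _, rfl⟩
    exact (Y j).2.1 (hymem j)
  apply h a haA _ hZX hZinf
  apply unite a _ hZinf
  rintro _ ⟨j, hj, rfl⟩ _
  have h3 := hW (Y j)
  rw [show f (Y j) = a from hj] at h3
  apply mono _ _ _ h3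
  · rintro _ ⟨⟨i, _, rfl⟩, hlt⟩
    have hji : j < i := by
      by_contra hcon
      rcases Nat.lt_or_ge i j with h4 | h4
      · have := hylt i j h4; omega
      · have : i = j := by omega
        subst this; omega
    rw [← hYs]
    exact hYsub (j + 1) i hji (hymem i)
  · exact inf_tail hZinf _

include mono unite in
theorem ellentuck (X0 : Set ℕ) (hX0 : X0.Infinite) (h0 : ∀ Y ⊆ X0, Y.Infinite → ¬ 𝒲 ∅ Y) :
    ∃ X ⊆ X0, X.Infinite ∧ ∀ a : Finset ℕ, (a : Set ℕ) ⊆ X → ∀ Y ⊆ X, Y.Infinite → ¬ 𝒲 a Y := by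
  classical
  let Tp : Type := {p : Finset ℕ × Set ℕ // p.2 ⊆ X0 ∧ p.2.Infinite ∧ (∀ k ∈ p.1, ∀ x ∈ p.2, k < x) ∧
    ∀ a ⊆ p.1, ∀ Y ⊆ p.2, Y.Infinite → ¬ 𝒲 a Y}
  have hnext : ∀ p : Tp, ∃ (x : ℕ) (p' : Tp), x ∈ p.1.2 ∧ p'.1.1 = insert x p.1.1 ∧ p'.1.2 ⊆ p.1.2 := by
    rintro ⟨⟨F, X⟩, hX0, hXi, hFX, hrej⟩
    obtain ⟨x, hx, X', hX', hXi', h⟩ := ell_step 𝒲 mono unite F.powerset X hXi
      (fun a ha => hrej a (Finset.mem_powerset.1 ha))
    refine ⟨x, ⟨⟨insert x F, X'⟩, fun k hk => hX0 (hX' hk).1, hXi', ?_, ?_⟩, hx, rfl, fun k hk => (hX' hk).1⟩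
    · intro k hk z hz
      rcases Finset.mem_insert.1 hk with rfl | hk
      · exact (hX' hz).2
      · exact hFX k hk z (hX' hz).1
    · intro a ha Y hY hYi
      by_cases hxa : x ∈ a
      · have h1 := h (a.erase x) (Finset.mem_powerset.2 (by
          intro k hk
          rcases Finset.mem_insert.1 (ha (Finset.mem_of_mem_erase hk)) with rfl | h2
          · exact ((Finset.notMem_erase _ _) hk).elim
          · exact h2)) Y hY hYi
        rwa [Finset.insert_erase hxa] at h1
      · apply hrej a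
        · intro k hk
          rcases Finset.mem_insert.1 (ha hk) with rfl | h2
          · exact (hxa hk).elim
          · exact h2
        · exact fun k hk => (hX' (hY hk)).1
        · exact hYi
  choose x g hx hg1 hg2 using hnext
  let p0 : Tp := ⟨⟨∅, X0⟩, subset_rfl, hX0, by simp, by
    intro a ha Y hY hYi
    have : a = ∅ := Finset.subset_empty.1 ha
    subst this
    exact h0 Y hY hYi⟩
  let p : ℕ → Tp := fun j => Nat.rec p0 (fun _ q => g q) j
  have hps : ∀ j, p (j + 1) = g (p j) := fun _ => rfl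
  have hF : ∀ i j, i ≤ j → (p i).1.1 ⊆ (p j).1.1 := by
    intro i j hij
    induction j, hij using Nat.le_induction with
    | base => exact subset_rfl
    | succ j _ ih =>
      rw [hps, hg1]
      exact ih.trans (Finset.subset_insert _ _)
  have hXs : ∀ i j, i ≤ j → (p j).1.2 ⊆ (p i).1.2 := by
    intro i j hij
    induction j, hij using Nat.le_induction with
    | base => exact subset_rfl
    | succ j _ ih =>
      rw [hps]
      exact (hg2 _).trans ih
  let e : ℕ → ℕ := fun j => x (p j)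
  have heX : ∀ i j, i ≤ j → e j ∈ (p i).1.2 := fun i j hij => hXs i j hij (hx _)
  have heF : ∀ i j, i < j → e i ∈ (p j).1.1 := by
    intro i j hij
    apply hF (i + 1) j hij
    rw [hps, hg1]
    exact Finset.mem_insert_self _ _
  have hlt : ∀ i j, i < j → e i < e j := fun i j hij => (p j).2.2.2.1 _ (heF i j hij) _ (heX j j le_rfl)
  have hinj : Function.Injective e := by
    intro i j hij
    rcases lt_trichotomy i j with h1 | h1 | h1
    · have := hlt i j h1; omega
    · exact h1
    · have := hlt j i h1; omega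
  refine ⟨Set.range e, ?_, Set.infinite_range_of_injective hinj, ?_⟩
  · rintro _ ⟨j, rfl⟩
    exact heX 0 j (Nat.zero_le _)
  · intro a ha Y hY hYi hW
    obtain ⟨j, hj⟩ : ∃ j, a ⊆ (p j).1.1 := by
      induction a using Finset.induction with
      | empty => exact ⟨0, Finset.empty_subset _⟩
      | insert k a hk ih =>
        -- `ih` is about all `a` with `𝒲`, redo by bounding indices
        have h1 : ∀ k' ∈ insert k a, ∃ i, e i = k' := fun k' hk' => ha hk'
        choose! ix hix using h1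
        refine ⟨(insert k a).sup ix + 1, fun k' hk' => ?_⟩
        rw [← hix k' hk']
        exact heF _ _ (Nat.lt_succ_of_le (Finset.le_sup (f := ix) hk'))
    have hYi' : (Y ∩ (p j).1.2).Infinite := by
      intro hfin
      apply hYi
      apply (hfin.union ((Set.finite_lt_nat j).image e)).subset
      intro k hk
      obtain ⟨i, rfl⟩ := hY hk
      by_cases hij : i < j
      · exact Or.inr ⟨i, hij, rfl⟩
      · exact Or.inl ⟨hk, heX j i (not_lt.1 hij)⟩
    exact (p j).2.2.2.2 a hj _ Set.inter_subset_right hYi' (mono _ _ _ hW Set.inter_subset_left hYi')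

end Ellentuck

variable {n b : ℕ} {P : Fin n → Set (Gam n b → Lab)}

theorem Wi_lower (hb : 2 ≤ b) {i : Fin n} (hP : MeasurableSet (P i)) {m1 m : ℕ} (hm : m1 ≤ m) {a : ℕ → Bool}
    {X : Set ℕ} (hX : X.Infinite) (h : Wi P i m a X) (ha0 : ∀ k, m1 ≤ k → k < m → a k = false) :
    Wi P i m1 a {k | k ∈ X ∧ m ≤ k} := by
  intro s hsm hF ha hsX
  by_contra hw
  obtain ⟨t, ht, h1⟩ := exists_move hP hw
  have h1F : (1 : Gam n b) ∈ s.F := by rw [hF]; rfl
  obtain ⟨c, hc1, hc2⟩ := ht.1.c
  have hcX : ∀ k, s.m ≤ k → k < t.m → t.a 1 k = true → k ∈ X ∧ m ≤ k := by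
    intro k h2 h3 h4
    rw [hc2 1 h1F k h2 h3] at h4
    have h5 := hc1 k h2 h3 h4
    rw [hsX] at h5
    exact h5
  have hmt : m ≤ t.m := by
    obtain ⟨k, h2, h3, h4⟩ := ht.2
    have := (hcX k h2 h3 (h4 1 h1F)).2
    omega
  have h2 : Win2 (R i) (R i)ᶜ (mkOne hb m (t.a 1) (t.u 1) X hX : St n b) (Pay P i) := by
    apply h _ rfl rfl _ rfl
    intro k hk
    show t.a 1 k = a k
    by_cases hk1 : k < m1
    · rw [ht.1.a 1 h1F k (by rw [hsm]; exact hk1), ha k hk1]
    · rw [ha0 k (not_lt.1 hk1) hk]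
      by_contra h3
      have h4 : t.a 1 k = true := by simpa using h3
      have := (hcX k (by omega) (by omega) h4).2
      omega
  refine no_both (h2.pers ?_) h1
  constructor
  · exact hmt
  · intro g hg
    rw [Set.mem_singleton_iff.1 hg]
    exact ht.1.sub h1F
  · intro g hg
    have h4 := ht.1.sup hg
    rw [hF] at h4
    exact h4
  · intro g hg k _
    rw [Set.mem_singleton_iff.1 hg]; rfl
  · intro g hg k _
    rw [Set.mem_singleton_iff.1 hg]; rfl
  · refine ⟨t.a 1, ?_, fun g hg k _ _ => by rw [Set.mem_singleton_iff.1 hg]⟩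
    intro k h4 h5 h6
    have h4' : m ≤ k := h4
    exact (hcX k (by omega) h5 h6).1
  · intro k h4 h5
    have h6 := ht.1.X k h4 h5
    rw [hsX] at h6
    exact h6.1

/-- the length of a finite set -/
def mm (a : Finset ℕ) : ℕ := a.sup (fun k => k + 1)

theorem lt_mm {a : Finset ℕ} {k : ℕ} (hk : k ∈ a) : k < mm a :=
  lt_of_lt_of_le (Nat.lt_succ_self k) (Finset.le_sup (f := fun k => k + 1) hk)

theorem mm_le {a : Finset ℕ} {q : ℕ} (h : ∀ k ∈ a, k < q) : mm a ≤ q :=
  Finset.sup_le fun k hk => h k hk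

theorem noP (hb : 2 ≤ b) (hn : 2 ≤ n) (hPm : ∀ i, MeasurableSet (P i))
    (hP1 : ∀ y ∈ XS n b, ∃ i, y ∉ P i)
    (hP2 : ∀ y ∈ XS n b, ∀ i, ∃ l : ZMod b, act (pw i l) y ∈ P i) : False := by
  classical
  have : NeZero b := ⟨by omega⟩
  let 𝒲 : Fin n → Finset ℕ → Set ℕ → Prop := fun i a Y => Wi P i (mm a) (fun k => decide (k ∈ a)) Y ∧ Y.Infinite
  have mono : ∀ i a Y Y', 𝒲 i a Y → Y' ⊆ Y → Y'.Infinite → 𝒲 i a Y' := by
    intro i a Y Y' h h1 h2
    exact ⟨Wi_pers hb h.2 h.1 ⟨le_rfl, fun _ _ => rfl, fun k h3 h4 => by omega, fun k h3 _ => h1 h3, h2⟩, h2⟩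
  have unite : ∀ i a Y, Y.Infinite → (∀ q ∈ Y, (∀ k ∈ a, k < q) → 𝒲 i (insert q a) {k | k ∈ Y ∧ q < k}) →
      𝒲 i a Y := by
    intro i a Y hY h
    refine ⟨Wi_unite hb (hPm i) ?_, hY⟩
    intro q hq hmq
    have h1 : ∀ k ∈ a, k < q := fun k hk => lt_of_lt_of_le (lt_mm hk) hmq
    have h2 := h q hq h1
    have h3 : mm (insert q a) = q + 1 := by
      apply le_antisymm
      · apply mm_le
        intro k hk
        rcases Finset.mem_insert.1 hk with rfl | hk
        · omega
        · have := h1 k hk; omega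
      · exact lt_mm (Finset.mem_insert_self q a)
    have h4 := h2.1
    rw [h3] at h4
    refine Wi_pers hb h2.2 h4 ⟨le_rfl, ?_, fun k h3 h4 => by omega, fun k h3 _ => h3, h2.2⟩
    intro k hk
    by_cases hkm : k < mm a
    · rw [if_pos hkm]
      have : k ≠ q := by omega
      simp [this]
    · rw [if_neg hkm]
      have : k ∉ a := fun h5 => hkm (lt_mm h5)
      simp [this]
  -- some `i` is rejected
  obtain ⟨i, X0, hX0i, hX0⟩ : ∃ (i : Fin n) (X0 : Set ℕ), X0.Infinite ∧ ∀ Y ⊆ X0, Y.Infinite → ¬ 𝒲 i ∅ Y := by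
    by_contra hcon
    push Not at hcon
    have h1 : ∀ S : Finset (Fin n), ∃ Y : Set ℕ, Y.Infinite ∧ ∀ i ∈ S, 𝒲 i ∅ Y := by
      intro S
      induction S using Finset.induction with
      | empty => exact ⟨Set.univ, Set.infinite_univ, by simp⟩
      | insert j S _ ih =>
        obtain ⟨Y, hY, h⟩ := ih
        obtain ⟨Y', hY', hYi', h'⟩ := hcon j Y hY
        refine ⟨Y', hYi', fun i hi => ?_⟩
        rcases Finset.mem_insert.1 hi with rfl | hi
        · exact h'
        · exact mono _ _ _ _ (h i hi) hY' hYi'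
    obtain ⟨Y, hY, h⟩ := h1 Finset.univ
    exact vertex hb hn hP1 (m := mm ∅) (a := fun k => decide (k ∈ (∅ : Finset ℕ))) hY
      (fun i => (h i (Finset.mem_univ i)).1)
  obtain ⟨X, _, hXi, hrej⟩ := ellentuck (𝒲 i) (mono i) (unite i) X0 hX0i hX0
  -- rejection at all lengths
  have hrej' : ∀ (m : ℕ) (a : ℕ → Bool) (Z : Set ℕ), Z ⊆ X → Z.Infinite → (∀ k < m, a k = true → k ∈ X) →
      ¬ Wi P i m a Z := by
    intro m a Z hZX hZ ha hW
    let A : Finset ℕ := (Finset.range m).filter (fun k => a k = true)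
    have hA : ∀ k, k ∈ A ↔ k < m ∧ a k = true := fun k => by simp [A]
    have hmA : mm A ≤ m := mm_le fun k hk => ((hA k).1 hk).1
    have hW1 : Wi P i m (fun k => decide (k ∈ A)) Z := by
      refine Wi_pers hb hZ hW ⟨le_rfl, ?_, fun k h3 h4 => by omega, fun k h3 _ => h3, hZ⟩
      intro k hk
      show decide (k ∈ A) = a k
      cases hak : a k
      · rw [decide_eq_false_iff_not, hA]
        rintro ⟨_, h⟩
        rw [hak] at h; exact absurd h (by decide)
      · rw [decide_eq_true_iff, hA]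
        exact ⟨hk, hak⟩
    have hW2 := Wi_lower hb (hPm i) hmA hZ hW1 (by
      intro k h1 _
      rw [decide_eq_false_iff_not]
      intro h2
      have := lt_mm h2
      omega)
    have hinf : ({k | k ∈ Z ∧ m ≤ k} : Set ℕ).Infinite :=
      (inf_tail hZ m).mono fun k hk => ⟨hk.1, hk.2.le⟩
    refine hrej A ?_ {k | k ∈ Z ∧ m ≤ k} (fun k hk => hZX hk.1) hinf ⟨hW2, hinf⟩
    intro k hk
    exact ha k ((hA k).1 hk).1 ((hA k).1 hk).2
  -- the chain
  let e : ℕ → ℕ := Nat.nth (fun k => k ∈ X)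
  have heX : ∀ j, e j ∈ X := fun j => Nat.nth_mem_of_infinite hXi j
  have hemono : StrictMono e := Nat.nth_strictMono hXi
  let m0 : ℕ := e (b - 1) + 1
  have hem0 : ∀ j < b, e j < m0 := by
    intro j hj
    have : e j ≤ e (b - 1) := hemono.monotone (by omega)
    omega
  let α : (ℕ → Bool) → ℕ → ℕ → Bool := fun c j k =>
    if k < m0 then decide (∃ i', j ≤ i' ∧ i' < b ∧ k = e i') else c k
  have key : ∀ J ≤ b, ∃ (m : ℕ) (c : ℕ → Bool) (Z : Set ℕ), m0 ≤ m ∧ Z ⊆ X ∧ Z.Infinite ∧
      (∀ k, m0 ≤ k → k < m → c k = true → k ∈ X) ∧ ∀ j < J, Ni P i m (α c j) Z := by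
    intro J
    induction J with
    | zero =>
      intro _
      exact ⟨m0, fun _ => false, X, le_rfl, subset_rfl, hXi, fun k h1 h2 => by omega, fun j hj => by omega⟩
    | succ J ih =>
      intro hJ
      obtain ⟨m, c, Z, h1, h2, h3, h4, h5⟩ := ih (by omega)
      have h6 : ¬ Wi P i m (α c J) Z := by
        apply hrej' m _ Z h2 h3
        intro k hk hk'
        by_cases hkm : k < m0
        · simp only [α, if_pos hkm, decide_eq_true_eq] at hk'
          obtain ⟨i', _, _, rfl⟩ := hk'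
          exact heX i'
        · simp only [α, if_neg hkm] at hk'
          exact h4 k (not_lt.1 hkm) hk hk'
      obtain ⟨m', a', X', hCE, hN⟩ := W_det (hPm i) h6
      have hZinf : ({k | k ∈ X' ∧ m' ≤ k} : Set ℕ).Infinite :=
        (inf_tail hCE.inf m').mono fun k hk => ⟨hk.1, hk.2.le⟩
      refine ⟨m', fun k => if k < m then c k else a' k, {k | k ∈ X' ∧ m' ≤ k}, h1.trans hCE.le, ?_, hZinf, ?_, ?_⟩
      · intro k hk
        exact h2 (hCE.X k hk.1 hk.2)
      · intro k h7 h8 h9
        by_cases hkm : k < m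
        · simp only [if_pos hkm] at h9
          exact h4 k h7 hkm h9
        · simp only [if_neg hkm] at h9
          exact h2 (hCE.c k (not_lt.1 hkm) h8 h9)
      · intro j hj
        rcases Nat.lt_or_ge j J with h7 | h7
        · refine Ni_pers (h5 j h7) ⟨hCE.le, ?_, ?_, ?_, hZinf⟩
          · intro k hk
            simp only [α]
            by_cases hkm : k < m0
            · simp only [if_pos hkm]
            · simp only [if_neg hkm, if_pos hk]
          · intro k h8 h9 h10
            have : ¬ k < m0 := by omega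
            simp only [α, if_neg this, if_neg (not_lt.2 h8)] at h10
            exact hCE.c k h8 h9 h10
          · intro k hk _
            exact hCE.X k hk.1 hk.2
        · have hjJ : j = J := by omega
          subst hjJ
          refine Ni_pers hN ⟨le_rfl, ?_, fun k h8 h9 => by omega, fun k hk _ => hk.1, hZinf⟩
          intro k hk
          by_cases hkm : k < m
          · rw [hCE.a k hkm]
            simp only [α]
            by_cases hkm0 : k < m0
            · simp only [if_pos hkm0]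
            · simp only [if_neg hkm0, if_pos hkm]
          · have : ¬ k < m0 := by omega
            simp only [α, if_neg this, if_neg hkm]
  obtain ⟨m, c, Z, h1, h2, h3, h4, h5⟩ := key b le_rfl
  refine hyper hb hP2 i (fun l : ZMod b => α c l.val) h3 (fun l => h5 _ (ZMod.val_lt l)) ⟨-1, fun l hl => ?_⟩
  have : Fact (1 < b) := ⟨hb⟩
  have hval : (l + 1).val = l.val + 1 := by
    have hlt : l.val + 1 < b := by
      by_contra hcon
      have h6 := ZMod.val_lt l
      have h7 : l.val + 1 = b := by omega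
      apply hl
      rw [eq_neg_iff_add_eq_zero]
      have h8 : ((l.val + 1 : ℕ) : ZMod b) = 0 := by rw [h7]; exact ZMod.natCast_self b
      rw [← h8]
      push_cast
      rw [ZMod.natCast_val, ZMod.cast_id]
    rw [ZMod.val_add, ZMod.val_one, Nat.mod_eq_of_lt hlt]
  rw [hval]
  have hlb : l.val < b := ZMod.val_lt l
  generalize l.val = j at hlb
  have hem : e j < m := lt_of_lt_of_le (hem0 j hlb) h1
  refine ⟨e j, hem, ?_, ?_, ?_⟩
  · simp only [α, if_pos (hem0 j hlb), decide_eq_true_eq]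
    exact ⟨j, le_rfl, hlb, rfl⟩
  · intro k hk
    have hkm : k < m0 := hk.trans (hem0 j hlb)
    simp only [α, if_pos hkm, decide_eq_false_iff_not]
    rintro ⟨i', h6, h7, rfl⟩
    have := hemono.monotone h6
    omega
  · intro k hk
    by_cases hkm : k < m0
    · simp only [α, if_pos hkm]
      by_cases hke : k = e j
      · subst hke
        simp only [ne_eq, not_true_eq_false, decide_false, Bool.and_false, decide_eq_false_iff_not]
        rintro ⟨i', h6, h7, h8⟩
        have := hemono h6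
        omega
      · simp only [ne_eq, hke, not_false_eq_true, decide_true, Bool.and_true, decide_eq_decide]
        constructor
        · rintro ⟨i', h6, h7, rfl⟩
          exact ⟨i', by omega, h7, rfl⟩
        · rintro ⟨i', h6, h7, rfl⟩
          refine ⟨i', ?_, h7, rfl⟩
          rcases Nat.lt_or_ge j i' with h8 | h8
          · exact h8
          · have : i' = j := by omega
            subst this
            exact (hke rfl).elim
    · have hke : k ≠ e j := by
        rintro rfl
        exact hkm (hem0 j hlb)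
      simp only [α, if_neg hkm, ne_eq, hke, not_false_eq_true, decide_true, Bool.and_true]

end Pool.Agent.Helper56.CI
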