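import Pool.Agent.Helper56.CI.Defs

/-! # Colouring the labels which do not dominate a given function -/

set_option autoImplicit false

namespace Pool.Agent.Helper56.CI

/-! ## Combinatorics of sparse sets -/

namespace Sparse

/-- the time shift -/
def sh (μ : Set ℕ) (j : ℕ) : Set ℕ := {k | k + j ∈ μ}

/-- the time of the first marker -/
noncomputable def T (μ : Set ℕ) : ℕ := sInf μ

/-- the distance between the first two markers -/
noncomputable def d (μ : Set ℕ) : ℕ := sInf {k | 0 < k ∧ T μ + k ∈ μ}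

/-- block starts -/
def M' (b : ℕ) (μ : Set ℕ) : Prop :=
  ((d μ % b) * b ≤ T μ ∧ b ∣ T μ) ∨ (T μ < (d μ % b) * b ∧ (b + 1) ∣ (T μ + d μ % b))

/-- the colour -/
noncomputable def φ (b : ℕ) (μ : Set ℕ) : ℕ := sInf {t | M' b (sh μ t)}

variable {b : ℕ} {μ : Set ℕ}

/-- good sets -/
structure Good (b : ℕ) (μ : Set ℕ) : Prop where
  inf : ∀ t, ∃ t', t ≤ t' ∧ t' ∈ μ
  sparse : ∀ t ∈ μ, ∀ t' ∈ μ, t < t' → t + b * b ≤ t'

theorem Good.sh (h : Good b μ) (j : ℕ) : Good b (sh μ j) where
  inf t := by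
    obtain ⟨t', h1, h2⟩ := h.inf (t + j)
    exact ⟨t' - j, by omega, by show t' - j + j ∈ μ; rwa [Nat.sub_add_cancel (by omega)]⟩
  sparse t ht t' ht' hlt := by
    have := h.sparse (t + j) ht (t' + j) ht' (by omega)
    omega

theorem sh_sh (i j : ℕ) : sh (sh μ i) j = sh μ (j + i) := by
  ext k
  show k + j + i ∈ μ ↔ k + (j + i) ∈ μ
  rw [add_assoc]

theorem Good.T_mem (h : Good b μ) : T μ ∈ μ := by
  obtain ⟨t, _, ht⟩ := h.inf 0
  exact Nat.sInf_mem ⟨t, ht⟩

theorem T_le {t : ℕ} (ht : t ∈ μ) : T μ ≤ t := Nat.sInf_le ht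

theorem Good.d_mem (h : Good b μ) : 0 < d μ ∧ T μ + d μ ∈ μ := by
  obtain ⟨t, h1, ht⟩ := h.inf (T μ + 1)
  have : (t - T μ) ∈ {k | 0 < k ∧ T μ + k ∈ μ} := ⟨by omega, by rwa [Nat.add_sub_cancel' (by omega)]⟩
  exact Nat.sInf_mem ⟨_, this⟩

theorem Good.le_d (h : Good b μ) : b * b ≤ d μ := by
  have := h.sparse _ h.T_mem _ h.d_mem.2 (by have := h.d_mem.1; omega)
  omega

theorem not_mem_between {k : ℕ} (h0 : 0 < k) (hk : k < d μ) : T μ + k ∉ μ := by
  intro h
  have : d μ ≤ k := Nat.sInf_le ⟨h0, h⟩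
  omega

theorem Good.T_sh_le (h : Good b μ) {j : ℕ} (hj : j ≤ T μ) : T (Sparse.sh μ j) = T μ - j := by
  apply le_antisymm
  · apply T_le
    show T μ - j + j ∈ μ
    rw [Nat.sub_add_cancel hj]
    exact h.T_mem
  · have h1 : T (Sparse.sh μ j) + j ∈ μ := (h.sh j).T_mem
    have := T_le h1
    omega

theorem Good.d_sh_le (h : Good b μ) {j : ℕ} (hj : j ≤ T μ) : d (Sparse.sh μ j) = d μ := by
  unfold d
  rw [h.T_sh_le hj]
  congr 1
  ext k
  show (0 < k ∧ T μ - j + k + j ∈ μ) ↔ (0 < k ∧ T μ + k ∈ μ)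
  rw [show T μ - j + k + j = T μ + k by omega]

theorem Good.T_sh_gt (h : Good b μ) {j : ℕ} (hj : T μ < j) (hj' : j ≤ T μ + d μ) :
    T (Sparse.sh μ j) = T μ + d μ - j := by
  apply le_antisymm
  · apply T_le
    show T μ + d μ - j + j ∈ μ
    rw [Nat.sub_add_cancel hj']
    exact h.d_mem.2
  · have h1 : T (Sparse.sh μ j) + j ∈ μ := (h.sh j).T_mem
    by_contra hcon
    have h2 : T μ + (T (Sparse.sh μ j) + j - T μ) ∉ μ := not_mem_between (by omega) (by omega)
    apply h2
    rwa [Nat.add_sub_cancel' (by omega)]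

/-- beyond the first marker -/
theorem Good.M'_gt (h : Good b μ) (hb : 0 < b) {j : ℕ} (hj : T μ < j) (hj' : j ≤ T μ + b) :
    (M' b (Sparse.sh μ j) ↔ b ∣ (T μ + d μ - j)) := by
  have h1 := h.le_d
  have h2 : b ≤ b * b := Nat.le_mul_of_pos_left b hb
  have h3 := h.T_sh_gt hj (by omega)
  have h4 : (d (Sparse.sh μ j) % b) * b ≤ T μ + d μ - j := by
    have h5 : d (Sparse.sh μ j) % b ≤ b - 1 := by have := Nat.mod_lt (d (Sparse.sh μ j)) hb; omega
    have h6 : (d (Sparse.sh μ j) % b) * b ≤ (b - 1) * b := Nat.mul_le_mul_right b h5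
    rw [Nat.sub_mul, one_mul] at h6
    omega
  unfold M'
  rw [h3]
  constructor
  · rintro (⟨_, h5⟩ | ⟨h5, _⟩)
    · exact h5
    · omega
  · intro h5
    exact Or.inl ⟨h4, h5⟩

theorem Good.sep (h : Good b μ) (hb : 0 < b) (hM : M' b μ) {j : ℕ} (h1 : 1 ≤ j) (h2 : j < b) :
    ¬ M' b (Sparse.sh μ j) := by
  intro hM2
  have hA : d μ % b < b := Nat.mod_lt _ hb
  rcases Nat.lt_or_ge (T μ) j with hj | hj
  · rw [h.M'_gt hb hj (by omega)] at hM2
    unfold M' at hM
    have h3 := h.le_d
    have h4 : b ≤ b * b := Nat.le_mul_of_pos_left b hb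
    -- `b ∣ T + A - j`
    have h5 : d μ = b * (d μ / b) + d μ % b := (Nat.div_add_mod _ _).symm
    generalize d μ / b = Q at *
    generalize hAe : d μ % b = A at *
    generalize T μ = t at *
    have h6 : (b : ℤ) ∣ ((t : ℤ) + A - j) := by
      have h7 : (b : ℤ) ∣ (((t + d μ - j : ℕ) : ℤ)) := Int.natCast_dvd_natCast.2 hM2
      rw [Nat.cast_sub (by omega)] at h7
      push_cast at h7
      have h8 : (t : ℤ) + A - j = ((t : ℤ) + (d μ : ℤ) - j) - b * Q := by
        rw [h5]; push_cast; ring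
      rw [h8]
      exact dvd_sub h7 (dvd_mul_right _ _)
    have h9 : (t : ℤ) + A - j = 0 := by
      apply Int.eq_zero_of_abs_lt_dvd h6
      rw [abs_lt]
      constructor <;> omega
    have h10 : A = j - t := by omega
    rcases hM with ⟨h11, _⟩ | ⟨_, h11⟩
    · have : 1 * b ≤ A * b := Nat.mul_le_mul_right b (by omega)
      omega
    · have h12 : t + A = j := by omega
      rw [h12] at h11
      have := Nat.le_of_dvd (by omega) h11
      omega
  · unfold M' at hM hM2
    rw [h.T_sh_le hj, h.d_sh_le hj] at hM2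
    generalize d μ % b = A at *
    generalize T μ = t at *
    rcases hM with ⟨a1, a2⟩ | ⟨a1, a2⟩ <;> rcases hM2 with ⟨c1, c2⟩ | ⟨c1, c2⟩
    · have h3 : b ∣ t - (t - j) := Nat.dvd_sub a2 c2
      rw [show t - (t - j) = j by omega] at h3
      have := Nat.le_of_dvd (by omega) h3
      omega
    · obtain ⟨q, rfl⟩ := a2
      have h3 : A ≤ q := by
        have : A * b ≤ q * b := by rw [mul_comm q b]; exact a1
        exact Nat.le_of_mul_le_mul_right this hb
      have h4 : q < A + 1 := by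
        have h5 : b * q < b * (A + 1) := by
          rw [Nat.mul_add, mul_one, mul_comm b A]
          omega
        exact Nat.lt_of_mul_lt_mul_left h5
      have h5 : q = A := by omega
      subst h5
      have h6 : (b + 1) ∣ (q * (b + 1)) - (b * q - j + q) := Nat.dvd_sub (dvd_mul_left _ _) c2
      have h7 : (q * (b + 1)) - (b * q - j + q) = j := by
        rw [Nat.mul_add, mul_one, mul_comm q b]
        omega
      rw [h7] at h6
      have := Nat.le_of_dvd (by omega) h6
      omega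
    · omega
    · have h3 : (b + 1) ∣ (t + A) - (t - j + A) := Nat.dvd_sub a2 c2
      rw [show (t + A) - (t - j + A) = j by omega] at h3
      have := Nat.le_of_dvd (by omega) h3
      omega

theorem Good.exists_M' (h : Good b μ) (hb : 0 < b) : ∃ t ≤ b, M' b (Sparse.sh μ t) := by
  have hA : d μ % b < b := Nat.mod_lt _ hb
  by_cases h1 : (d μ % b) * b ≤ T μ
  · have h2 : T μ % b < b := Nat.mod_lt _ hb
    have h2' : T μ % b ≤ T μ := Nat.mod_le _ _
    refine ⟨T μ % b, h2.le, Or.inl ?_⟩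
    rw [h.T_sh_le h2', h.d_sh_le h2']
    have h3 : T μ - T μ % b = b * (T μ / b) := by
      have := Nat.div_add_mod (T μ) b
      omega
    rw [h3]
    refine ⟨?_, dvd_mul_right _ _⟩
    rw [mul_comm b]
    exact Nat.mul_le_mul_right b ((Nat.le_div_iff_mul_le hb).2 h1)
  · have h2 : (T μ + d μ % b) % (b + 1) < b + 1 := Nat.mod_lt _ (by omega)
    by_cases h3 : (T μ + d μ % b) % (b + 1) ≤ T μ
    · refine ⟨(T μ + d μ % b) % (b + 1), by omega, Or.inr ?_⟩
      rw [h.T_sh_le h3, h.d_sh_le h3]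
      refine ⟨by omega, ?_⟩
      have h4 : T μ - (T μ + d μ % b) % (b + 1) + d μ % b =
          (T μ + d μ % b) - (T μ + d μ % b) % (b + 1) := by omega
      rw [h4]
      exact Nat.dvd_sub_mod _
    · have h4 : T μ + d μ % b < b + 1 := by
        by_contra hcon
        have h5 : (T μ + d μ % b) % (b + 1) = (T μ + d μ % b - (b + 1)) % (b + 1) :=
          Nat.mod_eq_sub_mod (by omega)
        have h6 := Nat.mod_le (T μ + d μ % b - (b + 1)) (b + 1)
        omega
      have h5 : (T μ + d μ % b) % (b + 1) = T μ + d μ % b := Nat.mod_eq_of_lt h4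
      rw [h5] at h3
      refine ⟨T μ + d μ % b, by omega, ?_⟩
      rw [h.M'_gt hb (by omega) (by omega)]
      have h6 : T μ + d μ - (T μ + d μ % b) = d μ - d μ % b := by omega
      rw [h6]
      exact Nat.dvd_sub_mod _

theorem Good.φ_le (h : Good b μ) (hb : 0 < b) : φ b μ ≤ b := by
  obtain ⟨t, h1, h2⟩ := h.exists_M' hb
  exact (Nat.sInf_le h2).trans h1

theorem Good.φ_mem (h : Good b μ) (hb : 0 < b) : M' b (Sparse.sh μ (φ b μ)) := by
  obtain ⟨t, _, h2⟩ := h.exists_M' hb
  exact Nat.sInf_mem (s := {t | M' b (Sparse.sh μ t)}) ⟨t, h2⟩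

theorem Good.φ_ne (h : Good b μ) (hb : 0 < b) {j : ℕ} (h1 : 1 ≤ j) (h2 : j < b) :
    φ b (Sparse.sh μ j) ≠ φ b μ := by
  intro he
  have h3 := h.φ_mem hb
  have h4 := (h.sh j).φ_mem hb
  rw [he, sh_sh] at h4
  have h5 := (h.sh (φ b μ)).sep hb h3 h1 h2
  rw [sh_sh] at h5
  apply h5
  rwa [add_comm] at h4

end Sparse

/-! ## Labels -/

/-- remove the least element -/
def Sf (s : ℕ → Bool) : ℕ → Bool := fun k => s k && decide (∃ k' < k, s k' = true)

theorem Sh.eq_Sf {s s' : ℕ → Bool} (h : Sh s s') : s' = Sf s := by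
  obtain ⟨q, h1, h2, h3⟩ := h
  funext k
  rw [h3, Sf]
  cases hk : s k
  · simp
  · simp only [Bool.true_and, decide_eq_decide]
    constructor
    · intro hkq
      rcases lt_trichotomy k q with h4 | h4 | h4
      · rw [h2 k h4] at hk
        exact absurd hk (by decide)
      · exact (hkq h4).elim
      · exact ⟨q, h4, h1⟩
    · rintro ⟨k', h4, h5⟩ rfl
      rw [h2 k' h4] at h5
      exact absurd h5 (by decide)

/-- number of elements below `v` -/
def cn (s : ℕ → Bool) (v : ℕ) : ℕ := Nat.count (fun k => s k = true) v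

theorem cn_zero (s : ℕ → Bool) : cn s 0 = 0 := Nat.count_zero _

theorem cn_succ (s : ℕ → Bool) (v : ℕ) : cn s (v + 1) = cn s v + if s v = true then 1 else 0 :=
  Nat.count_succ _ _

theorem cn_pos (s : ℕ → Bool) (v : ℕ) : 0 < cn s v ↔ ∃ k < v, s k = true := by
  induction v with
  | zero => simp [cn_zero]
  | succ v ih =>
    rw [cn_succ]
    constructor
    · intro h
      by_cases hv : s v = true
      · exact ⟨v, Nat.lt_succ_self v, hv⟩
      · rw [if_neg hv, add_zero, ih] at h
        obtain ⟨k, h1, h2⟩ := h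
        exact ⟨k, by omega, h2⟩
    · rintro ⟨k, h1, h2⟩
      by_cases hk : k = v
      · subst hk
        rw [if_pos h2]; omega
      · have : 0 < cn s v := ih.2 ⟨k, by omega, h2⟩
        omega

theorem cn_Sf (s : ℕ → Bool) (v : ℕ) : cn (Sf s) v = cn s v - 1 := by
  induction v with
  | zero => rfl
  | succ v ih =>
    rw [cn_succ, cn_succ, ih]
    cases hv : s v
    · have : Sf s v = false := by simp [Sf, hv]
      simp [this]
    · by_cases h : ∃ k' < v, s k' = true
      · have h1 : Sf s v = true := by simp only [Sf, hv, Bool.true_and, decide_eq_true_eq]; exact h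
        have h2 := (cn_pos s v).2 h
        simp only [h1, if_true]
        omega
      · have h1 : Sf s v = false := by simp only [Sf, hv, Bool.true_and, decide_eq_false_iff_not]; exact h
        have h2 : ¬ 0 < cn s v := fun h3 => h ((cn_pos s v).1 h3)
        simp only [h1, if_true]
        simp
        omega

theorem cn_iter (s : ℕ → Bool) (t v : ℕ) : cn (Sf^[t] s) v = cn s v - t := by
  induction t generalizing s with
  | zero => rfl
  | succ t ih => rw [Function.iterate_succ_apply, ih, cn_Sf]; omega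

theorem cn_mono (s : ℕ → Bool) {v w : ℕ} (h : v ≤ w) : cn s v ≤ cn s w := Nat.count_monotone _ h

theorem cn_le (s : ℕ → Bool) (v : ℕ) : cn s v ≤ v := Nat.count_le _

theorem cn_unbounded {s : ℕ → Bool} (hs : ∀ N, ∃ k, N ≤ k ∧ s k = true) (c : ℕ) : ∃ v, c ≤ cn s v := by
  induction c with
  | zero => exact ⟨0, Nat.zero_le _⟩
  | succ c ih =>
    obtain ⟨v, hv⟩ := ih
    obtain ⟨k, h1, h2⟩ := hs v
    refine ⟨k + 1, ?_⟩
    rw [cn_succ, if_pos h2]
    have := cn_mono s h1
    omega

/-! ## Windows -/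

/-- the ends of the windows -/
def win (N : ℕ) (z : ℕ → ℕ) : ℕ → ℕ
  | 0 => 0
  | j + 1 => win N z j + 1 + ∑ m ∈ Finset.range (N * (j + 2) + 1), z m

theorem win_lt (N : ℕ) (z : ℕ → ℕ) (j : ℕ) : win N z j < win N z (j + 1) := by
  show _ < win N z j + 1 + _
  omega

theorem win_mono (N : ℕ) (z : ℕ → ℕ) : StrictMono (win N z) := strictMono_nat_of_lt_succ (win_lt N z)

/-- markers -/
def Mk (N : ℕ) (z : ℕ → ℕ) (s : ℕ → Bool) : Prop := ∃ j, cn s (win N z j) = 0 ∧ cn s (win N z (j + 1)) = N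

/-- the marker times -/
def mu (N : ℕ) (z : ℕ → ℕ) (s : ℕ → Bool) : Set ℕ := {t | Mk N z (Sf^[t] s)}

theorem mem_mu {N : ℕ} (hN : 0 < N) {z : ℕ → ℕ} {s : ℕ → Bool} {t : ℕ} :
    t ∈ mu N z s ↔ ∃ j, cn s (win N z j) ≤ t ∧ cn s (win N z (j + 1)) = t + N := by
  show (∃ j, cn (Sf^[t] s) (win N z j) = 0 ∧ cn (Sf^[t] s) (win N z (j + 1)) = N) ↔ _
  simp only [cn_iter]
  constructor
  · rintro ⟨j, h1, h2⟩; exact ⟨j, by omega, by omega⟩
  · rintro ⟨j, h1, h2⟩; exact ⟨j, by omega, by omega⟩

theorem mu_Sf (N : ℕ) (z : ℕ → ℕ) (s : ℕ → Bool) (j : ℕ) : mu N z (Sf^[j] s) = Sparse.sh (mu N z s) j := by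
  ext t
  show Mk N z (Sf^[t] (Sf^[j] s)) ↔ Mk N z (Sf^[t + j] s)
  rw [Function.iterate_add_apply]

/-- `s` does not dominate `z` -/
def Rec (z : ℕ → ℕ) (s : ℕ → Bool) : Prop := ∀ p, ∃ m, m + p < cn s (z m)

theorem good_mu {b : ℕ} (hb : 0 < b) {z : ℕ → ℕ} {s : ℕ → Bool} (hs : ∀ N, ∃ k, N ≤ k ∧ s k = true)
    (hz : Rec z s) : Sparse.Good b (mu (b * b) z s) where
  inf t0 := by
    by_contra hcon
    push Not at hcon
    have hN : 0 < b * b := Nat.mul_pos hb hb
    generalize b * b = N at *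
    -- the windows are small
    obtain ⟨v, hv⟩ := cn_unbounded hs (t0 + N)
    have hvw : v ≤ win N z v := (win_mono N z).id_le v
    have hsmall : ∀ j, v ≤ j → cn s (win N z (j + 1)) < cn s (win N z j) + N := by
      intro j hj
      by_contra h
      have h1 : t0 + N ≤ cn s (win N z (j + 1)) := hv.trans (cn_mono s (hvw.trans ((win_mono N z).monotone (by omega))))
      exact hcon (cn s (win N z (j + 1)) - N) (by omega) ((mem_mu hN).2 ⟨j, by omega, by omega⟩)
    have hbound : ∀ j, cn s (win N z j) ≤ win N z v + N * j := by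
      intro j
      rcases Nat.lt_or_ge j v with h | h
      · have h1 := cn_le s (win N z j)
        have h2 := (win_mono N z) h
        omega
      · induction j, h using Nat.le_induction with
        | base => exact (cn_le s _).trans (Nat.le_add_right _ _)
        | succ j hj ih =>
          have := hsmall j hj
          rw [Nat.mul_add, mul_one]
          omega
    obtain ⟨m, hm⟩ := hz (win N z v + 2 * N)
    have hex : ∃ J, z m ≤ win N z J := ⟨z m, (win_mono N z).id_le _⟩
    classical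
    have h1 := Nat.find_spec hex
    have h2 : ∀ J < Nat.find hex, ¬ z m ≤ win N z J := fun J hJ => Nat.find_min hex hJ
    generalize Nat.find hex = J at h1 h2
    have h3 := (cn_mono s h1).trans (hbound J)
    have h4 : m + 2 * N < N * J := by omega
    rcases J with _ | _ | J
    · omega
    · omega
    · have h5 : ¬ z m ≤ win N z (J + 1) := h2 (J + 1) (by omega)
      apply h5
      show z m ≤ win N z J + 1 + ∑ m ∈ Finset.range (N * (J + 2) + 1), z m
      have h6 : z m ≤ ∑ m ∈ Finset.range (N * (J + 2) + 1), z m := by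
        apply Finset.single_le_sum (f := z) (fun _ _ => Nat.zero_le _)
        rw [Finset.mem_range]
        have : N * (J + 1 + 1) = N * (J + 2) := rfl
        omega
      omega
  sparse t ht t' ht' hlt := by
    have hN : 0 < b * b := Nat.mul_pos hb hb
    obtain ⟨j, h1, h2⟩ := (mem_mu hN).1 ht
    obtain ⟨j', h3, h4⟩ := (mem_mu hN).1 ht'
    have h5 : j < j' := by
      by_contra hcon
      have := cn_mono s ((win_mono (b * b) z).monotone (show j' + 1 ≤ j + 1 by omega))
      omega
    have := cn_mono s ((win_mono (b * b) z).monotone (show j + 1 ≤ j' by omega))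
    omega

/-- the colouring -/
noncomputable def col (b : ℕ) (z : ℕ → ℕ) (s : ℕ → Bool) : ℕ := Sparse.φ b (mu (b * b) z s)

theorem col_le {b : ℕ} (hb : 0 < b) {z : ℕ → ℕ} {s : ℕ → Bool} (hs : ∀ N, ∃ k, N ≤ k ∧ s k = true)
    (hz : Rec z s) : col b z s ≤ b := (good_mu hb hs hz).φ_le hb

theorem col_ne {b : ℕ} (hb : 0 < b) {z : ℕ → ℕ} {s : ℕ → Bool} (hs : ∀ N, ∃ k, N ≤ k ∧ s k = true)
    (hz : Rec z s) {j : ℕ} (h1 : 1 ≤ j) (h2 : j < b) : col b z (Sf^[j] s) ≠ col b z s := by
  unfold col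
  rw [mu_Sf]
  exact (good_mu hb hs hz).φ_ne hb h1 h2

/-! ## Measurability -/

theorem measurable_sInf_nat {α : Type} [MeasurableSpace α] {p : ℕ → α → Prop}
    (hp : ∀ t, MeasurableSet {x | p t x}) : Measurable (fun x => sInf {t | p t x}) := by
  apply measurable_to_countable'
  intro q
  have e : (fun x => sInf {t | p t x}) ⁻¹' {q} =
      ({x | p q x} ∩ ⋂ t, ⋂ (_ : t < q), {x | p t x}ᶜ) ∪ ({x | q = 0} ∩ ⋂ t, {x | p t x}ᶜ) := by
    ext x
    simp only [Set.mem_preimage, Set.mem_singleton_iff, Set.mem_union, Set.mem_inter_iff, Set.mem_iInter,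
      Set.mem_compl_iff, Set.mem_ofPred_eq]
    constructor
    · rintro rfl
      by_cases h : ∃ t, p t x
      · left
        exact ⟨Nat.sInf_mem h, fun t ht h' => Nat.notMem_of_lt_sInf ht h'⟩
      · right
        push Not at h
        refine ⟨?_, h⟩
        have : {t | p t x} = ∅ := Set.eq_empty_of_forall_notMem h
        rw [this, Nat.sInf_empty]
    · rintro (⟨h1, h2⟩ | ⟨h1, h2⟩)
      · apply le_antisymm (Nat.sInf_le h1)
        by_contra hcon
        exact h2 _ (not_le.1 hcon) (Nat.sInf_mem (s := {t | p t x}) ⟨q, h1⟩)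
      · have : {t | p t x} = ∅ := Set.eq_empty_of_forall_notMem h2
        rw [this, Nat.sInf_empty, h1]
  rw [e]
  exact ((hp q).inter (MeasurableSet.iInter fun t => MeasurableSet.iInter fun _ => (hp t).compl)).union
    ((MeasurableSet.const _).inter (MeasurableSet.iInter fun t => (hp t).compl))

theorem measurable_cn (v : ℕ) : Measurable (fun s : ℕ → Bool => cn s v) := by
  induction v with
  | zero => exact measurable_const
  | succ v ih =>
    simp only [cn_succ]
    have h1 : MeasurableSet {s : ℕ → Bool | s v = true} :=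
      (measurable_pi_apply (X := fun _ : ℕ => Bool) v) (measurableSet_singleton true)
    exact ih.add (Measurable.ite h1 measurable_const measurable_const)

theorem measurable_cn' : Measurable (fun p : (ℕ → Bool) × ℕ => cn p.1 p.2) :=
  measurable_from_prod_countable_left fun v => measurable_cn v

theorem measurable_win (N j : ℕ) : Measurable (fun z : ℕ → ℕ => win N z j) := by
  induction j with
  | zero => exact measurable_const
  | succ j ih =>
    show Measurable fun z : ℕ → ℕ => win N z j + 1 + ∑ m ∈ Finset.range (N * (j + 2) + 1), z m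
    exact (ih.add_const 1).add (Finset.measurable_sum _ fun m _ => measurable_pi_apply m)

theorem measurable_Sf : Measurable Sf := by
  refine measurable_pi_iff.2 fun k => ?_
  have h : (fun s : ℕ → Bool => Sf s k) = fun s => s k && decide (0 < cn s k) := by
    funext s
    simp only [Sf]
    congr 1
    rw [decide_eq_decide, cn_pos]
  show Measurable (fun s : ℕ → Bool => Sf s k)
  rw [h]
  have h2 : Measurable (fun p : Bool × ℕ => p.1 && decide (0 < p.2)) := measurable_of_countable _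
  exact h2.comp ((measurable_pi_apply k).prodMk (measurable_cn k))

theorem measurable_Sf_iter (t : ℕ) : Measurable (Sf^[t]) := by
  induction t with
  | zero => exact measurable_id
  | succ t ih => exact ih.comp measurable_Sf

theorem measurableSet_Mk (N : ℕ) : MeasurableSet {p : (ℕ → ℕ) × (ℕ → Bool) | Mk N p.1 p.2} := by
  have h : ∀ j, Measurable (fun p : (ℕ → ℕ) × (ℕ → Bool) => cn p.2 (win N p.1 j)) := fun j =>
    measurable_cn'.comp (measurable_snd.prodMk ((measurable_win N j).comp measurable_fst))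
  have e : {p : (ℕ → ℕ) × (ℕ → Bool) | Mk N p.1 p.2} =
      ⋃ j, ({p | cn p.2 (win N p.1 j) = 0} ∩ {p | cn p.2 (win N p.1 (j + 1)) = N}) := by
    ext p
    simp only [Mk, Set.mem_ofPred_eq, Set.mem_iUnion, Set.mem_inter_iff]
  rw [e]
  exact MeasurableSet.iUnion fun j =>
    ((h j) (measurableSet_singleton 0)).inter ((h (j + 1)) (measurableSet_singleton N))

theorem measurable_col (b : ℕ) : Measurable (fun p : (ℕ → ℕ) × (ℕ → Bool) => col b p.1 p.2) := by
  have h0 : ∀ t, MeasurableSet {p : (ℕ → ℕ) × (ℕ → Bool) | t ∈ mu (b * b) p.1 p.2} := fun t =>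
    (measurable_fst.prodMk ((measurable_Sf_iter t).comp measurable_snd)) (measurableSet_Mk (b * b))
  have hT : ∀ i, Measurable (fun p : (ℕ → ℕ) × (ℕ → Bool) => Sparse.T (Sparse.sh (mu (b * b) p.1 p.2) i)) :=
    fun i => measurable_sInf_nat fun t => h0 (t + i)
  have hd : ∀ i, Measurable (fun p : (ℕ → ℕ) × (ℕ → Bool) => Sparse.d (Sparse.sh (mu (b * b) p.1 p.2) i)) := by
    intro i
    apply measurable_sInf_nat
    intro k
    have e : {p : (ℕ → ℕ) × (ℕ → Bool) | 0 < k ∧
        Sparse.T (Sparse.sh (mu (b * b) p.1 p.2) i) + k ∈ Sparse.sh (mu (b * b) p.1 p.2) i} =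
        ⋃ q, ({p | Sparse.T (Sparse.sh (mu (b * b) p.1 p.2) i) = q} ∩ ({p | 0 < k} ∩
          {p | q + k + i ∈ mu (b * b) p.1 p.2})) := by
      ext p
      simp only [Set.mem_ofPred_eq, Set.mem_iUnion, Set.mem_inter_iff]
      constructor
      · rintro ⟨h1, h2⟩; exact ⟨_, rfl, h1, h2⟩
      · rintro ⟨q, rfl, h1, h2⟩; exact ⟨h1, h2⟩
    rw [e]
    exact MeasurableSet.iUnion fun q => ((hT i) (measurableSet_singleton q)).inter
      ((MeasurableSet.const _).inter (h0 _))
  apply measurable_sInf_nat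
  intro i
  have hA : MeasurableSet {q : ℕ × ℕ | ((q.2 % b) * b ≤ q.1 ∧ b ∣ q.1) ∨
      (q.1 < (q.2 % b) * b ∧ (b + 1) ∣ (q.1 + q.2 % b))} := (Set.to_countable _).measurableSet
  exact ((hT i).prodMk (hd i)) hA

end Pool.Agent.Helper56.CI
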