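import Pool.Agent.Helper56.CI.States
import Pool.Graph.R_pool_sql_team_seeded_620a6dc7.Helper701_Marks.Det2
import Pool.Graph.R_pool_sql_team_seeded_620a6dc7.Helper701_Marks.Play
import Pool.Graph.R_pool_sql_team_seeded_620a6dc7.Helper701_Marks.PayQB

/-! # Strategies, determinacy and clashes -/

set_option autoImplicit false

namespace Pool.Agent.Helper56.CI

open Pool.Agent.Helper701.Marks (W2 QB hist hist_congr hist_map exists_rec vw vw_strictMono vw_odd vw_even det2)

variable {n b : ℕ}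

/-- the second player (owning `A`, against `C`) can force the limit into `P` -/
def Win2 (A C : Set (Gam n b)) (s : St n b) (P : Set (Lim n b)) : Prop :=
  W2 (Ext A) (Ext C) s {x | lim x ∈ P}

theorem Chain.pre {x : ℕ → St n b} (hx : Chain x) {s : St n b} (hs : Ext Set.univ s (x 0)) :
    Chain (Pool.Agent.Helper701.Marks.pre s x) := by
  intro j
  cases j with
  | zero => exact hs
  | succ j => exact hx j

/-- the limit does not depend on the first state -/
theorem lim_pre {x : ℕ → St n b} (hx : Chain x) {s : St n b} (hs : Ext Set.univ s (x 0)) :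
    lim (Pool.Agent.Helper701.Marks.pre s x) = lim x :=
  (lim_subseq (hx.pre hs) (φ := fun j => j + 1) (fun _ _ h => Nat.succ_lt_succ h)).symm

theorem W2_chain {A C : Set (Gam n b)} {x : ℕ → St n b} {σ : List (St n b) → St n b}
    (h1 : ∀ a l, Ext A a (σ (a :: l)))
    (h2 : ∀ j, Ext C (x (2 * j)) (x (2 * j + 1))) (h3 : ∀ j, x (2 * j + 2) = σ (hist x (2 * j + 1))) :
    Chain x := by
  intro j
  rcases Nat.mod_two_eq_zero_or_one j with h | h
  · obtain ⟨k, rfl⟩ : ∃ k, j = 2 * k := ⟨j / 2, by omega⟩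
    exact (h2 k).mono (Set.subset_univ _)
  · obtain ⟨k, rfl⟩ : ∃ k, j = 2 * k + 1 := ⟨j / 2, by omega⟩
    rw [h3 k]
    exact (h1 (x (2 * k + 1)) (hist x (2 * k))).mono (Set.subset_univ _)

theorem W2_mono {A C : Set (Gam n b)} {s : St n b} {P P' : Set (ℕ → St n b)} (h : W2 (Ext A) (Ext C) s P)
    (h' : ∀ x, Chain x → x 0 = s → x ∈ P → x ∈ P') : W2 (Ext A) (Ext C) s P' := by
  obtain ⟨σ, h1, h2⟩ := h
  exact ⟨σ, h1, fun x g1 g2 g3 => h' x (W2_chain h1 g2 g3) g1 (h2 x g1 g2 g3)⟩

theorem Win2.mono {A C : Set (Gam n b)} {s : St n b} {P P' : Set (Lim n b)} (h : Win2 A C s P) (h' : P ⊆ P') :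
    Win2 A C s P' :=
  W2_mono h fun _ _ _ hx => h' hx

/-- if all the moves of the opponent from `t` are possible from `s` then a win from `s` gives a win from `t` -/
theorem Win2.steal {A C : Set (Gam n b)} {s t : St n b} {P : Set (Lim n b)} (h : Win2 A C s P)
    (e : ∀ t', Ext C t t' → Ext C s t') : Win2 A C t P := by
  obtain ⟨σ, h1, h2⟩ := h
  refine ⟨σ, h1, fun x g1 g2 g3 => ?_⟩
  have hc := W2_chain h1 g2 g3
  have hc' : Chain (fun j => x (j + 1)) := fun j => hc (j + 1)
  have e0 : Ext C s (x 1) := e _ (by rw [← g1]; exact g2 0)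
  have hh : ∀ j, hist (Pool.Agent.Helper701.Marks.pre s (fun j => x (j + 1))) j = hist x j := by
    intro j
    apply hist_congr
    intro k hk _
    obtain ⟨k, rfl⟩ : ∃ j, k = j + 1 := ⟨k - 1, by omega⟩
    rfl
  have h3 := h2 (Pool.Agent.Helper701.Marks.pre s (fun j => x (j + 1))) rfl (by
    intro j
    cases j with
    | zero => exact e0
    | succ j => exact g2 (j + 1)) (by
    intro j
    rw [hh]
    exact g3 j)
  show lim x ∈ P
  have h4 : lim (Pool.Agent.Helper701.Marks.pre s (fun j => x (j + 1))) ∈ P := h3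
  rw [lim_pre hc' (e0.mono (Set.subset_univ _))] at h4
  have h5 : lim (fun j => x (j + 1)) = lim x :=
    lim_subseq hc (φ := fun j => j + 1) (fun _ _ h => Nat.succ_lt_succ h)
  rwa [h5] at h4

/-- persistence -/
theorem Win2.pers {A C : Set (Gam n b)} {s t : St n b} {P : Set (Lim n b)} (h : Win2 A C s P)
    (e : Ext0 C s t) : Win2 A C t P :=
  h.steal fun _ h' => e.trans_ext h'

theorem W2_equiv {M : Type} {E C E' C' : M → M → Prop} {s : M} {P : Set (ℕ → M)} (φ ψ : M → M)
    (h1 : ∀ a, φ (ψ a) = a) (h2 : ∀ a, ψ (φ a) = a) (hE : ∀ a c, E a c → E' (φ a) (φ c))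
    (hC : ∀ a c, C' a c → C (ψ a) (ψ c))
    (h : W2 E C s P) : W2 E' C' (φ s) {x | (fun j => ψ (x j)) ∈ P} := by
  obtain ⟨σ, g1, g2⟩ := h
  refine ⟨fun l => φ (σ (l.map ψ)), ?_, ?_⟩
  · intro a l
    have := hE _ _ (g1 (ψ a) (l.map ψ))
    rwa [h1] at this
  · intro x k1 k2 k3
    apply g2
    · rw [k1, h2]
    · intro j; exact hC _ _ (k2 j)
    · intro j
      rw [k3 j]
      beta_reduce
      rw [h2, hist_map]

/-- translation -/
theorem Win2.trans {A C : Set (Gam n b)} {s : St n b} {P : Set (Lim n b)} (h : Win2 A C s P) (d : Gam n b) :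
    Win2 {g | d⁻¹ * g ∈ A} {g | d⁻¹ * g ∈ C} (tr d s) {l | trL d⁻¹ l ∈ P} := by
  have h1 := W2_equiv (E' := Ext {g | d⁻¹ * g ∈ A}) (C' := Ext {g | d⁻¹ * g ∈ C}) (tr d) (tr d⁻¹)
    (fun a => by rw [tr_tr, mul_inv_cancel, tr_one]) (fun a => by rw [tr_tr, inv_mul_cancel, tr_one])
    (fun a c e => Ext_tr d e) (fun a c e => by
      have := Ext_tr d⁻¹ e
      simpa only [Set.mem_ofPred_eq, inv_inv, inv_mul_cancel_left, Set.ofPred_mem_eq] using this) h
  exact W2_mono h1 fun x _ _ hx => hx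

/-- the clash of `J` strategies -/
theorem clash (J : ℕ) (hJ : 2 ≤ J) (A C : Fin J → Set (Gam n b)) (s : St n b) (P : Fin J → Set (Lim n b))
    (hw : ∀ j, Win2 (A j) (C j) s (P j)) (hAC : ∀ j l, l ≠ j → A l ⊆ C j) :
    ∃ x : ℕ → St n b, x 0 = s ∧ Chain x ∧ ∀ j, lim x ∈ P j := by
  choose σ h1 h2 using hw
  obtain ⟨s1, hs1⟩ := exists_ext ∅ s
  have hJ0 : 0 < J := by omega
  let pl : ℕ → Fin J := fun j => ⟨j % J, Nat.mod_lt j hJ0⟩
  obtain ⟨w, hw⟩ := exists_rec (fun (j : ℕ) (prev : (m : ℕ) → m < j → St n b) =>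
    if j = 0 then s else if j = 1 then s1 else
      σ (pl (j - 2)) (hist (fun k => if h : vw J (pl (j - 2)) k < j then prev (vw J (pl (j - 2)) k) h else s)
        (2 * ((j - 2) / J) + 1)))
  have w0 : w 0 = s := by rw [hw 0]; simp
  have w1 : w 1 = s1 := by rw [hw 1]; simp
  have w2 : ∀ j, w (j + 2) = σ (pl j) (hist (w ∘ vw J (pl j)) (2 * (j / J) + 1)) := by
    intro j
    rw [hw (j + 2)]
    rw [if_neg (by omega), if_neg (by omega)]
    simp only [Nat.add_sub_cancel]
    congr 1
    apply hist_congr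
    intro k _ hk
    have h3 : vw J (pl j) k ≤ vw J (pl j) (2 * (j / J) + 1) := (vw_strictMono hJ _).monotone hk
    rw [vw_odd] at h3
    have h4 := Nat.div_add_mod j J
    have h5 : ((pl j : Fin J) : ℕ) = j % J := rfl
    have h6 : vw J (pl j) k < j + 2 := by omega
    simp only [dif_pos h6]
    rfl
  have hstep : ∀ j, Ext (A (pl j)) (w (j + 1)) (w (j + 2)) := by
    intro j
    rw [w2 j]
    have h3 := h1 (pl j) ((w ∘ vw J (pl j)) (2 * (j / J) + 1)) (hist (w ∘ vw J (pl j)) (2 * (j / J)))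
    have h4 : (w ∘ vw J (pl j)) (2 * (j / J) + 1) = w (j + 1) := by
      show w (vw J (pl j) (2 * (j / J) + 1)) = _
      rw [vw_odd]
      have h4 := Nat.div_add_mod j J
      have h5 : ((pl j : Fin J) : ℕ) = j % J := rfl
      rw [h5, h4]
    rw [h4] at h3
    rw [show hist (w ∘ vw J (pl j)) (2 * (j / J) + 1) = (w ∘ vw J (pl j)) (2 * (j / J) + 1) ::
      hist (w ∘ vw J (pl j)) (2 * (j / J)) from rfl, h4]
    exact h3
  have h01 : Ext ∅ (w 0) (w 1) := by rw [w0, w1]; exact hs1
  have hchain : Chain w := by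
    intro j
    cases j with
    | zero => exact h01.mono (Set.subset_univ _)
    | succ j => exact (hstep j).mono (Set.subset_univ _)
  refine ⟨w, w0, hchain, fun j => ?_⟩
  rw [← lim_subseq hchain (vw_strictMono hJ j)]
  apply h2 j
  · exact w0
  · intro t
    apply ext_seg ((vw_strictMono hJ j) (Nat.lt_succ_self _))
    intro k hk1 hk2
    rw [show (2 * t).succ = 2 * t + 1 from rfl, vw_odd] at hk2
    cases k with
    | zero => exact h01.mono (Set.empty_subset _)
    | succ k =>
      apply (hstep k).mono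
      apply hAC
      intro hcon
      have h5 : k % J = j := congrArg Fin.val hcon
      have h6 := Nat.div_add_mod k J
      cases t with
      | zero =>
        have h7 : k < J := by have := j.2; omega
        rw [Nat.mod_eq_of_lt h7] at h5
        omega
      | succ t =>
        rw [show 2 * (t + 1) = 2 * t + 2 by ring, vw_even] at hk1
        rw [h5] at h6
        have e1 : J * t < J * (k / J) := by omega
        have e2 : J * (k / J) < J * (t + 1) := by omega
        have e3 := Nat.lt_of_mul_lt_mul_left e1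
        have e4 := Nat.lt_of_mul_lt_mul_left e2
        omega
  · intro t
    show w (vw J j (2 * t + 2)) = _
    rw [vw_even]
    have h3 : pl (J * t + j) = j := by
      apply Fin.ext
      show (J * t + j) % J = j
      rw [Nat.mul_add_mod, Nat.mod_eq_of_lt j.2]
    have h4 : (J * t + j) / J = t := by
      rw [Nat.mul_add_div hJ0, Nat.div_eq_of_lt j.2, Nat.add_zero]
    have h5 := w2 (J * t + j)
    rw [h3, h4] at h5
    exact h5

/-! ## Payoffs -/

/-- the payoff of the player owning `R i` -/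
def Pay (P : Fin n → Set (Gam n b → Lab)) (i : Fin n) : Set (Lim n b) :=
  {l | (∃ v, v ∉ l.F ∧ v ∉ R i ∧ ∀ w, w ∉ l.F → w ∈ R i → len v < len w) ∨
    (l.F = Set.univ ∧ l.y ∈ P i)}

section QB

open Pool.Agent.Helper701.Marks.PayQB (ms ms_iff)

theorem meas_y : @Measurable _ _ (ms (St n b)) _ (fun x : ℕ → St n b => (lim x).y) := by
  let _ := ms (St n b)
  refine measurable_pi_iff.2 fun g => ?_
  apply Measurable.prodMk
  · refine measurable_pi_iff.2 fun k => ?_
    apply measurable_to_bool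
    have h : (fun x : ℕ → St n b => ((lim x).y g).1 k) ⁻¹' {true} =
        ⋃ j, {x | x j ∈ {s : St n b | g ∈ s.F ∧ k < s.m ∧ s.a g k = true}} := by
      ext x
      simp [lim]
    exact h ▸ MeasurableSet.iUnion fun j => (ms_iff _).2 (QB.basic j _)
  · refine measurable_pi_iff.2 fun k => ?_
    apply measurable_to_bool
    have h : (fun x : ℕ → St n b => ((lim x).y g).2 k) ⁻¹' {true} =
        ⋃ j, {x | x j ∈ {s : St n b | g ∈ s.F ∧ k < s.m ∧ s.u g k = true}} := by
      ext x
      simp [lim]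
    exact h ▸ MeasurableSet.iUnion fun j => (ms_iff _).2 (QB.basic j _)

theorem meas_F (g : Gam n b) : @MeasurableSet _ (ms (St n b)) {x : ℕ → St n b | g ∈ (lim x).F} := by
  let _ := ms (St n b)
  have h : {x : ℕ → St n b | g ∈ (lim x).F} = ⋃ j, {x | x j ∈ {s : St n b | g ∈ s.F}} := by
    ext x
    simp [lim]
  rw [h]
  exact MeasurableSet.iUnion fun j => (ms_iff _).2 (QB.basic j _)

theorem qb_pay (P : Fin n → Set (Gam n b → Lab)) (i : Fin n) (hP : MeasurableSet (P i)) :
    QB {x : ℕ → St n b | lim x ∈ Pay P i} := by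
  rw [← ms_iff]
  let _ := ms (St n b)
  have h1 : MeasurableSet {x : ℕ → St n b | ∃ v, v ∉ (lim x).F ∧ v ∉ R i ∧
      ∀ w, w ∉ (lim x).F → w ∈ R i → len v < len w} := by
    have e : {x : ℕ → St n b | ∃ v, v ∉ (lim x).F ∧ v ∉ R i ∧
        ∀ w, w ∉ (lim x).F → w ∈ R i → len v < len w} =
        ⋃ v, ({x : ℕ → St n b | v ∈ (lim x).F}ᶜ ∩ ({x : ℕ → St n b | v ∉ R i} ∩
          ⋂ w, ({x : ℕ → St n b | w ∈ (lim x).F} ∪ {x : ℕ → St n b | w ∈ R i → len v < len w}))) := by
      ext x
      simp only [Set.mem_ofPred_eq, Set.mem_iUnion, Set.mem_inter_iff, Set.mem_compl_iff, Set.mem_iInter,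
        Set.mem_union]
      constructor
      · rintro ⟨v, a, b, c⟩
        refine ⟨v, a, b, fun w => ?_⟩
        by_cases hw : w ∈ (lim x).F
        · exact Or.inl hw
        · exact Or.inr (c w hw)
      · rintro ⟨v, a, b, c⟩
        refine ⟨v, a, b, fun w hw => ?_⟩
        exact (c w).resolve_left hw
    rw [e]
    refine MeasurableSet.iUnion fun v => (meas_F v).compl.inter ((MeasurableSet.const _).inter
      (MeasurableSet.iInter fun w => (meas_F w).union (MeasurableSet.const _)))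
  have h2 : MeasurableSet {x : ℕ → St n b | (lim x).F = Set.univ} := by
    have e : {x : ℕ → St n b | (lim x).F = Set.univ} = ⋂ g, {x : ℕ → St n b | g ∈ (lim x).F} := by
      ext x
      simp only [Set.mem_ofPred_eq, Set.mem_iInter, Set.eq_univ_iff_forall]
    rw [e]
    exact MeasurableSet.iInter meas_F
  have h5 : MeasurableSet {x : ℕ → St n b | (lim x).y ∈ P i} := meas_y hP
  exact h1.union (h2.inter h5)

end QB

end Pool.Agent.Helper56.CI
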