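import Pool.Agent.Helper56.CI.Core
import Pool.Agent.Helper56.CI.NoP

/-! # Edge colourings of the cores and solutions -/

set_option autoImplicit false

open MeasureTheory

namespace Pool.Agent.Helper56.CI

variable {n b : ℕ}

/-! ## Measurability of the core -/

theorem measurable_dgx : Measurable (dgx n b) := by
  have h : Measurable fun o : ℕ => if o = 0 then n else b := Measurable.of_discrete
  exact h.comp measurable_snd

theorem measurable_νx (j : ℕ) : Measurable (νx n b j) := by
  apply measurable_from_prod_countable_left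
  intro o
  show Measurable fun v : VV n b => νx n b j (v, o)
  unfold νx
  by_cases ho : o = 0
  · subst ho
    by_cases h : j < n
    · simp only [if_true, dif_pos h]
      have := measurable_bs (b := b) (⟨j, h⟩ : Fin n)
      fun_prop
    · simp only [if_true, dif_neg h]
      fun_prop
  · simp only [if_neg ho]
    by_cases h : o - 1 < n
    · simp only [dif_pos h]
      exact (measurable_fst.prodMk ((measurable_act (pw (⟨o - 1, h⟩ : Fin n) (j : ZMod b))).comp
        measurable_snd)).prodMk measurable_const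
    · simp only [dif_neg h]
      fun_prop

theorem measurableSet_Kx {X : Type} [MeasurableSpace X] {S : X → Set (VV n b)}
    (hS : MeasurableSet {q : X × VV n b | q.2 ∈ S q.1}) :
    MeasurableSet {q : X × QQ n b | q.2 ∈ Kx (S q.1)} := by
  have e : {q : X × QQ n b | q.2 ∈ Kx (S q.1)} = {q | q.2.1 ∈ S q.1} ∩
      ({q | q.2.2 = 0} ∪ ⋃ i : Fin n, ({q | q.2.2 = i.val + 1} ∩ {q | q.2.1.2 ∈ D i})) := by
    ext q
    simp only [Kx, Set.mem_ofPred_eq, Set.mem_inter_iff, Set.mem_union, Set.mem_iUnion]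
  rw [e]
  have h1 : Measurable fun q : X × QQ n b => (q.1, q.2.1) := by fun_prop
  have h2 : Measurable fun q : X × QQ n b => q.2.2 := by fun_prop
  have h3 : Measurable fun q : X × QQ n b => q.2.1.2 := by fun_prop
  exact (h1 hS).inter ((h2 (measurableSet_singleton 0)).union (MeasurableSet.iUnion fun i =>
    (h2 (measurableSet_singleton (i.val + 1))).inter (h3 (measurableSet_D i))))

/-! ## Solutions -/

/-- the `i`-th entry of the vector with code `N` -/
def cvec (N : ℕ) (i : ℕ) : ℕ := (Denumerable.ofNat (List ℕ) N).getD i 0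

/-- the code of a vector -/
def enc (v : Fin n → ℕ) : ℕ := Encodable.encode (List.ofFn v)

theorem cvec_enc (v : Fin n → ℕ) (i : Fin n) : cvec (enc v) i = v i := by
  unfold cvec enc
  rw [Denumerable.ofNat_encode, List.getD_eq_getElem _ _ (by rw [List.length_ofFn]; exact i.2), List.getElem_ofFn]

/-- the local condition -/
def Good (k : ℕ) (v v' : Gam n b → Lab) (N N' : ℕ) : Prop :=
  (∀ i : Fin n, cvec N i < k) ∧ (∀ i j : Fin n, i ≠ j → cvec N i ≠ cvec N j) ∧
    ∀ (i : Fin n) (l : ZMod b), l ≠ 0 → v' = act (pw i l) v → cvec N i ≠ cvec N' i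

/-- the bad set -/
def Bad (n b k : ℕ) : Set ((List ℕ → Bool) × (Gam n b → Lab) × (Gam n b → Lab) × ℕ × ℕ) :=
  {q | (q.2.1 ∈ XS n b ∧ BT q.1 (q.2.1 1).1) ∧ ¬ Good k q.2.1 q.2.2.1 q.2.2.2.1 q.2.2.2.2}

theorem measurableSet_Bad (n b k : ℕ) : MeasurableSet (Bad n b k) := by
  have e : Bad n b k = ({q | q.2.1 ∈ XS n b} ∩ {q | BT q.1 (q.2.1 1).1}) ∩
      ((⋂ i : Fin n, {q | cvec q.2.2.2.1 i < k}) ∩ ((⋂ i : Fin n, ⋂ j : Fin n, ⋂ (_ : i ≠ j),
        {q | cvec q.2.2.2.1 i ≠ cvec q.2.2.2.1 j}) ∩ ⋂ i : Fin n, ⋂ l : ZMod b, ⋂ (_ : l ≠ 0),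
        ({q | q.2.2.1 = act (pw i l) q.2.1}ᶜ ∪ {q | cvec q.2.2.2.1 i ≠ cvec q.2.2.2.2 i})))ᶜ := by
    ext q
    simp only [Bad, Good, Set.mem_ofPred_eq, Set.mem_inter_iff, Set.mem_compl_iff, Set.mem_iInter,
      Set.mem_union]
    refine and_congr_right fun _ => not_congr (and_congr_right fun _ => and_congr_right fun _ => ?_)
    constructor
    · intro h i l hl
      by_cases h2 : q.2.2.1 = act (pw i l) q.2.1
      · exact Or.inr (h i l hl h2)
      · exact Or.inl h2
    · intro h i l hl h2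
      rcases h i l hl with h3 | h3
      · exact (h3 h2).elim
      · exact h3
  rw [e]
  have hN : Measurable fun q : (List ℕ → Bool) × (Gam n b → Lab) × (Gam n b → Lab) × ℕ × ℕ => q.2.2.2 := by
    fun_prop
  refine MeasurableSet.inter (MeasurableSet.inter ?_ ?_) (MeasurableSet.compl (MeasurableSet.inter ?_
    (MeasurableSet.inter ?_ ?_)))
  · have : Measurable fun q : (List ℕ → Bool) × (Gam n b → Lab) × (Gam n b → Lab) × ℕ × ℕ => q.2.1 := by
      fun_prop
    exact this measurableSet_XS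
  · have : Measurable fun q : (List ℕ → Bool) × (Gam n b → Lab) × (Gam n b → Lab) × ℕ × ℕ =>
        (q.1, (q.2.1 1).1) := by
      fun_prop
    exact this measurableSet_BT
  · exact MeasurableSet.iInter fun i => hN (MeasurableSet.of_discrete (s := {t : ℕ × ℕ | cvec t.1 i < k}))
  · exact MeasurableSet.iInter fun i => MeasurableSet.iInter fun j => MeasurableSet.iInter fun _ =>
      hN (MeasurableSet.of_discrete (s := {t : ℕ × ℕ | cvec t.1 i ≠ cvec t.1 j}))
  · refine MeasurableSet.iInter fun i => MeasurableSet.iInter fun l => MeasurableSet.iInter fun _ =>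
      MeasurableSet.union (MeasurableSet.compl ?_)
        (hN (MeasurableSet.of_discrete (s := {t : ℕ × ℕ | cvec t.1 i ≠ cvec t.2 i})))
    have := measurable_act (pw i l)
    exact measurableSet_eq_fun (by fun_prop) (by fun_prop)

/-- the points over a family of trees -/
def SS (T : (ℕ → ℕ) → List ℕ → Bool) : Set (VV n b) := {v | v.2 ∈ XS n b ∧ BT (T v.1) (v.2 1).1}

theorem isS_SS (hb : 0 < b) (T : (ℕ → ℕ) → List ℕ → Bool) : IsS (SS T : Set (VV n b)) where
  xs := fun _ hv => hv.1
  inv := fun _ _ hy d => ⟨xs_act hy.1 d, (xs_BT_act hb hy.1 _ d).2 hy.2⟩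

theorem measurableSet_SS {X : Type} [MeasurableSpace X] {T : X × (ℕ → ℕ) → List ℕ → Bool} (hT : Measurable T) :
    MeasurableSet {q : X × VV n b | q.2 ∈ (SS fun c => T (q.1, c) : Set (VV n b))} := by
  have e : {q : X × VV n b | q.2 ∈ (SS fun c => T (q.1, c) : Set (VV n b))} =
      {q | q.2.2 ∈ XS n b} ∩ {q | BT (T (q.1, q.2.1)) (q.2.2 1).1} := rfl
  rw [e]
  have h1 : Measurable fun q : X × VV n b => q.2.2 := by fun_prop
  have h2 : Measurable fun q : X × VV n b => (T (q.1, q.2.1), (q.2.2 1).1) := by fun_prop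
  exact (h1 measurableSet_XS).inter (h2 measurableSet_BT)

/-- a solution -/
def Sol (k : ℕ) (T : (ℕ → ℕ) → List ℕ → Bool) (κ : VV n b → ℕ) : Prop :=
  Measurable κ ∧ ∀ c v v', (T c, v, v', κ (c, v), κ (c, v')) ∉ Bad n b k

theorem hasCol_of_sol {k : ℕ} {T : (ℕ → ℕ) → List ℕ → Bool} {κ : VV n b → ℕ}
    (h : Sol k T κ) : HasCol (CAdj (dgx n b) (νx n b) (Kx (SS T))) k := by
  obtain ⟨hκ, hsol⟩ := h
  have good : ∀ c y y', (c, y) ∈ (SS T : Set (VV n b)) → Good k y y' (κ (c, y)) (κ (c, y')) := by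
    intro c y y' hy
    by_contra hne
    exact hsol c y y' ⟨hy, hne⟩
  classical
  refine ⟨fun x => if x.1.2 = 0 then cvec (κ x.1.1) (x.2.2 - 1) else cvec (κ x.2.1) (x.1.2 - 1), ?_, ?_⟩
  · have hc : Measurable fun t : ℕ × ℕ => cvec t.1 (t.2 - 1) := Measurable.of_discrete
    have h1 : Measurable fun x : QQ n b × QQ n b => (κ x.1.1, x.2.2) := by fun_prop
    have h2 : Measurable fun x : QQ n b × QQ n b => (κ x.2.1, x.1.2) := by fun_prop
    have h3 : Measurable fun x : QQ n b × QQ n b => x.1.2 := by fun_prop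
    exact Measurable.ite (h3 (measurableSet_singleton 0)) (hc.comp h1) (hc.comp h2)
  · rintro ⟨⟨c, y⟩, o⟩ v ⟨hu, j, hj, rfl⟩
    obtain ⟨h1, h2⟩ := hu
    change (c, y) ∈ SS T at h1
    rcases h2 with h2 | ⟨i, h2, h3⟩
    · change o = 0 at h2
      subst h2
      rw [dgx_zero] at hj
      have e1 : νx n b j ((c, y), 0) = ((c, bs ⟨j, hj⟩ y), j + 1) := νx_zero c y ⟨j, hj⟩
      rw [e1]
      refine ⟨?_, ?_, ?_⟩
      · show cvec (κ (c, y)) (j + 1 - 1) < k
        exact (good c y y h1).1 ⟨j, hj⟩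
      · show cvec (κ (c, y)) (j + 1 - 1) = if j + 1 = 0 then _ else cvec (κ (c, y)) (j + 1 - 1)
        rw [if_neg (by omega)]
      · rintro w ⟨_, j', hj', rfl⟩ hne
        rw [dgx_zero] at hj'
        have e2 : νx n b j' ((c, y), 0) = ((c, bs ⟨j', hj'⟩ y), j' + 1) := νx_zero c y ⟨j', hj'⟩
        rw [e2]
        show cvec (κ (c, y)) (j + 1 - 1) ≠ cvec (κ (c, y)) (j' + 1 - 1)
        refine (good c y y h1).2.1 ⟨j, hj⟩ ⟨j', hj'⟩ ?_
        intro e
        rw [Fin.mk.injEq] at e
        subst e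
        exact hne e1.symm
    · change o = i.val + 1 at h2
      subst h2
      rw [dgx_succ] at hj
      rw [νx_succ]
      have h1' : (c, act (pw i (j : ZMod b)) y) ∈ (SS T : Set (VV n b)) := by
        have := h1
        exact ⟨xs_act this.1 _, by
          rw [xs_BT_act (by omega) this.1]
          exact this.2⟩
      refine ⟨?_, ?_, ?_⟩
      · show (if i.val + 1 = 0 then _ else cvec (κ (c, act (pw i (j : ZMod b)) y)) (i.val + 1 - 1)) < k
        rw [if_neg (by omega)]
        exact (good c _ y h1').1 i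
      · show (if i.val + 1 = 0 then _ else cvec (κ (c, act (pw i (j : ZMod b)) y)) (i.val + 1 - 1)) =
          cvec (κ (c, act (pw i (j : ZMod b)) y)) (i.val + 1 - 1)
        rw [if_neg (by omega)]
      · rintro w ⟨_, j', hj', rfl⟩ hne
        rw [dgx_succ] at hj'
        rw [νx_succ] at hne ⊢
        show (if i.val + 1 = 0 then _ else cvec (κ (c, act (pw i (j : ZMod b)) y)) (i.val + 1 - 1)) ≠
          (if i.val + 1 = 0 then _ else cvec (κ (c, act (pw i (j' : ZMod b)) y)) (i.val + 1 - 1))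
        rw [if_neg (by omega), if_neg (by omega)]
        refine (good c _ (act (pw i (j' : ZMod b)) y) h1').2.2 i ((j' : ZMod b) - j) ?_ ?_
        · intro e
          apply hne
          rw [sub_eq_zero.1 e]
        · rw [act_pw_act, sub_add_cancel]

theorem measurable_enc {α : Type} [MeasurableSpace α] {f : α → Fin n → ℕ} (hf : ∀ i, Measurable fun x => f x i) :
    Measurable fun x => enc (f x) := by
  have h2 : Measurable fun v : Fin n → ℕ => enc v := measurable_of_countable _
  exact h2.comp (measurable_pi_lambda _ hf)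

theorem sol_of_hasCol (hb : 2 ≤ b) {k : ℕ} {T : (ℕ → ℕ) → List ℕ → Bool}
    (h : HasCol (CAdj (dgx n b) (νx n b) (Kx (SS T))) k) : ∃ κ : VV n b → ℕ, Sol k T κ := by
  obtain ⟨e, he, hcol⟩ := h
  have key : ∀ c y, (c, y) ∈ (SS T : Set (VV n b)) → ∀ i : Fin n,
      CAdj (dgx n b) (νx n b) (Kx (SS T)) ((c, y), 0) ((c, bs i y), i.val + 1) ∧
      CAdj (dgx n b) (νx n b) (Kx (SS T)) ((c, bs i y), i.val + 1) ((c, y), 0) := by
    intro c y hy i
    constructor
    · exact ⟨mem_Kx_zero.2 hy, i, by rw [dgx_zero]; exact i.2, νx_zero c y i⟩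
    · have : NeZero b := ⟨by omega⟩
      refine ⟨mem_Kx_succ.2 ⟨(isS_SS (by omega) T).inv c y hy _, xs_bs_mem (by omega) hy.1 i⟩,
        (-(bsm i y : ZMod b)).val, by rw [dgx_succ]; exact ZMod.val_lt _, ?_⟩
      rw [νx_succ, ZMod.natCast_zmod_val]
      unfold bs
      rw [act_pw_act, neg_add_cancel, pw_zero, act_one]
  refine ⟨fun v => enc fun i : Fin n => e ((v, 0), ((v.1, bs i v.2), i.val + 1)), ?_, ?_⟩
  · apply measurable_enc
    intro i
    have := measurable_bs (b := b) i
    fun_prop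
  · rintro c y y' ⟨hy, hbad⟩
    change (c, y) ∈ (SS T : Set (VV n b)) at hy
    apply hbad
    refine ⟨?_, ?_, ?_⟩
    · intro i
      dsimp only
      rw [cvec_enc]
      exact (hcol _ _ (key c y hy i).1).1
    · intro i j hij
      dsimp only
      rw [cvec_enc, cvec_enc]
      refine (hcol _ _ (key c y hy i).1).2.2 _ (key c y hy j).1 fun h => hij ?_
      have := (Prod.mk.inj h).2
      exact Fin.ext (by omega)
    · intro i l hl h1
      dsimp only
      rw [cvec_enc, cvec_enc]
      change y' = act (pw i l) y at h1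
      have hy' : (c, y') ∈ (SS T : Set (VV n b)) := by
        rw [h1]
        exact (isS_SS (by omega) T).inv c y hy _
      have hbs : bs i y' = bs i y := by rw [h1, xs_bs_act (by omega) hy.1]
      have k1 := (hcol _ _ (key c y hy i).1).2.1
      have k2 := (hcol _ _ (key c y' hy' i).1).2.1
      rw [hbs] at k2
      have k3 := (key c y' hy' i).2
      rw [hbs] at k3
      have k4 := (hcol _ _ (key c y hy i).2).2.2 _ k3 (fun h => by
        have h3 : y = y' := (Prod.mk.inj (Prod.mk.inj h).1).2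
        rw [h1] at h3
        have h4 : (1 : Gam n b) = pw i l := xs_free hy.1 (by rw [act_one]; exact h3)
        exact pw_ne_one hb i hl h4.symm)
      show e (((c, y), 0), ((c, bs i y), i.val + 1)) ≠ e (((c, y'), 0), ((c, bs i y'), i.val + 1))
      rw [hbs, k1, k2]
      exact k4

end Pool.Agent.Helper56.CI
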