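import Pool.Agent.Helper56.CI.Grp

/-! # States and limits -/

set_option autoImplicit false

namespace Pool.Agent.Helper56.CI

variable {n b : ℕ}

/-- the relation `Sh` below `m` -/
def ShB (m : ℕ) (s s' : ℕ → Bool) : Prop :=
  ∃ q < m, s q = true ∧ (∀ k < q, s k = false) ∧ ∀ k < m, s' k = (s k && decide (k ≠ q))

theorem ShB.ext {m m' : ℕ} {s s' t t' : ℕ → Bool} (h : ShB m s s') (hm : m ≤ m') (h1 : ∀ k < m, t k = s k)
    (h2 : ∀ k < m, t' k = s' k) (h3 : ∀ k, m ≤ k → k < m' → t k = t' k) : ShB m' t t' := by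
  obtain ⟨q, hq, a, c, d⟩ := h
  refine ⟨q, lt_of_lt_of_le hq hm, by rw [h1 q hq, a], fun k hk => by rw [h1 k (hk.trans hq), c k hk], ?_⟩
  intro k hk
  by_cases hkm : k < m
  · rw [h2 k hkm, h1 k hkm, d k hkm]
  · have hne : k ≠ q := by omega
    rw [← h3 k (not_lt.1 hkm) hk]
    simp [hne]

/-- states; only `a g k`, `u g k` for `g ∈ F`, `k < m` matter -/
structure St (n b : ℕ) : Type where
  m : ℕ
  F : Set (Gam n b)
  a : Gam n b → ℕ → Bool
  u : Gam n b → ℕ → Bool
  X : Set ℕ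
  inj : ∀ g ∈ F, ∀ h ∈ F, (∀ k < m, u g k = u h k) → g = h
  val : ∀ (g : Gam n b) (i : Fin n), (∀ l : ZMod b, g * pw i l ∈ F) →
    ∃ q : ZMod b, ∀ l : ZMod b, l ≠ q → ShB m (a (g * pw i l)) (a (g * pw i (l + 1)))
  inf : X.Infinite

/-- the moves of the player owning `A`, including the moves which do nothing -/
structure Ext0 (A : Set (Gam n b)) (s t : St n b) : Prop where
  le : s.m ≤ t.m
  sub : s.F ⊆ t.F
  sup : t.F ⊆ s.F ∪ A
  a : ∀ g ∈ s.F, ∀ k < s.m, t.a g k = s.a g k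
  u : ∀ g ∈ s.F, ∀ k < s.m, t.u g k = s.u g k
  c : ∃ c : ℕ → Bool, (∀ k, s.m ≤ k → k < t.m → c k = true → k ∈ s.X) ∧
    ∀ g ∈ s.F, ∀ k, s.m ≤ k → k < t.m → t.a g k = c k
  X : ∀ k ∈ t.X, t.m ≤ k → k ∈ s.X

/-- the moves of the player owning `A` -/
def Ext (A : Set (Gam n b)) (s t : St n b) : Prop :=
  Ext0 A s t ∧ ∃ k, s.m ≤ k ∧ k < t.m ∧ ∀ g ∈ s.F, t.a g k = true

theorem Ext0.refl (A : Set (Gam n b)) (s : St n b) : Ext0 A s s where
  le := le_rfl
  sub := subset_rfl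
  sup := Set.subset_union_left
  a _ _ _ _ := rfl
  u _ _ _ _ := rfl
  c := ⟨fun _ => false, fun k h1 h2 => by omega, fun _ _ k h1 h2 => by omega⟩
  X _ h _ := h

theorem Ext0.mono {A B : Set (Gam n b)} (h : A ⊆ B) {s t : St n b} (e : Ext0 A s t) : Ext0 B s t where
  le := e.le
  sub := e.sub
  sup := e.sup.trans (Set.union_subset_union_right _ h)
  a := e.a
  u := e.u
  c := e.c
  X := e.X

theorem Ext.mono {A B : Set (Gam n b)} (h : A ⊆ B) {s t : St n b} (e : Ext A s t) : Ext B s t :=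
  ⟨e.1.mono h, e.2⟩

theorem Ext.lt {A : Set (Gam n b)} {s t : St n b} (e : Ext A s t) : s.m < t.m := by
  obtain ⟨k, h1, h2, _⟩ := e.2
  omega

theorem Ext0.trans {A B : Set (Gam n b)} {r s t : St n b} (e : Ext0 A r s) (e' : Ext0 B s t) :
    Ext0 (A ∪ B) r t where
  le := e.le.trans e'.le
  sub := e.sub.trans e'.sub
  sup := by
    intro g hg
    rcases e'.sup hg with h | h
    · rcases e.sup h with h | h
      · exact Or.inl h
      · exact Or.inr (Or.inl h)
    · exact Or.inr (Or.inr h)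
  a g hg k hk := by rw [e'.a g (e.sub hg) k (lt_of_lt_of_le hk e.le), e.a g hg k hk]
  u g hg k hk := by rw [e'.u g (e.sub hg) k (lt_of_lt_of_le hk e.le), e.u g hg k hk]
  c := by
    obtain ⟨c, hc1, hc2⟩ := e.c
    obtain ⟨c', hc1', hc2'⟩ := e'.c
    refine ⟨fun k => if k < s.m then c k else c' k, ?_, ?_⟩
    · intro k h1 h2 h3
      by_cases h : k < s.m
      · simp only [if_pos h] at h3
        exact hc1 k h1 h h3
      · simp only [if_neg h] at h3
        exact e.X k (hc1' k (not_lt.1 h) h2 h3) (not_lt.1 h)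
    · intro g hg k h1 h2
      by_cases h : k < s.m
      · simp only [if_pos h]
        rw [e'.a g (e.sub hg) k h, hc2 g hg k h1 h]
      · simp only [if_neg h]
        rw [hc2' g (e.sub hg) k (not_lt.1 h) h2]
  X k h1 h2 := e.X k (e'.X k h1 h2) (e'.le.trans h2)

theorem Ext0.trans' {A : Set (Gam n b)} {r s t : St n b} (e : Ext0 A r s) (e' : Ext0 A s t) : Ext0 A r t := by
  have := e.trans e'
  rwa [Set.union_self] at this

theorem Ext0.trans_ext {A : Set (Gam n b)} {r s t : St n b} (e : Ext0 A r s) (e' : Ext A s t) : Ext A r t := by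
  obtain ⟨k, h1, h2, h3⟩ := e'.2
  exact ⟨e.trans' e'.1, k, e.le.trans h1, h2, fun g hg => h3 g (e.sub hg)⟩

theorem Ext.trans_ext0 {A : Set (Gam n b)} {r s t : St n b} (e : Ext A r s) (e' : Ext0 A s t) : Ext A r t := by
  obtain ⟨k, h1, h2, h3⟩ := e.2
  exact ⟨e.1.trans' e', k, h1, lt_of_lt_of_le h2 e'.le, fun g hg => by rw [e'.a g (e.1.sub hg) k h2, h3 g hg]⟩

theorem Ext.trans' {A : Set (Gam n b)} {r s t : St n b} (e : Ext A r s) (e' : Ext A s t) : Ext A r t :=
  e.1.trans_ext e'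

/-- extension without new vertices -/
theorem exists_ext0 (s : St n b) (m' : ℕ) (h : s.m ≤ m') (c : ℕ → Bool)
    (hc : ∀ k, s.m ≤ k → k < m' → c k = true → k ∈ s.X) (X' : Set ℕ) (hX' : X'.Infinite)
    (hX : ∀ k ∈ X', m' ≤ k → k ∈ s.X) :
    ∃ t : St n b, Ext0 ∅ s t ∧ t.m = m' ∧ t.F = s.F ∧ t.X = X' ∧
      (∀ g, ∀ k, k < s.m → t.a g k = s.a g k) ∧ (∀ g, ∀ k, s.m ≤ k → t.a g k = c k) := by
  refine ⟨⟨m', s.F, fun g k => if k < s.m then s.a g k else c k, s.u, X', ?_, ?_, hX'⟩, ?_, rfl, rfl, rfl, ?_, ?_⟩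
  · intro g hg g' hg' e
    exact s.inj g hg g' hg' fun k hk => e k (lt_of_lt_of_le hk h)
  · intro g i hF
    obtain ⟨q, hq⟩ := s.val g i hF
    refine ⟨q, fun l hl => (hq l hl).ext h ?_ ?_ ?_⟩
    · intro k hk; simp only [if_pos hk]
    · intro k hk; simp only [if_pos hk]
    · intro k h1 _; simp only [if_neg (not_lt.2 h1)]
  · constructor
    · exact h
    · exact subset_rfl
    · exact Set.subset_union_left
    · intro g _ k hk
      simp only [if_pos hk]
    · intro g _ k _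
      rfl
    · refine ⟨c, hc, fun g _ k h1 _ => ?_⟩
      simp only [if_neg (not_lt.2 h1)]
    · exact hX
  · intro g k hk
    simp only [if_pos hk]
  · intro g k hk
    simp only [if_neg (not_lt.2 hk)]

theorem exists_ext (A : Set (Gam n b)) (s : St n b) : ∃ t, Ext A s t := by
  obtain ⟨q, hq1, hq2⟩ := s.inf.exists_gt s.m
  obtain ⟨t, ht, h1, _, _, _, h2⟩ := exists_ext0 s (q + 1) (by omega) (fun k => decide (k = q))
    (by
      intro k _ _ h
      have : k = q := of_decide_eq_true h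
      rw [this]; exact hq1) s.X s.inf (fun k h _ => h)
  refine ⟨t, ht.mono (Set.empty_subset _), q, hq2.le, by omega, fun g _ => ?_⟩
  rw [h2 g q hq2.le]
  simp

/-- translation of a state -/
def tr (d : Gam n b) (s : St n b) : St n b where
  m := s.m
  F := {g | d⁻¹ * g ∈ s.F}
  a := fun g => s.a (d⁻¹ * g)
  u := fun g => s.u (d⁻¹ * g)
  X := s.X
  inj := by
    intro g hg h hh e
    exact mul_left_cancel (s.inj _ hg _ hh e)
  val := by
    intro g i h
    have h' : ∀ l : ZMod b, d⁻¹ * g * pw i l ∈ s.F := by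
      intro l
      rw [mul_assoc]
      exact h l
    obtain ⟨q, hq⟩ := s.val (d⁻¹ * g) i h'
    refine ⟨q, fun l hl => ?_⟩
    have := hq l hl
    rw [mul_assoc, mul_assoc] at this
    exact this
  inf := s.inf

/-- limit data -/
@[ext] structure Lim (n b : ℕ) : Type where
  F : Set (Gam n b)
  y : Gam n b → Lab

/-- translation of limit data -/
def trL (d : Gam n b) (l : Lim n b) : Lim n b where
  F := {g | d⁻¹ * g ∈ l.F}
  y := fun g => l.y (d⁻¹ * g)

open Classical in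
/-- the limit of a sequence of states -/
noncomputable def lim (x : ℕ → St n b) : Lim n b where
  F := {g | ∃ j, g ∈ (x j).F}
  y g := (fun k => decide (∃ j, g ∈ (x j).F ∧ k < (x j).m ∧ (x j).a g k = true),
    fun k => decide (∃ j, g ∈ (x j).F ∧ k < (x j).m ∧ (x j).u g k = true))

theorem tr_tr (d e : Gam n b) (s : St n b) : tr d (tr e s) = tr (d * e) s := by
  obtain ⟨m, F, a, u, X, inj, val, inf⟩ := s
  simp only [tr, Set.mem_ofPred_eq, mul_inv_rev, mul_assoc]

theorem tr_one (s : St n b) : tr 1 s = s := by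
  obtain ⟨m, F, a, u, X, inj, val, inf⟩ := s
  simp only [tr, inv_one, one_mul]
  rfl

theorem Ext0_tr (d : Gam n b) {A : Set (Gam n b)} {s t : St n b} (e : Ext0 A s t) :
    Ext0 {g | d⁻¹ * g ∈ A} (tr d s) (tr d t) where
  le := e.le
  sub g hg := e.sub hg
  sup := by
    intro g hg
    rcases e.sup hg with h | h
    · exact Or.inl h
    · exact Or.inr h
  a g hg k hk := e.a _ hg k hk
  u g hg k hk := e.u _ hg k hk
  c := by
    obtain ⟨c, h1, h2⟩ := e.c
    exact ⟨c, h1, fun g hg k h3 h4 => h2 _ hg k h3 h4⟩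
  X := e.X

theorem Ext_tr (d : Gam n b) {A : Set (Gam n b)} {s t : St n b} (e : Ext A s t) :
    Ext {g | d⁻¹ * g ∈ A} (tr d s) (tr d t) := by
  obtain ⟨k, h1, h2, h3⟩ := e.2
  exact ⟨Ext0_tr d e.1, k, h1, h2, fun g hg => h3 _ hg⟩

theorem lim_tr (d : Gam n b) (x : ℕ → St n b) : lim (fun j => tr d (x j)) = trL d (lim x) := rfl

/-- `x` is increasing -/
def Chain (x : ℕ → St n b) : Prop := ∀ j, Ext Set.univ (x j) (x (j + 1))

theorem Chain.ext {x : ℕ → St n b} (hx : Chain x) {i j : ℕ} (h : i < j) : Ext Set.univ (x i) (x j) := by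
  induction j, h using Nat.le_induction with
  | base => exact hx i
  | succ j _ ih => exact ih.trans' (hx j)

/-- transitivity along a segment -/
theorem ext_seg {A : Set (Gam n b)} {x : ℕ → St n b} {i j : ℕ} (h : i < j)
    (hx : ∀ k, i ≤ k → k < j → Ext A (x k) (x (k + 1))) : Ext A (x i) (x j) := by
  induction j, h using Nat.le_induction with
  | base => exact hx i le_rfl (by omega)
  | succ j hj ih =>
    exact (ih fun k h1 h2 => hx k h1 (by omega)).trans' (hx j (by omega) (by omega))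

theorem lim_F {x : ℕ → St n b} (j : ℕ) : (x j).F ⊆ (lim x).F := fun _ hg => ⟨j, hg⟩

theorem Chain.a_eq {x : ℕ → St n b} (hx : Chain x) {i j : ℕ} {g : Gam n b} (hg : g ∈ (x i).F) (hg' : g ∈ (x j).F)
    {k : ℕ} (hk : k < (x i).m) (hk' : k < (x j).m) : (x i).a g k = (x j).a g k := by
  rcases lt_trichotomy i j with h | rfl | h
  · exact ((hx.ext h).1.a g hg k hk).symm
  · rfl
  · exact (hx.ext h).1.a g hg' k hk'

theorem Chain.u_eq {x : ℕ → St n b} (hx : Chain x) {i j : ℕ} {g : Gam n b} (hg : g ∈ (x i).F) (hg' : g ∈ (x j).F)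
    {k : ℕ} (hk : k < (x i).m) (hk' : k < (x j).m) : (x i).u g k = (x j).u g k := by
  rcases lt_trichotomy i j with h | rfl | h
  · exact ((hx.ext h).1.u g hg k hk).symm
  · rfl
  · exact (hx.ext h).1.u g hg' k hk'

theorem lim_a {x : ℕ → St n b} (hx : Chain x) {j : ℕ} {g : Gam n b} (hg : g ∈ (x j).F) {k : ℕ}
    (hk : k < (x j).m) : ((lim x).y g).1 k = (x j).a g k := by
  simp only [lim]
  cases h : (x j).a g k
  · rw [decide_eq_false_iff_not]
    rintro ⟨i, h1, h2, h3⟩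
    rw [hx.a_eq hg h1 hk h2, h3] at h
    exact absurd h (by decide)
  · simp only [decide_eq_true_eq]
    exact ⟨j, hg, hk, h⟩

theorem lim_u {x : ℕ → St n b} (hx : Chain x) {j : ℕ} {g : Gam n b} (hg : g ∈ (x j).F) {k : ℕ}
    (hk : k < (x j).m) : ((lim x).y g).2 k = (x j).u g k := by
  simp only [lim]
  cases h : (x j).u g k
  · rw [decide_eq_false_iff_not]
    rintro ⟨i, h1, h2, h3⟩
    rw [hx.u_eq hg h1 hk h2, h3] at h
    exact absurd h (by decide)
  · simp only [decide_eq_true_eq]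
    exact ⟨j, hg, hk, h⟩

theorem Chain.le_m {x : ℕ → St n b} (hx : Chain x) (j : ℕ) : j ≤ (x j).m := by
  induction j with
  | zero => omega
  | succ j ih => have := (hx j).lt; omega

theorem Chain.mono_F {x : ℕ → St n b} (hx : Chain x) {i j : ℕ} (h : i ≤ j) : (x i).F ⊆ (x j).F := by
  rcases Nat.lt_or_ge i j with h1 | h1
  · exact (hx.ext h1).1.sub
  · obtain rfl : i = j := by omega
    exact subset_rfl

theorem Chain.mono_m {x : ℕ → St n b} (hx : Chain x) {i j : ℕ} (h : i ≤ j) : (x i).m ≤ (x j).m := by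
  rcases Nat.lt_or_ge i j with h1 | h1
  · exact (hx.ext h1).lt.le
  · obtain rfl : i = j := by omega
    exact le_rfl

theorem Chain.comp {x : ℕ → St n b} (hx : Chain x) {φ : ℕ → ℕ} (hφ : StrictMono φ) : Chain (x ∘ φ) :=
  fun j => hx.ext (hφ (Nat.lt_succ_self j))

/-- a large common index -/
theorem Chain.big {x : ℕ → St n b} (hx : Chain x) {g : Gam n b} (hg : g ∈ (lim x).F) (k : ℕ) :
    ∃ j, ∀ i, j ≤ i → g ∈ (x i).F ∧ k < (x i).m := by
  obtain ⟨j, hj⟩ := hg
  refine ⟨max j (k + 1), fun i hi => ⟨hx.mono_F ((le_max_left _ _).trans hi) hj, ?_⟩⟩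
  exact lt_of_lt_of_le (Nat.lt_succ_self k) ((hx.le_m _).trans' ((le_max_right _ _).trans hi))

theorem lim_subseq {x : ℕ → St n b} (hx : Chain x) {φ : ℕ → ℕ} (hφ : StrictMono φ) : lim (x ∘ φ) = lim x := by
  have hc := hx.comp hφ
  have hF : (lim (x ∘ φ)).F = (lim x).F := by
    ext g
    constructor
    · rintro ⟨j, h⟩; exact ⟨φ j, h⟩
    · rintro ⟨j, h⟩; exact ⟨j, hx.mono_F (hφ.id_le j) h⟩
  have hnot : ∀ (z : ℕ → St n b) (g : Gam n b), g ∉ (lim z).F → (lim z).y g = (fun _ => false, fun _ => false) := by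
    intro z g hg
    refine Prod.ext (funext fun k => ?_) (funext fun k => ?_)
    · simp only [lim]
      rw [decide_eq_false_iff_not]
      rintro ⟨j, h1, _, _⟩
      exact hg ⟨j, h1⟩
    · simp only [lim]
      rw [decide_eq_false_iff_not]
      rintro ⟨j, h1, _, _⟩
      exact hg ⟨j, h1⟩
  ext1
  · exact hF
  · funext g
    by_cases hg : g ∈ (lim x).F
    · refine Prod.ext (funext fun k => ?_) (funext fun k => ?_)
      · obtain ⟨j, hj⟩ := hx.big hg k
        obtain ⟨h1, h2⟩ := hj (φ j) (hφ.id_le j)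
        rw [lim_a hc (j := j) h1 h2, lim_a hx h1 h2]
        rfl
      · obtain ⟨j, hj⟩ := hx.big hg k
        obtain ⟨h1, h2⟩ := hj (φ j) (hφ.id_le j)
        rw [lim_u hc (j := j) h1 h2, lim_u hx h1 h2]
        rfl
    · rw [hnot x g hg, hnot (x ∘ φ) g (by rw [hF]; exact hg)]

theorem lim_mem_XS [NeZero b] {x : ℕ → St n b} (hx : Chain x) (h : (lim x).F = Set.univ) : (lim x).y ∈ XS n b := by
  have hF : ∀ g, g ∈ (lim x).F := fun g => by rw [h]; trivial
  refine ⟨?_, ?_, ?_⟩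
  · intro g g' e
    obtain ⟨j, hj⟩ := hx.big (hF g) 0
    obtain ⟨j', hj'⟩ := hx.big (hF g') 0
    have h1 := (hj _ (le_max_left j j')).1
    have h2 := (hj' _ (le_max_right j j')).1
    apply (x (max j j')).inj g h1 g' h2
    intro k hk
    rw [← lim_u hx h1 hk, ← lim_u hx h2 hk]
    exact congrFun e k
  · intro g N
    obtain ⟨j, hj⟩ := hx.big (hF g) N
    obtain ⟨h1, h2⟩ := hj j le_rfl
    obtain ⟨k, h3, h4, h5⟩ := (hx j).2
    refine ⟨k, by omega, ?_⟩
    rw [lim_a hx ((hx j).1.sub h1) h4]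
    exact h5 g h1
  · intro g i
    have hex : ∀ l : ZMod b, ∃ j, ∀ i', j ≤ i' → g * pw i l ∈ (x i').F ∧ 0 < (x i').m :=
      fun l => hx.big (hF _) 0
    choose J hJ using hex
    have hfin : (Set.univ : Set (ZMod b)).Finite := Set.toFinite _
    obtain ⟨j, hj⟩ : ∃ j, ∀ l : ZMod b, J l ≤ j := by
      obtain ⟨j, hj⟩ := (hfin.image J).bddAbove
      exact ⟨j, fun l => hj ⟨l, trivial, rfl⟩⟩
    have hj' : ∀ l : ZMod b, g * pw i l ∈ (x j).F := fun l => (hJ l j (hj l)).1
    obtain ⟨q, hq⟩ := (x j).val g i hj'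
    refine ⟨q, fun l hl => ?_⟩
    obtain ⟨r, hr, h1, h2, h3⟩ := hq l hl
    have ha : ∀ l' : ZMod b, ∀ k < (x j).m, ((lim x).y (g * pw i l')).1 k = (x j).a (g * pw i l') k :=
      fun l' k hk => lim_a hx (hj' l') hk
    refine ⟨r, by rw [ha _ _ hr]; exact h1, fun k hk => by rw [ha _ _ (hk.trans hr)]; exact h2 k hk, ?_⟩
    intro k
    by_cases hk : k < (x j).m
    · rw [ha _ _ hk, ha _ _ hk]
      exact h3 k hk
    · have hne : k ≠ r := by omega
      simp only [ne_eq, hne, not_false_eq_true, decide_true, Bool.and_true]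
      -- both are equal to the common tail
      obtain ⟨j2, hj2⟩ := hx.big (hF (g * pw i l)) k
      have hlt : j < max (j + 1) j2 := by omega
      have e := (hx.ext hlt).1
      have hk2 := (hj2 _ (le_max_right (j + 1) j2)).2
      obtain ⟨c, _, hc⟩ := e.c
      rw [lim_a hx (e.sub (hj' l)) hk2, lim_a hx (e.sub (hj' (l + 1))) hk2,
        hc _ (hj' l) k (not_lt.1 hk) hk2, hc _ (hj' (l + 1)) k (not_lt.1 hk) hk2]

end Pool.Agent.Helper56.CI
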