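import Mathlib

/-! # The definitions used in the statement -/

set_option autoImplicit false

open MeasureTheory

namespace Pool.Agent.Helper56.CI

/-- the basic clopen set of all pairs of sequences whose first `m` bits are the last `m` binary digits of `a` and of `b` -/
def box (m a b : ℕ) : Set ((ℕ → Bool) × (ℕ → Bool)) := {p | ∀ i < m, p.1 i = a.testBit i ∧ p.2 i = b.testBit i}

/-- Borel codes: `Codes c A` says that the sequence `c` codes the set `A`. If `c 0 = 0` then `c` codes the basic clopen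
set given by `c 1`, `c 2` and `c 3`, if `c 0 = 1` it codes the complement of the set coded by the shifted sequence, and
if `c 0 = 2` it codes the union of the sets coded by the rows of the shifted sequence. -/
inductive Codes : (ℕ → ℕ) → Set ((ℕ → Bool) × (ℕ → Bool)) → Prop
  | basic (c : ℕ → ℕ) (h : c 0 = 0) : Codes c (box (c 1) (c 2) (c 3))
  | compl (c : ℕ → ℕ) (A : Set ((ℕ → Bool) × (ℕ → Bool))) (h : c 0 = 1) (hA : Codes (fun i => c (i + 1)) A) :
      Codes c Aᶜ
  | union (c : ℕ → ℕ) (A : ℕ → Set ((ℕ → Bool) × (ℕ → Bool))) (h : c 0 = 2)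
      (hA : ∀ k, Codes (fun i => c (Nat.pair k i + 1)) (A k)) : Codes c (⋃ k, A k)

/-- `B` is a boldface `Σ¹₂` set: the projection of a coanalytic set -/
def IsSigma12 (B : Set (ℕ → Bool)) : Prop :=
  ∃ C : Set ((ℕ → Bool) × (ℕ → ℕ)), AnalyticSet Cᶜ ∧ B = {x | ∃ y, (x, y) ∈ C}

/-- `G` has a Borel edge colouring with `j` colours -/
def HasEdgeCol (G : SimpleGraph (ℕ → Bool)) (j : ℕ) : Prop :=
  ∃ c : {p : (ℕ → Bool) × (ℕ → Bool) // G.Adj p.1 p.2} → Fin j, Measurable c ∧
    (∀ u v (h : G.Adj u v), c ⟨(u, v), h⟩ = c ⟨(v, u), h.symm⟩) ∧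
    ∀ u v w (h : G.Adj u v) (h' : G.Adj u w), v ≠ w → c ⟨(u, v), h⟩ ≠ c ⟨(u, w), h'⟩

end Pool.Agent.Helper56.CI
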