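import Pool.Agent.Helper56.CI.Phi

/-! # Trees and branches -/

set_option autoImplicit false

open MeasureTheory

namespace Pool.Agent.Helper56.CI

theorem pre_zero (z : ℕ → ℕ) : pre z 0 = [] := rfl

theorem pre_succ (z : ℕ → ℕ) (l : ℕ) : pre z (l + 1) = pre z l ++ [z l] := by
  unfold pre
  rw [List.range_succ, List.map_append, List.map_singleton]

theorem length_pre (z : ℕ → ℕ) (l : ℕ) : (pre z l).length = l := by
  unfold pre
  rw [List.length_map, List.length_range]

theorem take_pre (z : ℕ → ℕ) {j l : ℕ} (h : j ≤ l) : (pre z l).take j = pre z j := by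
  unfold pre
  rw [← List.map_take, List.take_range, min_eq_left h]

theorem getD_pre (z : ℕ → ℕ) {j l : ℕ} (h : j < l) (e : ℕ) : (pre z l).getD j e = z j := by
  unfold pre
  rw [List.getD_eq_getElem?_getD]
  simp [h]

theorem pre_congr {z z' : ℕ → ℕ} {l : ℕ} (h : ∀ i < l, z i = z' i) : pre z l = pre z' l := by
  unfold pre
  apply List.map_congr_left
  intro i hi
  exact h i (List.mem_range.1 hi)

theorem eq_pre (t : List ℕ) : t = pre (fun i => t.getD i 0) t.length := by
  apply List.ext_getElem?
  intro i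
  unfold pre
  by_cases h : i < t.length
  · simp [h]
  · simp [h, not_lt.1 h]

theorem isOpen_pre (l : ℕ) (A : Set (List ℕ)) : IsOpen {z : ℕ → ℕ | pre z l ∈ A} := by
  rw [isOpen_iff_forall_mem_open]
  intro z hz
  refine ⟨⋂ i ∈ Finset.range l, (fun z' : ℕ → ℕ => z' i) ⁻¹' {z i}, ?_, ?_, ?_⟩
  · intro z' hz'
    simp only [Set.mem_iInter, Finset.mem_range, Set.mem_preimage, Set.mem_singleton_iff] at hz'
    show pre z' l ∈ A
    rw [pre_congr hz']
    exact hz
  · apply isOpen_biInter_finset
    intro i _
    exact (isOpen_discrete _).preimage (continuous_apply i)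
  · simp

theorem isClosed_pre (l : ℕ) (A : Set (List ℕ)) : IsClosed {z : ℕ → ℕ | pre z l ∈ A} := by
  rw [← isOpen_compl_iff]
  exact isOpen_pre l Aᶜ

theorem BT.rec' {T : List ℕ → Bool} {z : ℕ → ℕ} {s : ℕ → Bool} (hs : BT T s) (hz : Br T z) : Rec z s := by
  intro p
  obtain ⟨l, hl⟩ := hs p
  obtain ⟨m, h1, h2⟩ := hl (pre z l) (length_pre z l) (fun j hj => by rw [take_pre z hj]; exact hz j)
  rw [getD_pre z h1] at h2
  exact ⟨m, h2⟩

/-- compactness -/
theorem BT_of_wf {T : List ℕ → Bool} {s : ℕ → Bool} (hT : ∀ z, ¬ Br T z)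
    (hs : ∀ N, ∃ k, N ≤ k ∧ s k = true) : BT T s := by
  intro p
  by_contra hcon
  push Not at hcon
  choose β hβ using cn_unbounded hs
  let K : Set (ℕ → ℕ) := Set.pi Set.univ (fun m => Set.Iic (β (m + p + 1)))
  have hK : IsCompact K := isCompact_univ_pi fun m => (Set.finite_Iic _).isCompact
  let KK : ℕ → Set (ℕ → ℕ) := fun l => K ∩ ⋂ j, ⋂ (_ : j ≤ l), {z | pre z j ∈ {t | T t = true}}
  have hclosed : ∀ l, IsClosed (KK l) := fun l =>
    hK.isClosed.inter (isClosed_iInter fun j => isClosed_iInter fun _ => isClosed_pre j _)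
  have hne : (⋂ l, KK l).Nonempty := by
    apply IsCompact.nonempty_iInter_of_sequence_nonempty_isCompact_isClosed
    · intro l z hz
      refine ⟨hz.1, ?_⟩
      have h2 := hz.2
      simp only [Set.mem_iInter] at h2 ⊢
      exact fun j hj => h2 j (by omega)
    · intro l
      obtain ⟨t, h1, h2, h3⟩ := hcon l
      refine ⟨fun i => t.getD i 0, ?_, ?_⟩
      · intro m _
        show t.getD m 0 ≤ β (m + p + 1)
        by_cases hm : m < l
        · have h4 := h3 m hm
          have h5 := hβ (m + p + 1)
          by_contra h6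
          have h7 : cn s (β (m + p + 1)) ≤ cn s (t.getD m 0) := cn_mono s (not_le.1 h6).le
          unfold cn at h5 h7
          omega
        · have : t.getD m 0 = 0 := by
            rw [List.getD_eq_getElem?_getD, List.getElem?_eq_none (by omega)]
            rfl
          omega
      · simp only [Set.mem_iInter]
        intro j hj
        have h4 : pre (fun i => t.getD i 0) j = t.take j := by
          rw [← take_pre _ hj]
          congr 1
          rw [← h1]
          exact (eq_pre t).symm
        show T _ = true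
        rw [h4]
        exact h2 j hj
    · exact hK.inter_right (isClosed_iInter fun j => isClosed_iInter fun _ => isClosed_pre j _)
    · exact hclosed
  obtain ⟨z, hz⟩ := hne
  apply hT z
  intro l
  have h1 := Set.mem_iInter.1 hz l
  have h2 := h1.2
  simp only [Set.mem_iInter] at h2
  exact h2 l le_rfl

theorem measurableSet_BT : MeasurableSet {p : (List ℕ → Bool) × (ℕ → Bool) | BT p.1 p.2} := by
  have e : {p : (List ℕ → Bool) × (ℕ → Bool) | BT p.1 p.2} =
      ⋂ q : ℕ, ⋃ l : ℕ, ⋂ t : List ℕ, ⋂ (_ : t.length = l),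
        ((⋂ j, ⋂ (_ : j ≤ l), {p : (List ℕ → Bool) × (ℕ → Bool) | p.1 (t.take j) = true})ᶜ ∪
          ⋃ m, ⋃ (_ : m < l), {p : (List ℕ → Bool) × (ℕ → Bool) | m + q < cn p.2 (t.getD m 0)}) := by
    ext p
    simp only [BT, Set.mem_ofPred_eq, Set.mem_iInter, Set.mem_iUnion, Set.mem_union, Set.mem_compl_iff, exists_prop,
      cn]
    constructor
    · intro h q
      obtain ⟨l, hl⟩ := h q
      refine ⟨l, fun t ht => ?_⟩
      by_cases h1 : ∀ j ≤ l, p.1 (t.take j) = true
      · exact Or.inr (hl t ht h1)
      · exact Or.inl h1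
    · intro h q
      obtain ⟨l, hl⟩ := h q
      exact ⟨l, fun t ht h1 => (hl t ht).resolve_left fun h2 => h2 h1⟩
  rw [e]
  refine MeasurableSet.iInter fun q => MeasurableSet.iUnion fun l => MeasurableSet.iInter fun t =>
    MeasurableSet.iInter fun _ => MeasurableSet.union (MeasurableSet.compl ?_) ?_
  · refine MeasurableSet.iInter fun j => MeasurableSet.iInter fun _ => ?_
    exact ((measurable_pi_apply (X := fun _ : List ℕ => Bool) (t.take j)).comp measurable_fst)
      (measurableSet_singleton true)
  · refine MeasurableSet.iUnion fun m => MeasurableSet.iUnion fun _ => ?_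
    exact ((measurable_cn (t.getD m 0)).comp measurable_snd) (Set.to_countable {v | m + q < v}).measurableSet

end Pool.Agent.Helper56.CI
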